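import Pool.Agent.Lib.MP_fc1011_gt.MT.Spec

/-!
# A strand which goes around the first strands acts diagonally
-/

set_option autoImplicit false

namespace MP_fc1011_gt.MT

open Finset

/-- the closed form of the weights -/
theorem around_b {A : ℂ} {b : ℕ → ℂ} {R m : ℕ} (hA : A ≠ 0) (hb : Hts (-A ^ 2 - (A ^ 2)⁻¹) b R m)
    (n : ℕ) : (A ^ 2 - (A ^ 2)⁻¹) * b n = -(-1) ^ n * (A ^ (2 * n) - (A ^ (2 * n))⁻¹) ∧
      (A ^ 2 - (A ^ 2)⁻¹) * b (n + 1) =
        (-1) ^ n * (A ^ (2 * (n + 1)) - (A ^ (2 * (n + 1)))⁻¹) := by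
  induction n with
  | zero =>
    constructor
    · rw [hb.b0]; simp
    · rw [hb.b1]; simp
  | succ n ih =>
    refine ⟨by rw [ih.2]; ring, ?_⟩
    have h1 : n + 1 + 1 = n + 2 := rfl
    rw [h1, hb.rc n, mul_sub, mul_left_comm, ih.1, ih.2]
    have h2 : A ^ (2 * (n + 2)) = A ^ (2 * n) * A ^ 4 := by ring
    have h3 : A ^ (2 * (n + 1)) = A ^ (2 * n) * A ^ 2 := by ring
    rw [h2, h3]
    have h4 : A ^ (2 * n) ≠ 0 := pow_ne_zero _ hA
    generalize A ^ (2 * n) = X at h4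
    field_simp
    ring

/-- the algebraic identity -/
theorem around_alg (A X : ℂ) (hA : A ≠ 0) (hX : X ≠ 0) (hXX : X - X⁻¹ ≠ 0) (p r : ℂ) :
    (A * (X * (A ^ 2)⁻¹ * (A * p + A⁻¹ * (-(A ^ 2 * X - (A ^ 2 * X)⁻¹) / (X - X⁻¹) * (p + r)))) +
      A⁻¹ * (-(A ^ 2 * X - (A ^ 2 * X)⁻¹) / (X - X⁻¹) *
        (X * (A ^ 2)⁻¹ * (A * p + A⁻¹ * (-(A ^ 2 * X - (A ^ 2 * X)⁻¹) / (X - X⁻¹) * (p + r))) +
          X⁻¹ * (A ^ 2)⁻¹ * (A * r + A⁻¹ * (-(X * (A ^ 2)⁻¹ - A ^ 2 * X⁻¹) / (X - X⁻¹) * (p + r)))))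
      = X⁻¹ * (A ^ 4)⁻¹ * p) ∧
    (A * (X⁻¹ * (A ^ 2)⁻¹ * (A * r + A⁻¹ * (-(X * (A ^ 2)⁻¹ - A ^ 2 * X⁻¹) / (X - X⁻¹) * (p + r)))) +
      A⁻¹ * (-(X * (A ^ 2)⁻¹ - A ^ 2 * X⁻¹) / (X - X⁻¹) *
        (X * (A ^ 2)⁻¹ * (A * p + A⁻¹ * (-(A ^ 2 * X - (A ^ 2 * X)⁻¹) / (X - X⁻¹) * (p + r))) +
          X⁻¹ * (A ^ 2)⁻¹ * (A * r + A⁻¹ * (-(X * (A ^ 2)⁻¹ - A ^ 2 * X⁻¹) / (X - X⁻¹) * (p + r)))))
      = X * (A ^ 4)⁻¹ * r) := by
  have h2 : X ^ 2 - 1 ≠ 0 := by
    intro h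
    apply hXX
    field_simp
    simpa using h
  have h3 : X - X⁻¹ = (X ^ 2 - 1) / X := by field_simp
  rw [h3]
  constructor
  · field_simp
    ring
  · field_simp
    ring

theorem around_le {R m : ℕ} {a : ℕ → ℕ} (ha : Pth R m a) : ∀ i, i ≤ m → a i ≤ i + 1 := by
  intro i
  induction i with
  | zero => intro _; rw [ha.1]
  | succ i ih =>
    intro hi
    have h1 := ih (by omega)
    have h2 := ha.2.2.1 i (by omega)
    omega

theorem around_top {d : ℂ} {b : ℕ → ℂ} {R m i : ℕ} (hb : Hts d b R m) (hi : i + 1 < m) {a : ℕ → ℕ}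
    (ha : Pth R m a) (h : R < a i + 1) : b (a i + 1) = 0 := by
  have h1 := (ha.2.2.2 i).2
  have h2 := around_le ha i (by omega)
  have h3 : a i = R := by omega
  rcases hb.top with h4 | h4
  · rw [h3]; exact h4
  · omega

theorem around_up {R m i : ℕ} (hi : i + 1 < m) {a : ℕ → ℕ} (ha : Pth R m a) (hx : a i = a (i + 2))
    {u : ℕ} (hu : u = a i + 1 ∨ u + 1 = a i) (h1 : 1 ≤ u) (h2 : u ≤ R) :
    Pth R m (Function.update a (i + 1) u) := by
  refine ⟨?_, ?_, ?_, ?_⟩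
  · rw [Function.update_of_ne (by omega)]; exact ha.1
  · intro k hk
    rw [Function.update_of_ne (by omega)]; exact ha.2.1 k hk
  · intro k hk
    by_cases h3 : k = i
    · subst h3
      rw [Function.update_self, Function.update_of_ne (by omega)]
      omega
    · by_cases h4 : k = i + 1
      · subst h4
        rw [Function.update_self, Function.update_of_ne (by omega)]
        have h5 : a (i + 1 + 1) = a i := hx.symm
        rw [h5]; omega
      · rw [Function.update_of_ne (by omega), Function.update_of_ne (by omega)]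
        exact ha.2.2.1 k hk
  · intro k
    by_cases h3 : k = i + 1
    · subst h3; rw [Function.update_self]; exact ⟨h1, h2⟩
    · rw [Function.update_of_ne h3]; exact ha.2.2.2 k

theorem around_sg (A : ℂ) (b : ℕ → ℂ) (R m i : ℕ) (ψ : (ℕ → ℕ) → ℂ) (a : ℕ → ℕ) :
    sg A A⁻¹ b R m (i, true) ψ a = A * ψ a + A⁻¹ * UU b R m i ψ a := by
  simp [sg]

theorem around_supp {A A' : ℂ} {b : ℕ → ℂ} {R m : ℕ} {c : ℕ × Bool} {ψ : (ℕ → ℕ) → ℂ}
    (hψ : Supp R m ψ) : Supp R m (sg A A' b R m c ψ) := by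
  intro a ha
  have h0 : UU b R m c.1 ψ a = 0 := by rw [UU, if_neg (fun h => ha h.1)]
  rw [sg, hψ a ha, h0, mul_zero, mul_zero, add_zero]

theorem around_step {A : ℂ} {b : ℕ → ℂ} {R m i : ℕ} (hA : A ≠ 0) (hA4 : A ^ 4 ≠ 1)
    (hb : Hts (-A ^ 2 - (A ^ 2)⁻¹) b R m) (hi : i + 1 < m) {ψ φ : (ℕ → ℕ) → ℂ} (hψ : Supp R m ψ)
    (hφ : ∀ a, Pth R m a → φ a =
      A ^ ((a (i + 1) : ℤ) ^ 2 - (a i : ℤ) ^ 2 - 3) * sg A A⁻¹ b R m (i, true) ψ a)
    (hφ' : Supp R m φ) {a : ℕ → ℕ} (ha : Pth R m a) :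
    sg A A⁻¹ b R m (i, true) φ a =
      A ^ ((a (i + 2) : ℤ) ^ 2 - (a (i + 1) : ℤ) ^ 2 - 3) * ψ a := by
  have hs1 := ha.2.2.1 i (by omega)
  have hs2 := ha.2.2.1 (i + 1) hi
  have hA2 : A ^ 2 - (A ^ 2)⁻¹ ≠ 0 := by
    intro h
    apply hA4
    field_simp at h
    linear_combination h
  by_cases hx : a i = a (i + 2)
  swap
  · have h0 : ∀ χ : (ℕ → ℕ) → ℂ, UU b R m i χ a = 0 := fun χ => by
      rw [UU, if_neg (fun h => hx h.2)]
    rw [around_sg, h0, hφ a ha, around_sg, h0]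
    have e : ((a (i + 2) : ℤ) ^ 2 - (a (i + 1) : ℤ) ^ 2 - 3) =
        ((a (i + 1) : ℤ) ^ 2 - (a i : ℤ) ^ 2 - 3) + 2 := by
      have h3 : a (i + 1 + 1) = a (i + 2) := rfl
      rw [h3] at hs2
      rcases hs1 with h1 | h1 <;> rcases hs2 with h2 | h2
      · rw [h2, h1]; push_cast; ring
      · omega
      · omega
      · rw [← h1, ← h2]; push_cast; ring
    rw [e, zpow_add₀ hA]
    have e2 : A ^ (2 : ℤ) = A * A := by
      have : A ^ (2 : ℤ) = A ^ 2 := by norm_cast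
      rw [this]; ring
    rw [e2]
    ring
  -- the block
  obtain ⟨x, hxx⟩ : ∃ x, a i = x := ⟨_, rfl⟩
  have hx1 : 1 ≤ x := hxx ▸ (ha.2.2.2 i).1
  have hxR : x ≤ R := hxx ▸ (ha.2.2.2 i).2
  have hbx : b x ≠ 0 := hb.ne x hx1 hxR
  set p := ψ (Function.update a (i + 1) (x + 1)) with hp
  set r := ψ (Function.update a (i + 1) (x - 1)) with hr
  have hUa : ∀ χ : (ℕ → ℕ) → ℂ, UU b R m i χ a = b (a (i + 1)) / b x *
      (χ (Function.update a (i + 1) (x + 1)) + χ (Function.update a (i + 1) (x - 1))) := by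
    intro χ
    rw [UU, if_pos ⟨ha, hx⟩, hxx]
  have hsgu : ∀ u, Pth R m (Function.update a (i + 1) u) →
      sg A A⁻¹ b R m (i, true) ψ (Function.update a (i + 1) u) =
        A * ψ (Function.update a (i + 1) u) + A⁻¹ * (b u / b x * (p + r)) := by
    intro u hu
    have h1 : Function.update a (i + 1) u i = x := by
      rw [Function.update_of_ne (by omega), hxx]
    have h2 : Function.update a (i + 1) u (i + 2) = x := by
      rw [Function.update_of_ne (by omega), ← hx, hxx]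
    rw [around_sg, UU, if_pos ⟨hu, by rw [h1, h2]⟩, h1, Function.update_self, Function.update_idem,
      Function.update_idem]
  have hφu : ∀ u, Pth R m (Function.update a (i + 1) u) →
      φ (Function.update a (i + 1) u) = A ^ ((u : ℤ) ^ 2 - (x : ℤ) ^ 2 - 3) *
        (A * ψ (Function.update a (i + 1) u) + A⁻¹ * (b u / b x * (p + r))) := by
    intro u hu
    rw [hφ _ hu, hsgu u hu, Function.update_self, Function.update_of_ne (by omega), hxx]
  -- the powers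
  set X : ℂ := A ^ (2 * x) with hX
  have hX0 : X ≠ 0 := pow_ne_zero _ hA
  have hXz : A ^ (2 * (x : ℤ)) = X := by
    rw [hX]; exact_mod_cast rfl
  have k1 : A ^ (((x + 1 : ℕ) : ℤ) ^ 2 - (x : ℤ) ^ 2 - 3) = X * (A ^ 2)⁻¹ := by
    have e : (((x + 1 : ℕ) : ℤ) ^ 2 - (x : ℤ) ^ 2 - 3) = 2 * (x : ℤ) + (-2) := by push_cast; ring
    rw [e, zpow_add₀ hA, hXz, zpow_neg]
    norm_cast
  have k2 : A ^ (((x - 1 : ℕ) : ℤ) ^ 2 - (x : ℤ) ^ 2 - 3) = X⁻¹ * (A ^ 2)⁻¹ := by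
    have e : (((x - 1 : ℕ) : ℤ) ^ 2 - (x : ℤ) ^ 2 - 3) = -(2 * (x : ℤ)) + (-2) := by
      push_cast [Nat.cast_sub hx1]; ring
    rw [e, zpow_add₀ hA, zpow_neg, hXz, zpow_neg]
    norm_cast
  have k3 : A ^ ((x : ℤ) ^ 2 - ((x + 1 : ℕ) : ℤ) ^ 2 - 3) = X⁻¹ * (A ^ 4)⁻¹ := by
    have e : ((x : ℤ) ^ 2 - ((x + 1 : ℕ) : ℤ) ^ 2 - 3) = -(2 * (x : ℤ)) + (-4) := by
      push_cast; ring
    rw [e, zpow_add₀ hA, zpow_neg, hXz, zpow_neg]
    norm_cast
  have k4 : A ^ ((x : ℤ) ^ 2 - ((x - 1 : ℕ) : ℤ) ^ 2 - 3) = X * (A ^ 4)⁻¹ := by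
    have e : ((x : ℤ) ^ 2 - ((x - 1 : ℕ) : ℤ) ^ 2 - 3) = 2 * (x : ℤ) + (-4) := by
      push_cast [Nat.cast_sub hx1]; ring
    rw [e, zpow_add₀ hA, hXz, zpow_neg]
    norm_cast
  -- the weights
  obtain ⟨n, hn⟩ : ∃ n, x = n + 1 := ⟨x - 1, by omega⟩
  have c0 := (around_b hA hb n).1
  have c1 := (around_b hA hb n).2
  have c2 := (around_b hA hb (n + 1)).2
  have hXn : X = A ^ (2 * (n + 1)) := by rw [hX, hn]
  have hsgn : ((-1 : ℂ)) ^ n ≠ 0 := pow_ne_zero _ (by norm_num)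
  have hXX : X - X⁻¹ ≠ 0 := by
    intro h
    rw [← hXn, h, mul_zero] at c1
    rcases mul_eq_zero.1 c1 with h1 | h1
    · exact hA2 h1
    · rw [hn] at hbx; exact hbx h1
  have g1 : b (x + 1) / b x = -(A ^ 2 * X - (A ^ 2 * X)⁻¹) / (X - X⁻¹) := by
    rw [div_eq_div_iff hbx hXX]
    have e1 : A ^ (2 * (n + 1 + 1)) = A ^ 2 * X := by rw [hXn]; ring
    rw [← hXn] at c1
    rw [e1, pow_succ] at c2
    rw [hn]
    have h5 : (A ^ 2 - (A ^ 2)⁻¹) * (b (n + 1 + 1) * (X - X⁻¹)) =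
        (A ^ 2 - (A ^ 2)⁻¹) * (-(A ^ 2 * X - (A ^ 2 * X)⁻¹) * b (n + 1)) := by
      linear_combination (X - X⁻¹) * c2 + (A ^ 2 * X - (A ^ 2 * X)⁻¹) * c1
    exact mul_left_cancel₀ hA2 h5
  have g2 : b (x - 1) / b x = -(X * (A ^ 2)⁻¹ - A ^ 2 * X⁻¹) / (X - X⁻¹) := by
    rw [div_eq_div_iff hbx hXX]
    have e1 : A ^ (2 * n) = X * (A ^ 2)⁻¹ := by rw [hXn]; field_simp; ring
    have e2 : (X * (A ^ 2)⁻¹)⁻¹ = A ^ 2 * X⁻¹ := by field_simp
    rw [← hXn] at c1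
    rw [e1, e2] at c0
    have e3 : x - 1 = n := by omega
    rw [e3, hn]
    have h5 : (A ^ 2 - (A ^ 2)⁻¹) * (b n * (X - X⁻¹)) =
        (A ^ 2 - (A ^ 2)⁻¹) * (-(X * (A ^ 2)⁻¹ - A ^ 2 * X⁻¹) * b (n + 1)) := by
      linear_combination (X - X⁻¹) * c0 + (X * (A ^ 2)⁻¹ - A ^ 2 * X⁻¹) * c1
    exact mul_left_cancel₀ hA2 h5
  have hup : φ (Function.update a (i + 1) (x + 1)) = X * (A ^ 2)⁻¹ *
      (A * p + A⁻¹ * (b (x + 1) / b x * (p + r))) := by
    by_cases h : x + 1 ≤ R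
    · have hu := around_up hi ha hx (u := x + 1) (Or.inl (by rw [hxx])) (by omega) h
      rw [hφu _ hu, k1]
    · have hnp : ¬ Pth R m (Function.update a (i + 1) (x + 1)) := by
        intro h1
        have h2 := (h1.2.2.2 (i + 1)).2
        rw [Function.update_self] at h2
        exact h h2
      have hb0 : b (x + 1) = 0 := by
        rw [← hxx]; exact around_top hb hi ha (by rw [hxx]; omega)
      rw [hφ' _ hnp, hp, hψ _ hnp, hb0]
      ring
  have hdn : φ (Function.update a (i + 1) (x - 1)) = X⁻¹ * (A ^ 2)⁻¹ *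
      (A * r + A⁻¹ * (b (x - 1) / b x * (p + r))) := by
    by_cases h : 1 ≤ x - 1
    · have hu := around_up hi ha hx (u := x - 1) (Or.inr (by rw [hxx]; omega)) h (by omega)
      rw [hφu _ hu, k2]
    · have hnp : ¬ Pth R m (Function.update a (i + 1) (x - 1)) := by
        intro h1
        have h2 := (h1.2.2.2 (i + 1)).1
        rw [Function.update_self] at h2
        exact h h2
      have h0 : x - 1 = 0 := by omega
      have hb0 : b (x - 1) = 0 := by rw [h0]; exact hb.b0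
      rw [hφ' _ hnp, hr, hψ _ hnp, hb0]
      ring
  obtain ⟨q1, q2⟩ := around_alg A X hA hX0 hXX p r
  rw [around_sg, hUa φ, hup, hdn, ← hx, hxx]
  rcases hs1 with h1 | h1
  · have hau : a = Function.update a (i + 1) (x + 1) := by
      rw [← hxx, ← h1, Function.update_eq_self]
    have h2 : a (i + 1) = x + 1 := by rw [h1, hxx]
    have h3 : φ a = X * (A ^ 2)⁻¹ * (A * p + A⁻¹ * (b (x + 1) / b x * (p + r))) := by
      rw [← hup, ← hau]
    have h4 : ψ a = p := by rw [hp, ← hau]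
    rw [h2, h3, h4, k3, g1, g2]
    exact q1
  · have h2 : a (i + 1) = x - 1 := by omega
    have hau : a = Function.update a (i + 1) (x - 1) := by
      rw [← h2, Function.update_eq_self]
    have h3 : φ a = X⁻¹ * (A ^ 2)⁻¹ * (A * r + A⁻¹ * (b (x - 1) / b x * (p + r))) := by
      rw [← hdn, ← hau]
    have h4 : ψ a = r := by rw [hr, ← hau]
    rw [h2, h3, h4, k4, g1, g2]
    exact q2

theorem around_rho_supp {A A' : ℂ} {b : ℕ → ℂ} {R m : ℕ} (cs : List (ℕ × Bool)) :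
    ∀ {ψ : (ℕ → ℕ) → ℂ}, Supp R m ψ → Supp R m (rho A A' b R m cs ψ) := by
  induction cs with
  | nil => intro ψ h; exact h
  | cons c cs ih => intro ψ h; exact ih (around_supp h)

theorem around_succ (j : ℕ) : around (j + 1) = (j + 1) :: (around j ++ [j + 1]) := by
  unfold around
  rw [List.range_succ (n := j + 1), List.reverse_append]
  simp

theorem sAround : S_Around := by
  intro A b R m j hA hA4 hb
  induction j with
  | zero =>
    intro hj ψ hψ a ha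
    have h1 : (around 0).map (fun i => (i, true)) = [(0, true), (0, true)] := rfl
    rw [h1]
    change sg A A⁻¹ b R m (0, true) (sg A A⁻¹ b R m (0, true) ψ) a = _
    refine around_step hA hA4 hb hj hψ ?_ (around_supp hψ) ha
    intro c hc
    have h2 := hc.2.2.1 0 (by omega)
    have h3 := (hc.2.2.2 (0 + 1)).1
    rw [hc.1] at h2
    have h4 : c (0 + 1) = 2 := by omega
    rw [h4, hc.1]
    norm_num
  | succ j ih =>
    intro hj ψ hψ a ha
    rw [around_succ, List.map_cons, List.map_append, List.map_cons, List.map_nil]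
    have h1 : rho A A⁻¹ b R m ((j + 1, true) :: ((around j).map (fun i => (i, true)) ++
        [(j + 1, true)])) ψ = sg A A⁻¹ b R m (j + 1, true)
          (rho A A⁻¹ b R m ((around j).map (fun i => (i, true))) (sg A A⁻¹ b R m (j + 1, true) ψ)) := by
      unfold rho
      rw [List.foldl_cons, List.foldl_append]
      rfl
    rw [h1]
    refine around_step hA hA4 hb hj hψ ?_ (around_rho_supp _ (around_supp hψ)) ha
    intro c hc
    exact ih (by omega) _ (around_supp hψ) c hc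

end MP_fc1011_gt.MT
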