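import Pool.Agent.Lib.MP_fc1011_gt.MT.Spec

/-!
# Assembly: `R(K) ≤ 13 (N + m)`
-/

set_option autoImplicit false

namespace MP_fc1011_gt.MT

open LaurentPolynomial Finset

theorem asm_valid {m : ℕ} (D : Diagram m) : ∀ c ∈ D.crossings, c.1 + 1 < m := by
  intro c hc
  unfold Diagram.crossings at hc
  rw [List.mem_flatMap] at hc
  obtain ⟨l, hl, hc⟩ := hc
  have hv := D.valid l hl
  cases l with
  | twist i n =>
    have h1 : c ∈ List.replicate n.natAbs (i, decide (0 < n)) := hc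
    rw [List.eq_of_mem_replicate h1]
    exact hv
  | full k n =>
    have h1 : c ∈ ((List.replicate n.natAbs (fullTwist k)).flatten.map
      fun i => (i, decide (0 < n))) := hc
    rw [List.mem_map] at h1
    obtain ⟨i, hi, rfl⟩ := h1
    rw [List.mem_flatten] at hi
    obtain ⟨l', hl', hi⟩ := hi
    rw [List.eq_of_mem_replicate hl'] at hi
    unfold fullTwist at hi
    rw [List.mem_flatMap] at hi
    obtain ⟨j, hj, hi⟩ := hi
    rw [List.mem_range] at hj
    unfold around at hi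
    simp only [List.mem_append, List.mem_reverse, List.mem_range, or_self] at hi
    have h3 : k ≤ m := hv
    change i + 1 < m
    omega

/-- The numerical estimate of the generic case. -/
theorem asm_num {s m N : ℕ} (hs : 2 ≤ s) (hm : 0 < m) (h : N + m ≤ s) :
    ((s : ℝ) + 1) * ((((m + 2 + 1 : ℕ) : ℝ) * ((s + 1 : ℕ) : ℝ) / 2) *
      ((2 * ((m + 2 : ℕ) : ℝ) ^ 2 / (2 / (((m + 2 + 1 : ℕ) : ℝ) * ((s + 1 : ℕ) : ℝ)))) ^ m *
        (5 * ((m + 2 : ℕ) : ℝ) / (2 / (((m + 2 + 1 : ℕ) : ℝ) * ((s + 1 : ℕ) : ℝ))) ^ 2) ^ N)) ≤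
      (s : ℝ) ^ (13 * (N + m)) := by
  have hs2 : (2 : ℝ) ≤ s := by exact_mod_cast hs
  have hms : (m : ℝ) ≤ s := by exact_mod_cast (by omega : m ≤ s)
  have hm0 : (0 : ℝ) ≤ m := Nat.cast_nonneg m
  push_cast
  set x : ℝ := ((m : ℝ) + 2 + 1) * ((s : ℝ) + 1) with hx
  have hx0 : 0 < x := by positivity
  have hx1 : x / 2 ≤ (s : ℝ) ^ 3 := by
    have h1 : x ≤ ((s : ℝ) + 3) * (s + 1) := by rw [hx]; nlinarith
    have h2 : ((s : ℝ) + 3) * (s + 1) ≤ 4 * s ^ 2 := by nlinarith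
    have h3 : 2 * (s : ℝ) ^ 2 ≤ s ^ 3 := by nlinarith [sq_nonneg (s : ℝ)]
    linarith
  have hx2 : x ≤ 4 * (s : ℝ) ^ 2 := by
    have h1 : x ≤ ((s : ℝ) + 3) * (s + 1) := by rw [hx]; nlinarith
    have h2 : ((s : ℝ) + 3) * (s + 1) ≤ 4 * s ^ 2 := by nlinarith
    linarith
  have hR : (m : ℝ) + 2 ≤ 2 * s := by linarith
  have e1 : 2 * ((m : ℝ) + 2) ^ 2 / (2 / x) = ((m : ℝ) + 2) ^ 2 * x := by
    field_simp
  have e2 : 5 * ((m : ℝ) + 2) / (2 / x) ^ 2 = 5 * ((m : ℝ) + 2) * x ^ 2 / 4 := by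
    field_simp
    ring
  have p4 : (16 : ℝ) ≤ s ^ 4 := by
    calc (16 : ℝ) = 2 ^ 4 := by norm_num
      _ ≤ (s : ℝ) ^ 4 := pow_le_pow_left₀ (by norm_num) hs2 4
  have p6 : (64 : ℝ) ≤ s ^ 6 := by
    calc (64 : ℝ) = 2 ^ 6 := by norm_num
      _ ≤ (s : ℝ) ^ 6 := pow_le_pow_left₀ (by norm_num) hs2 6
  have b1 : ((m : ℝ) + 2) ^ 2 * x ≤ (s : ℝ) ^ 8 := by
    calc ((m : ℝ) + 2) ^ 2 * x ≤ (2 * s) ^ 2 * (4 * (s : ℝ) ^ 2) :=
          mul_le_mul (pow_le_pow_left₀ (by positivity) hR 2) hx2 hx0.le (by positivity)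
      _ = 16 * s ^ 4 := by ring
      _ ≤ s ^ 4 * s ^ 4 := mul_le_mul_of_nonneg_right p4 (by positivity)
      _ = (s : ℝ) ^ 8 := by ring
  have b2 : 5 * ((m : ℝ) + 2) * x ^ 2 / 4 ≤ (s : ℝ) ^ 11 := by
    calc 5 * ((m : ℝ) + 2) * x ^ 2 / 4 ≤ 5 * (2 * s) * (4 * (s : ℝ) ^ 2) ^ 2 / 4 := by
          refine div_le_div_of_nonneg_right (mul_le_mul (by linarith)
            (pow_le_pow_left₀ hx0.le hx2 2) (by positivity) (by positivity)) (by norm_num)
      _ = 40 * (s : ℝ) ^ 5 := by ring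
      _ ≤ s ^ 6 * s ^ 5 := by nlinarith [p6, (by positivity : (0 : ℝ) ≤ (s : ℝ) ^ 5)]
      _ = (s : ℝ) ^ 11 := by ring
  have b3 : (s : ℝ) + 1 ≤ s ^ 2 := by nlinarith
  rw [e1, e2]
  have hs1 : (1 : ℝ) ≤ s := by linarith
  calc ((s : ℝ) + 1) * (x / 2 * ((((m : ℝ) + 2) ^ 2 * x) ^ m *
        (5 * ((m : ℝ) + 2) * x ^ 2 / 4) ^ N))
      ≤ s ^ 2 * (s ^ 3 * (((s : ℝ) ^ 8) ^ m * ((s : ℝ) ^ 11) ^ N)) := by
        refine mul_le_mul b3 (mul_le_mul hx1 (mul_le_mul
          (pow_le_pow_left₀ (by positivity) b1 m) (pow_le_pow_left₀ (by positivity) b2 N)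
          (by positivity) (by positivity)) (by positivity) (by positivity)) (by positivity)
          (by positivity)
    _ = (s : ℝ) ^ (5 + 8 * m + 11 * N) := by
        rw [← pow_mul, ← pow_mul]; ring
    _ ≤ (s : ℝ) ^ (13 * (N + m)) := pow_le_pow_right₀ hs1 (by omega)

/-- The numerical estimate of the unitary case. -/
theorem asm_num' {s m N : ℕ} (hs : 2 ≤ s) (h : s < N + m) :
    ((s : ℝ) + 1) * (4 * (s : ℝ) ^ 2) ^ s * 2 ^ m ≤ (s : ℝ) ^ (13 * (N + m)) := by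
  have hs2 : (2 : ℝ) ≤ s := by exact_mod_cast hs
  have hs1 : (1 : ℝ) ≤ s := by linarith
  have b3 : (s : ℝ) + 1 ≤ s ^ 2 := by nlinarith
  have b4 : 4 * (s : ℝ) ^ 2 ≤ s ^ 4 := by
    have h4 : (4 : ℝ) ≤ s ^ 2 := by nlinarith
    calc 4 * (s : ℝ) ^ 2 ≤ s ^ 2 * s ^ 2 := mul_le_mul_of_nonneg_right h4 (by positivity)
      _ = (s : ℝ) ^ 4 := by ring
  calc ((s : ℝ) + 1) * (4 * (s : ℝ) ^ 2) ^ s * 2 ^ m
      ≤ s ^ 2 * ((s : ℝ) ^ 4) ^ s * s ^ m := by
        refine mul_le_mul (mul_le_mul b3 (pow_le_pow_left₀ (by positivity) b4 s)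
          (by positivity) (by positivity)) (pow_le_pow_left₀ (by norm_num) hs2 m)
          (by positivity) (by positivity)
    _ = (s : ℝ) ^ (2 + 4 * s + m) := by
        rw [← pow_mul]; ring
    _ ≤ (s : ℝ) ^ (13 * (N + m)) := pow_le_pow_right₀ hs1 (by omega)

theorem asm (hCap : S_Cap) (hCol : S_Col) (hState : S_State) (hExch : S_Exch) (hReach : S_Reach)
    (hFin : S_Fin) (hU2 : S_U2) (hKet : S_Ket) (hSym : S_Sym) (hBStd : S_BStd) (hPair : S_Pair)
    (hEval : S_Eval) (hAround : S_Around) (hFull : S_Full) (hTw : S_Tw) (hGen : S_Gen)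
    (hUni : S_Uni) (hInterp : S_Interp) (hExtra : S_Extra) (hTrigGen : S_TrigGen)
    (hTrigUni : S_TrigUni) (hBridge : S_Bridge) (m : ℕ) (hm : 0 < m) (D : Diagram m)
    (V : ℤ[T;T⁻¹]) (hV : D.IsJones V) (hs : 2 ≤ span V) :
    quotient V ≤ 13 * (D.twists + m) := by
  have hP := hPair hCap hCol hExch hReach hFin hKet hSym hBStd
  have hE := hEval hCap hKet hP
  obtain ⟨c, hc1, hc2⟩ := hBridge (hState hCap hCol) m hm D V hV
  set s := span V with hsdef
  have key : |(atNegOne V : ℝ)| ≤ (s : ℝ) ^ (13 * (D.twists + m)) := by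
    have h1 : |(atNegOne V : ℝ)| = ‖∑ k ∈ range (s + 1), (c k : ℂ) * (-1) ^ k‖ := by
      have h2 : |atNegOne V| = |∑ k ∈ range (s + 1), c k * (-1) ^ k| := by
        rw [Int.abs_eq_natAbs, Int.abs_eq_natAbs, hc1]
      have h3 : (∑ k ∈ range (s + 1), (c k : ℂ) * (-1) ^ k) =
          (((∑ k ∈ range (s + 1), c k * (-1) ^ k : ℤ)) : ℂ) := by push_cast; rfl
      rw [h3, Complex.norm_intCast, ← Int.cast_abs, h2, Int.cast_abs]
    rw [h1]
    rcases Nat.lt_or_ge s (D.twists + m) with hlt | hge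
    · -- unitary case
      refine (hExtra s (fun k => (c k : ℂ)) (2 ^ m) hs ?_).trans (asm_num' hs hlt)
      intro r hr
      obtain ⟨A, b, hA4, hA, hb, hd1, hd2, hbn⟩ := hTrigUni r m hr
      have h2 := hc2 A hA
      have h3 := hUni hFin hSym hU2 hP hE A b (r - 1) m hA hb hd2 hbn D.crossings (asm_valid D)
        D.top D.bot
      rw [← h2, hA4] at h3
      have h4 := norm_nonneg (∑ k ∈ range (s + 1), (c k : ℂ) *
        Complex.exp (2 * Real.pi * Complex.I / r) ^ k)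
      nlinarith
    · -- generic case
      set R : ℕ := m + 2 with hR
      set M : ℕ := s + 1 with hM
      set ε : ℝ := 2 / (((R + 1 : ℕ) : ℝ) * (M : ℝ)) with hε
      have hε0 : 0 < ε := by rw [hε]; positivity
      have hε1 : ε ≤ 1 := by
        rw [hε, div_le_one (by positivity)]
        have h2 : (3 : ℝ) ≤ ((R + 1 : ℕ) : ℝ) := by exact_mod_cast (by omega : 3 ≤ R + 1)
        have h3 : (1 : ℝ) ≤ (M : ℝ) := by exact_mod_cast (by omega : 1 ≤ M)
        nlinarith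
      set ζ : ℂ := Complex.exp (2 * Real.pi * Complex.I * (1 / ((R + 1 : ℕ) * M))) with hζ
      have hζ1 : ‖ζ‖ = 1 := by
        have : 2 * Real.pi * Complex.I * (1 / ((R + 1 : ℕ) * M)) =
            ((2 * Real.pi * (1 / ((R + 1 : ℕ) * M)) : ℝ) : ℂ) * Complex.I := by
          push_cast; ring
        rw [hζ, this, Complex.norm_exp_ofReal_mul_I]
      set B : ℝ := (((R + 1 : ℕ) : ℝ) * (M : ℝ) / 2) * ((2 * (R : ℝ) ^ 2 / ε) ^ m *
        (5 * (R : ℝ) / ε ^ 2) ^ D.twists) with hB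
      have hpt : ∀ j : ℕ, j < s + 1 → ‖∑ k ∈ range (s + 1),
          (c k : ℂ) * (ζ * Complex.exp (2 * Real.pi * Complex.I * (j / (s + 1 : ℕ)))) ^ k‖ ≤ B := by
        intro j hj
        obtain ⟨A, b, hA4, hA, hA4', hb, hup, hlow⟩ := hTrigGen R M m j (by omega) (by omega)
          (by omega) hj
        have h2 := hc2 A hA
        have h3 := hGen hFin hFull hTw hAround hU2 hE A b R m ε hA hA4' hb hε0 hε1
          (fun n h4 h5 => hlow n h4 h5) hup D
        rw [← h2, hA4] at h3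
        have hd2 : b 2 = -A ^ 2 - (A ^ 2)⁻¹ := by
          have := hb.rc 0
          rw [hb.b1, hb.b0] at this
          simpa using this
        have hd : ε ≤ ‖-A ^ 2 - (A ^ 2)⁻¹‖ := by
          rw [← hd2]; exact hlow 2 (by norm_num) hb.two
        have h4 := norm_nonneg (∑ k ∈ range (s + 1), (c k : ℂ) *
          (Complex.exp (2 * Real.pi * Complex.I * (1 / ((R + 1 : ℕ) * M))) *
            Complex.exp (2 * Real.pi * Complex.I * (j / M))) ^ k)
        have h5 : ε * ‖∑ k ∈ range (s + 1), (c k : ℂ) *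
          (Complex.exp (2 * Real.pi * Complex.I * (1 / ((R + 1 : ℕ) * M))) *
            Complex.exp (2 * Real.pi * Complex.I * (j / M))) ^ k‖ ≤
            (2 * (R : ℝ) ^ 2 / ε) ^ m * (5 * (R : ℝ) / ε ^ 2) ^ D.twists :=
          (mul_le_mul_of_nonneg_right hd h4).trans h3
        have hM0 : (M : ℝ) ≠ 0 := by exact_mod_cast (by omega : M ≠ 0)
        have h6 : (((R + 1 : ℕ) : ℝ) * (M : ℝ) / 2) * ε = 1 := by
          rw [hε]; field_simp
        calc ‖∑ k ∈ range (s + 1),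
            (c k : ℂ) * (ζ * Complex.exp (2 * Real.pi * Complex.I * (j / (s + 1 : ℕ)))) ^ k‖
            = (((R + 1 : ℕ) : ℝ) * (M : ℝ) / 2) * (ε * ‖∑ k ∈ range (s + 1), (c k : ℂ) *
              (Complex.exp (2 * Real.pi * Complex.I * (1 / ((R + 1 : ℕ) * M))) *
              Complex.exp (2 * Real.pi * Complex.I * (j / M))) ^ k‖) := by
              rw [← mul_assoc, h6, one_mul]
          _ ≤ B := by
              rw [hB]
              exact mul_le_mul_of_nonneg_left h5 (by positivity)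
      have h7 := hInterp s (fun k => (c k : ℂ)) ζ B hζ1 hpt
      calc ‖∑ k ∈ range (s + 1), (c k : ℂ) * (-1) ^ k‖
          ≤ ∑ k ∈ range (s + 1), ‖(c k : ℂ)‖ := by
            refine norm_sum_le_of_le _ fun k _ => ?_
            rw [norm_mul, norm_pow, norm_neg, norm_one, one_pow, mul_one]
        _ ≤ (s + 1) * B := h7
        _ ≤ (s : ℝ) ^ (13 * (D.twists + m)) := by
            rw [hB, hε]
            exact asm_num hs hm hge
  -- the quotient
  unfold quotient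
  have hlog : 0 < Real.log s := Real.log_pos (by exact_mod_cast (by omega : 1 < s))
  rw [div_le_iff₀ hlog]
  by_cases h0 : atNegOne V = 0
  · rw [h0]
    simp only [Int.cast_zero, abs_zero, Real.log_zero]
    positivity
  · have h4 : 0 < |(atNegOne V : ℝ)| := abs_pos.mpr (by exact_mod_cast h0)
    calc Real.log |(atNegOne V : ℝ)| ≤ Real.log ((s : ℝ) ^ (13 * (D.twists + m))) :=
          Real.log_le_log h4 key
      _ = 13 * (D.twists + m) * Real.log s := by
        rw [Real.log_pow]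
        push_cast
        ring

end MP_fc1011_gt.MT
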