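import Pool.Agent.Lib.MP_fc1011_gt.MT.Spec

/-!
# MP_fc1011_gt, MT/BStd: the standard matching
-/

set_option autoImplicit false

namespace MP_fc1011_gt.MT

open Finset

/-- the path of the standard matching -/
private def bstd_a (m : ℕ) (j : ℕ) : ℕ := if j < m ∧ j % 2 = 1 then 2 else 1

private theorem bstd_cyc (k : ℕ) (μ : Matching (2 * k)) (hμ : IsStd μ) : cyc μ μ = k := by
  have e : Quot (Joined ([] : List (ℕ × Bool)) μ μ (fun j => j.elim0)) ≃ Fin k :=
    { toFun := Quot.lift (fun p => ⟨(p.2 : ℕ) / 2, by have := p.2.isLt; omega⟩) (by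
        have key : ∀ z : Fin (2 * k), (z : ℕ) / 2 = (μ.f z : ℕ) / 2 := by
          intro z
          have h := hμ z
          rcases Nat.mod_two_eq_zero_or_one (z : ℕ) with h0 | h0
          · have := h.1 h0
            omega
          · have := h.2 h0
            omega
        intro p q h
        cases h with
        | top z => exact Fin.ext (key z)
        | bottom z => exact Fin.ext (key z)
        | through j z h => exact j.elim0
        | above j z w h h' h'' => exact j.elim0
        | below j z w h h' h'' => exact j.elim0)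
      invFun := fun j => Quot.mk _ (0, ⟨2 * (j : ℕ), by have := j.isLt; omega⟩)
      left_inv := fun q => by
        induction q using Quot.ind with
        | mk p =>
          obtain ⟨j, z⟩ := p
          have hj : j = 0 := Subsingleton.elim (α := Fin 1) j 0
          subst hj
          have hz := z.isLt
          rcases Nat.mod_two_eq_zero_or_one (z : ℕ) with h0 | h0
          · have h1 : (⟨2 * ((z : ℕ) / 2), by omega⟩ : Fin (2 * k)) = z := Fin.ext (by
              change 2 * ((z : ℕ) / 2) = z
              omega)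
            change Quot.mk _ ((0 : Fin 1), (⟨2 * ((z : ℕ) / 2), by omega⟩ : Fin (2 * k))) = _
            rw [h1]
          · have h1 : (⟨2 * ((z : ℕ) / 2), by omega⟩ : Fin (2 * k)) = μ.f z := Fin.ext (by
              change 2 * ((z : ℕ) / 2) = μ.f z
              have := (hμ z).2 h0
              omega)
            change Quot.mk _ ((0 : Fin 1), (⟨2 * ((z : ℕ) / 2), by omega⟩ : Fin (2 * k))) = _
            rw [h1]
            exact (Quot.sound (Joined.top z)).symm
      right_inv := fun j => by
        apply Fin.ext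
        change 2 * (j : ℕ) / 2 = j
        omega }
  unfold cyc loops
  rw [Nat.card_congr e, Nat.card_eq_fintype_card, Fintype.card_fin]

private theorem bstd_path {d : ℂ} {b : ℕ → ℂ} {R k : ℕ} (hH : Hts d b R (2 * k)) :
    Pth R (2 * k) (bstd_a (2 * k)) := by
  have h2 := hH.two
  refine ⟨?_, ?_, ?_, ?_⟩
  · unfold bstd_a
    rw [if_neg (by omega)]
  · intro i hi
    unfold bstd_a
    rw [if_neg (by omega)]
  · intro i hi
    unfold bstd_a
    split_ifs <;> omega
  · intro i
    unfold bstd_a
    split_ifs <;> omega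

private theorem bstd_compat {k : ℕ} (μ : Matching (2 * k)) (hμ : IsStd μ) :
    Compat μ (bstd_a (2 * k)) := by
  intro x
  have hx := x.isLt
  have h := hμ x
  have hy := (μ.f x).isLt
  unfold bstd_a
  rcases Nat.mod_two_eq_zero_or_one (x : ℕ) with h0 | h0
  · have h1 := h.1 h0
    constructor <;> split_ifs <;> omega
  · have h1 := h.2 h0
    constructor <;> split_ifs <;> omega

private theorem bstd_uniq {R k : ℕ} (μ : Matching (2 * k)) (hμ : IsStd μ) (a : ℕ → ℕ)
    (ha : Pth R (2 * k) a) (hc : Compat μ a) : a = bstd_a (2 * k) := by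
  obtain ⟨h0, h1, h2, h3⟩ := ha
  have hev : ∀ j, j ≤ k → a (2 * j) = 1 := by
    intro j
    induction j with
    | zero => intro _; exact h0
    | succ j ih =>
      intro hj
      have h4 := (hc ⟨2 * j, by omega⟩).1
      have h5 := (hμ ⟨2 * j, by omega⟩).1 (by change 2 * j % 2 = 0; omega)
      rw [h5] at h4
      change a (2 * j) = a (2 * j + 1 + 1) at h4
      rw [show 2 * (j + 1) = 2 * j + 1 + 1 by ring, ← h4]
      exact ih (by omega)
  funext i
  unfold bstd_a
  by_cases hi : i < 2 * k ∧ i % 2 = 1
  · rw [if_pos hi]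
    obtain ⟨j, rfl⟩ : ∃ j, i = 2 * j + 1 := ⟨i / 2, by omega⟩
    have h4 := hev j (by omega)
    have h5 := h2 (2 * j) (by omega)
    have h6 := (h3 (2 * j + 1)).1
    omega
  · rw [if_neg hi]
    by_cases hi' : i < 2 * k
    · obtain ⟨j, rfl⟩ : ∃ j, i = 2 * j := ⟨i / 2, by omega⟩
      exact hev j (by omega)
    · exact h1 i (by omega)

private theorem bstd_prod (d : ℂ) (k : ℕ) :
    ∏ j ∈ range (2 * k), (if j % 2 = 0 then d else 1) = d ^ k := by
  induction k with
  | zero => simp
  | succ k ih =>
    rw [show 2 * (k + 1) = 2 * k + 1 + 1 by ring, Finset.prod_range_succ, Finset.prod_range_succ,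
      ih, if_pos (by omega), if_neg (by omega), mul_one, pow_succ]

/-- **The standard matching.** -/
theorem sBStd : S_BStd := by
  intro hF d b R m hH μ hμ
  have hev : m % 2 = 0 := by
    by_contra h
    have h1 := (hμ ⟨m - 1, by omega⟩).1 (by change (m - 1) % 2 = 0; omega)
    have h2 := (μ.f ⟨m - 1, by omega⟩).isLt
    rw [h1] at h2
    change m - 1 + 1 < m at h2
    omega
  obtain ⟨k, rfl⟩ : ∃ k, m = 2 * k := ⟨m / 2, by omega⟩
  have hb2 : b 2 = d := by
    have := hH.rc 0
    rw [hH.b0] at this
    change b 2 = d * b 1 - 0 at this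
    rw [this, hH.b1]
    ring
  have hd : d ≠ 0 := by
    rw [← hb2]
    exact hH.ne 2 (by omega) hH.two
  have hO : bstd_a (2 * k) ∈ Om R (2 * k) := by
    have h := (hF R (2 * k)).1
    unfold Om
    rw [dif_pos h, Set.Finite.mem_toFinset]
    exact bstd_path hH
  have hket : ket b R μ (bstd_a (2 * k)) = d ^ k := by
    unfold ket
    rw [if_pos ⟨bstd_path hH, bstd_compat μ hμ⟩, ← bstd_prod d k, Finset.prod_range]
    refine Finset.prod_congr rfl fun x _ => ?_
    have hx := x.isLt
    rcases Nat.mod_two_eq_zero_or_one (x : ℕ) with h0 | h0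
    · have h1 := (hμ x).1 h0
      rw [if_pos (Fin.lt_def.2 (by omega)), if_pos h0]
      unfold bstd_a
      rw [if_pos (by omega), hb2]
    · have h1 := (hμ x).2 h0
      rw [if_neg (fun h => by have := Fin.lt_def.1 h; omega), if_neg (by omega)]
  have hden : ∏ j ∈ range (2 * k), b (bstd_a (2 * k) (j + 1)) = d ^ k := by
    rw [← bstd_prod d k]
    refine Finset.prod_congr rfl fun j hj => ?_
    have hj' := Finset.mem_range.1 hj
    unfold bstd_a
    rcases Nat.mod_two_eq_zero_or_one j with h0 | h0
    · rw [if_pos (by omega), if_pos h0, hb2]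
    · rw [if_neg (by omega), if_neg (by omega), hH.b1]
  unfold BB
  rw [Finset.sum_eq_single (bstd_a (2 * k)), hket, hden, bstd_cyc k μ hμ]
  · field_simp
  · intro a _ hne
    have h0 : ket b R μ a = 0 := by
      unfold ket
      rw [if_neg]
      rintro ⟨h1, h2⟩
      exact hne (bstd_uniq μ hμ a h1 h2)
    rw [h0]
    simp
  · intro h
    exact absurd hO h

end MP_fc1011_gt.MT
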