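import Pool.Agent.Lib.MP_fc1011_gt.MT.Spec

/-!
# MP_fc1011_gt, multi-strand twisting: from the Laurent polynomial to complex numbers
-/

set_option autoImplicit false

namespace MP_fc1011_gt.MT

open LaurentPolynomial Finset

/-- coefficients in a window -/
private theorem bridge_window (V : ℤ[T;T⁻¹]) : ∃ a : ℤ,
    V = ∑ k ∈ range (span V + 1), AddMonoidAlgebra.single (a + (k : ℤ)) (V.coeff (a + (k : ℤ))) := by
  obtain ⟨a, ha, hb⟩ := exists_window V
  refine ⟨a, ?_⟩
  have hinj : Function.Injective fun i : ℕ => a + (i : ℤ) := fun x y h => by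
    simp only at h; omega
  set s : Finset ℤ := (Finset.range (span V + 1)).map ⟨fun i : ℕ => a + (i : ℤ), hinj⟩ with hs
  have hsub : V.coeff.support ⊆ s := by
    intro i hi
    rw [Finsupp.mem_support_iff] at hi
    have h1 : a ≤ i := by
      by_contra h
      exact hi (ha i (by omega))
    have h2 : i ≤ a + span V := by
      by_contra h
      exact hi (hb i (by omega))
    rw [hs, Finset.mem_map]
    refine ⟨(i - a).toNat, ?_, ?_⟩
    · rw [Finset.mem_range]; omega
    · simp only [Function.Embedding.coeFn_mk]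
      omega
  have h3 : V = ∑ i ∈ s, AddMonoidAlgebra.single i (V.coeff i) := by
    apply AddMonoidAlgebra.ext
    rw [AddMonoidAlgebra.coeff_sum]
    simp only [AddMonoidAlgebra.coeff_single]
    conv_lhs => rw [← Finsupp.sum_single V.coeff]
    rw [Finsupp.sum_of_support_subset _ hsub]
    intro i _
    exact Finsupp.single_zero _
  conv_lhs => rw [h3]
  rw [hs, Finset.sum_map]
  rfl

private theorem bridge_atNegOne_single (n c : ℤ) :
    atNegOne (AddMonoidAlgebra.single n c : ℤ[T;T⁻¹]) = c * (Int.negOnePow n : ℤ) := by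
  unfold atNegOne
  rw [AddMonoidAlgebra.coeff_single, Finsupp.sum_single_index]
  simp

private theorem bridge_atNegOne_add (f g : ℤ[T;T⁻¹]) :
    atNegOne (f + g) = atNegOne f + atNegOne g := by
  unfold atNegOne
  rw [AddMonoidAlgebra.coeff_add, Finsupp.sum_add_index']
  · intro i; simp
  · intro i a b; ring

private theorem bridge_atNegOne_sum {ι : Type*} (s : Finset ι) (f : ι → ℤ[T;T⁻¹]) :
    atNegOne (∑ i ∈ s, f i) = ∑ i ∈ s, atNegOne (f i) := by
  classical
  induction s using Finset.induction_on with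
  | empty => simp [atNegOne]
  | insert a s ha ih =>
    rw [Finset.sum_insert ha, Finset.sum_insert ha, bridge_atNegOne_add, ih]

private theorem bridge_toA_single (n c : ℤ) :
    TwistDiagram.toA (AddMonoidAlgebra.single n c : ℤ[T;T⁻¹]) =
      AddMonoidAlgebra.single (-4 * n) c := by
  unfold TwistDiagram.toA
  rw [AddMonoidAlgebra.mapDomainRingHom_apply, AddMonoidAlgebra.mapDomain_single]
  rfl

private theorem bridge_e_single (x : ℂˣ) (n c : ℤ) :
    LaurentPolynomial.eval₂ (Int.castRingHom ℂ) x (AddMonoidAlgebra.single n c : ℤ[T;T⁻¹]) =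
      (c : ℂ) * (x : ℂ) ^ n := by
  rw [single_eq_C_mul_T, eval₂_C_mul_T]
  simp

private theorem bridge_e_T (x : ℂˣ) (n : ℤ) :
    LaurentPolynomial.eval₂ (Int.castRingHom ℂ) x (T n : ℤ[T;T⁻¹]) = (x : ℂ) ^ n := by
  have := bridge_e_single x n 1
  rw [Int.cast_one, one_mul] at this
  exact this

private theorem bridge_EE {S S' : Type} [CommRing S] [CommRing S'] (φ : S →+* S') (A A' d : S)
    {m : ℕ} (ν : Matching m) : ∀ (cs : List (ℕ × Bool)) (μ : Matching m),
    φ (EE A A' d cs μ ν) = EE (φ A) (φ A') (φ d) cs μ ν := by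
  intro cs
  induction cs with
  | nil => intro μ; simp [EE]
  | cons c cs ih =>
    intro μ
    simp only [EE]
    rw [map_add, map_mul, map_mul, map_mul, map_pow, ih, ih]
    split <;> rfl

private theorem bridge_places {m : ℕ} (D : Diagram m) : ∀ c ∈ D.crossings, c.1 + 1 < m := by
  intro c hc
  unfold Diagram.crossings at hc
  rw [List.mem_flatMap] at hc
  obtain ⟨l, hl, hc⟩ := hc
  have hv := D.valid l hl
  cases l with
  | twist i n =>
    simp only [Letter.crossings] at hc
    have h1 := List.eq_of_mem_replicate hc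
    rw [h1]
    exact hv
  | full k n =>
    simp only [Letter.crossings, List.mem_map, List.mem_flatten] at hc
    obtain ⟨i, ⟨L, hL, hi⟩, hc⟩ := hc
    have h1 := List.eq_of_mem_replicate hL
    rw [h1] at hi
    unfold fullTwist at hi
    rw [List.mem_flatMap] at hi
    obtain ⟨j, hj, hi⟩ := hi
    unfold around at hi
    rw [List.mem_range] at hj
    rw [List.mem_append, List.mem_reverse, List.mem_range, or_self] at hi
    have h2 : k ≤ m := hv
    rw [← hc]
    simp only
    omega

/-- **From the Laurent polynomial to the complex numbers.** -/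
theorem sBridge : S_Bridge := by
  intro hState m hm D V hV
  obtain ⟨a, hw⟩ := bridge_window V
  refine ⟨fun k => V.coeff (a + (k : ℤ)), ?_, ?_⟩
  · have h1 : atNegOne V = (Int.negOnePow a : ℤ) *
        ∑ k ∈ range (span V + 1), V.coeff (a + (k : ℤ)) * (-1) ^ k := by
      conv_lhs => rw [hw]
      rw [bridge_atNegOne_sum, Finset.mul_sum]
      refine Finset.sum_congr rfl fun k _ => ?_
      rw [bridge_atNegOne_single, Int.negOnePow_add]
      have h2 : ((Int.negOnePow (k : ℤ) : ℤˣ) : ℤ) = (-1) ^ k := by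
        rw [Int.negOnePow_def]
        simp
      rw [Units.val_mul, h2]
      ring
    rw [h1, Int.natAbs_mul, Int.units_natAbs, one_mul]
  · intro A hA
    have hA0 : A ≠ 0 := by
      intro h
      rw [h, norm_zero] at hA
      exact zero_ne_one hA
    set x : ℂˣ := Units.mk0 A hA0 with hx
    set e := LaurentPolynomial.eval₂ (Int.castRingHom ℂ) x with he
    have hxv : (x : ℂ) = A := rfl
    -- the value of `toA V`
    have hV1 : e (TwistDiagram.toA V) =
        A ^ (-4 * a) * ∑ k ∈ range (span V + 1), (V.coeff (a + (k : ℤ)) : ℂ) * ((A ^ 4)⁻¹) ^ k := by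
      conv_lhs => rw [hw]
      rw [map_sum, map_sum, Finset.mul_sum]
      refine Finset.sum_congr rfl fun k _ => ?_
      rw [bridge_toA_single, he, bridge_e_single, hxv]
      have h3 : A ^ (-4 * (a + (k : ℤ))) = A ^ (-4 * a) * ((A ^ 4)⁻¹) ^ k := by
        rw [mul_add, zpow_add₀ hA0]
        congr 1
        rw [← zpow_natCast ((A ^ 4)⁻¹) k, ← zpow_natCast A 4, ← zpow_neg, ← zpow_mul]
        rfl
      rw [h3]
      ring
    obtain ⟨w, hw2⟩ := hV
    have hn : ∀ n : ℤ, ‖A ^ n‖ = 1 := by
      intro n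
      rw [norm_zpow, hA, one_zpow]
    have hV2 : ‖e (TwistDiagram.toA V)‖ = ‖e (bracket D.crossings D.top D.bot)‖ := by
      rw [hw2, map_mul, ← single_eq_C_mul_T, he, bridge_e_single, norm_mul, norm_mul, hxv, hn,
        mul_one]
      have h4 : ‖(((Int.negOnePow w : ℤˣ) : ℤ) : ℂ)‖ = 1 := by
        rcases Int.units_eq_one_or (Int.negOnePow w) with h | h <;> rw [h] <;> simp
      rw [h4, one_mul]
    have hV3 : ‖∑ k ∈ range (span V + 1), (V.coeff (a + (k : ℤ)) : ℂ) * ((A ^ 4)⁻¹) ^ k‖ =
        ‖e (bracket D.crossings D.top D.bot)‖ := by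
      rw [← hV2, hV1, norm_mul, hn, one_mul]
    rw [hV3, ← norm_mul]
    have hd : e delta = -A ^ 2 - (A ^ 2)⁻¹ := by
      unfold delta
      rw [map_sub, map_neg, he, bridge_e_T, bridge_e_T, hxv]
      rw [zpow_neg]
      norm_cast
    have h5 := hState m hm D.crossings D.top D.bot (bridge_places D)
    have h6 := congrArg e h5
    rw [map_mul, bridge_EE, hd] at h6
    rw [h6]
    have h7 : e (T 1) = A := by rw [he, bridge_e_T, hxv, zpow_one]
    have h8 : e (T (-1)) = A⁻¹ := by rw [he, bridge_e_T, hxv, zpow_neg_one]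
    rw [h7, h8]

end MP_fc1011_gt.MT
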