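import Pool.Agent.Lib.MP_fc1011_gt.MT.Spec

/-!
# MT: cap-cup preserves crossingless matchings (`S_Cap`)
-/

set_option autoImplicit false

namespace MP_fc1011_gt.MT

/-- four different numbers, the arcs `p p'` and `q q'` do not cross -/
private theorem cap_num {p p' q q' : ℕ} (h : p < p') (n1 : ¬ (p < q ∧ q < p' ∧ p' < q'))
    (n2 : ¬ (p < q' ∧ q' < p' ∧ p' < q)) (n3 : ¬ (q < p ∧ p < q' ∧ q' < p'))
    (n4 : ¬ (q' < p ∧ p < q ∧ q < p')) (d1 : q ≠ p) (d2 : q ≠ p') (d3 : q' ≠ p) (d4 : q' ≠ p') :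
    ((q < p ↔ q < p') ↔ (q' < p ↔ q' < p')) := by
  by_cases c1 : q < p
  · by_cases c2 : q' < p
    · exact iff_of_true (iff_of_true c1 (lt_trans c1 h)) (iff_of_true c2 (lt_trans c2 h))
    · have c2' : p < q' := lt_of_le_of_ne (not_lt.mp c2) (Ne.symm d3)
      have c3 : ¬ q' < p' := fun c3 => n3 ⟨c1, c2', c3⟩
      exact iff_of_true (iff_of_true c1 (lt_trans c1 h)) (iff_of_false c2 c3)
  · have c1' : p < q := lt_of_le_of_ne (not_lt.mp c1) (Ne.symm d1)
    by_cases c2 : q < p'
    · have c3 : ¬ q' < p := fun c3 => n4 ⟨c3, c1', c2⟩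
      have c4 : ¬ p' < q' := fun c4 => n1 ⟨c1', c2, c4⟩
      have c5 : q' < p' := lt_of_le_of_ne (not_lt.mp c4) d4
      exact iff_of_false (fun h => c1 (h.2 c2)) (fun h => c3 (h.2 c5))
    · have c2' : p' < q := lt_of_le_of_ne (not_lt.mp c2) (Ne.symm d2)
      by_cases c3 : q' < p
      · exact iff_of_true (iff_of_false c1 c2) (iff_of_true c3 (lt_trans c3 h))
      · have c3' : p < q' := lt_of_le_of_ne (not_lt.mp c3) (Ne.symm d3)
        exact iff_of_true (iff_of_false c1 c2) (iff_of_false c3 (fun c => n2 ⟨c3', c, c2'⟩))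

/-- propositional logic -/
private theorem cap_prop {A B C A' B' C' : Prop} (s1 : (A ↔ B) ↔ (A' ↔ B'))
    (s2 : (A ↔ C) ↔ (A' ↔ C')) : (B ↔ C) ↔ (B' ↔ C') := by
  by_cases hA : A <;> by_cases hA' : A' <;> by_cases hB : B <;> by_cases hC : C <;>
    simp_all

/-- the ends of an arc are on the same side of every other arc -/
private theorem cap_side {m : ℕ} (μ : Matching m) (p q : Fin m) (h1 : q ≠ p) (h2 : q ≠ μ.f p) :
    ((q.val < p.val ↔ q.val < (μ.f p).val) ↔ ((μ.f q).val < p.val ↔ (μ.f q).val < (μ.f p).val)) := by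
  have h3 : μ.f q ≠ p := fun h => h2 (by rw [← h, μ.invol])
  have h4 : μ.f q ≠ μ.f p := fun h => h1 (by rw [← μ.invol q, h, μ.invol])
  have d1 : q.val ≠ p.val := fun h => h1 (Fin.ext h)
  have d2 : q.val ≠ (μ.f p).val := fun h => h2 (Fin.ext h)
  have d3 : (μ.f q).val ≠ p.val := fun h => h3 (Fin.ext h)
  have d4 : (μ.f q).val ≠ (μ.f p).val := fun h => h4 (Fin.ext h)
  have d6 : p.val ≠ (μ.f p).val := fun h => μ.ne p (Fin.ext h.symm)
  have n1 := μ.noncrossing p q
  have n2 := μ.noncrossing q p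
  have n3 := μ.noncrossing (μ.f p) q
  have n4 := μ.noncrossing q (μ.f p)
  have n5 := μ.noncrossing p (μ.f q)
  have n6 := μ.noncrossing (μ.f q) p
  have n7 := μ.noncrossing (μ.f p) (μ.f q)
  have n8 := μ.noncrossing (μ.f q) (μ.f p)
  rw [μ.invol] at n3 n5
  rw [μ.invol] at n6 n4
  rw [μ.invol, μ.invol] at n7
  rw [μ.invol, μ.invol] at n8
  rcases lt_or_gt_of_ne d6 with h | h
  · exact cap_num h n1 n5 n2 n6 d1 d2 d3 d4
  · have key := cap_num h n3 n7 n4 n8 d2 d1 d4 d3
    exact ⟨fun h' => (key.1 h'.symm).symm, fun h' => (key.2 h'.symm).symm⟩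

private theorem cap_exists {m : ℕ} (μ : Matching m) (i j : Fin m) (hij : (j : ℕ) = i + 1) :
    ∃ ν : Matching m, ν.f = capF μ.f i j := by
  have hne : i ≠ j := by
    intro h
    rw [← h] at hij
    omega
  by_cases hB : μ.f i = j
  · refine ⟨μ, ?_⟩
    have hB' : μ.f j = i := by rw [← hB, μ.invol]
    funext x
    unfold capF
    split_ifs with c1 c2 c3 c4
    · rw [c1, hB]
    · rw [c2, hB']
    · exact absurd (by rw [← μ.invol x, c3, hB]) c2
    · exact absurd (by rw [← μ.invol x, c4, hB']) c1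
    · rfl
  · have hai : μ.f i ≠ i := μ.ne i
    have hbj : μ.f j ≠ j := μ.ne j
    have hbi : μ.f j ≠ i := fun h => hB (by rw [← h, μ.invol])
    have hab : μ.f i ≠ μ.f j := fun h => hne (by rw [← μ.invol i, h, μ.invol])
    have hFi : capF μ.f i j i = j := by simp [capF]
    have hFj : capF μ.f i j j = i := by simp [capF, hne.symm]
    have hFa : capF μ.f i j (μ.f i) = μ.f j := by simp [capF, hai, hB, μ.invol]
    have hFb : capF μ.f i j (μ.f j) = μ.f i := by simp [capF, hbi, hbj, μ.invol, hne.symm]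
    have hFo : ∀ x, x ≠ i → x ≠ j → x ≠ μ.f i → x ≠ μ.f j → capF μ.f i j x = μ.f x := by
      intro x c1 c2 c3 c4
      have c5 : μ.f x ≠ i := fun h => c3 (by rw [← h, μ.invol])
      have c6 : μ.f x ≠ j := fun h => c4 (by rw [← h, μ.invol])
      simp [capF, c1, c2, c5, c6]
    have ho : ∀ x, x ≠ i → x ≠ j → x ≠ μ.f i → x ≠ μ.f j →
        μ.f x ≠ i ∧ μ.f x ≠ j ∧ μ.f x ≠ μ.f i ∧ μ.f x ≠ μ.f j := by
      intro x c1 c2 c3 c4
      exact ⟨fun h => c3 (by rw [← h, μ.invol]), fun h => c4 (by rw [← h, μ.invol]),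
        fun h => c1 (by rw [← μ.invol x, h, μ.invol]), fun h => c2 (by rw [← μ.invol x, h, μ.invol])⟩
    have hadj : ∀ x, x ≠ i → x ≠ j → (x.val < i.val ↔ x.val < j.val) := by
      intro x c1 c2
      have e1 : x.val ≠ i.val := fun h => c1 (Fin.ext h)
      have e2 : x.val ≠ j.val := fun h => c2 (Fin.ext h)
      constructor
      · intro h
        omega
      · intro h
        omega
    have hside : ∀ x, x ≠ i → x ≠ j → x ≠ μ.f i → x ≠ μ.f j →
        ((x.val < (μ.f i).val ↔ x.val < (μ.f j).val) ↔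
          ((μ.f x).val < (μ.f i).val ↔ (μ.f x).val < (μ.f j).val)) := by
      intro x c1 c2 c3 c4
      obtain ⟨d1, d2, d3, d4⟩ := ho x c1 c2 c3 c4
      have s1 := cap_side μ i x c1 c3
      have s2 := cap_side μ j x c2 c4
      have s3 := hadj x c1 c2
      have s4 := hadj (μ.f x) d1 d2
      rw [← s3, ← s4] at s2
      exact cap_prop s1 s2
    refine ⟨⟨capF μ.f i j, fun x => ?_, fun x => ?_, fun x y => ?_⟩, rfl⟩
    · by_cases c1 : x = i
      · rw [c1, hFi, hFj]
      by_cases c2 : x = j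
      · rw [c2, hFj, hFi]
      by_cases c3 : x = μ.f i
      · rw [c3, hFa, hFb]
      by_cases c4 : x = μ.f j
      · rw [c4, hFb, hFa]
      obtain ⟨d1, d2, d3, d4⟩ := ho x c1 c2 c3 c4
      rw [hFo x c1 c2 c3 c4, hFo _ d1 d2 d3 d4, μ.invol]
    · by_cases c1 : x = i
      · rw [c1, hFi]
        exact hne.symm
      by_cases c2 : x = j
      · rw [c2, hFj]
        exact hne
      by_cases c3 : x = μ.f i
      · rw [c3, hFa]
        exact hab.symm
      by_cases c4 : x = μ.f j
      · rw [c4, hFb]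
        exact hab
      rw [hFo x c1 c2 c3 c4]
      exact μ.ne x
    · rintro ⟨h1, h2, h3⟩
      by_cases c1 : x = i
      · rw [c1] at h1
        rw [c1, hFi] at h2
        rw [Fin.lt_def] at h1 h2
        omega
      by_cases c2 : x = j
      · rw [c2] at h1
        rw [c2, hFj] at h2
        rw [Fin.lt_def] at h1 h2
        omega
      by_cases e1 : y = i
      · rw [e1] at h2
        rw [e1, hFi] at h3
        rw [Fin.lt_def] at h2 h3
        omega
      by_cases e2 : y = j
      · rw [e2] at h2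
        rw [e2, hFj] at h3
        rw [Fin.lt_def] at h2 h3
        omega
      by_cases c3 : x = μ.f i
      · rw [c3, hFa] at h2 h3
        rw [c3] at h1
        by_cases e3 : y = μ.f i
        · rw [e3] at h1
          exact absurd h1 (lt_irrefl _)
        by_cases e4 : y = μ.f j
        · rw [e4] at h2
          exact absurd h2 (lt_irrefl _)
        rw [hFo y e1 e2 e3 e4] at h3
        have s := hside y e1 e2 e3 e4
        rw [Fin.lt_def] at h1 h2 h3
        omega
      by_cases c4 : x = μ.f j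
      · rw [c4, hFb] at h2 h3
        rw [c4] at h1
        by_cases e3 : y = μ.f i
        · rw [e3] at h2
          exact absurd h2 (lt_irrefl _)
        by_cases e4 : y = μ.f j
        · rw [e4] at h1
          exact absurd h1 (lt_irrefl _)
        rw [hFo y e1 e2 e3 e4] at h3
        have s := hside y e1 e2 e3 e4
        rw [Fin.lt_def] at h1 h2 h3
        omega
      rw [hFo x c1 c2 c3 c4] at h2 h3
      by_cases e3 : y = μ.f i
      · rw [e3, hFa] at h3
        rw [e3] at h1 h2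
        have s := hside x c1 c2 c3 c4
        rw [Fin.lt_def] at h1 h2 h3
        omega
      by_cases e4 : y = μ.f j
      · rw [e4, hFb] at h3
        rw [e4] at h1 h2
        have s := hside x c1 c2 c3 c4
        rw [Fin.lt_def] at h1 h2 h3
        omega
      rw [hFo y e1 e2 e3 e4] at h3
      exact μ.noncrossing x y ⟨h1, h2, h3⟩

/-- **Cap.** -/
theorem sCap : S_Cap := by
  intro m μ i hi
  obtain ⟨ν, hν⟩ := cap_exists μ ⟨i, by omega⟩ ⟨i + 1, hi⟩ rfl
  have h : ∃ (hi : i + 1 < m) (ν : Matching m), ν.f = capF μ.f ⟨i, by omega⟩ ⟨i + 1, hi⟩ :=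
    ⟨hi, ν, hν⟩
  unfold Matching.cap
  rw [dif_pos h]
  exact h.choose_spec.choose_spec

end MP_fc1011_gt.MT
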