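import Pool.Agent.Lib.MP_fc1011_gt.MT.Spec

/-!
# MP_fc1011_gt, MT, Col: two-colourings and cap
-/

set_option autoImplicit false

namespace MP_fc1011_gt.MT

open Finset

/-- the colouring with value `c` on `I, J` and `y` elsewhere -/
private def col_F {m : ℕ} (I J : Fin m) (y : Fin m → Bool) (c : Bool) (z : Fin m) : Bool :=
  if z = I ∨ z = J then c else y z

private theorem col_F_I {m : ℕ} (I J : Fin m) (y : Fin m → Bool) (c : Bool) :
    col_F I J y c I = c := by simp [col_F]

private theorem col_F_J {m : ℕ} (I J : Fin m) (y : Fin m → Bool) (c : Bool) :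
    col_F I J y c J = c := by simp [col_F]

private theorem col_F_o {m : ℕ} {I J : Fin m} (y : Fin m → Bool) (c : Bool) {z : Fin m}
    (h1 : z ≠ I) (h2 : z ≠ J) : col_F I J y c z = y z := by simp [col_F, h1, h2]

private theorem col_case1 {m : ℕ} (f : Fin m → Fin m) (hf : ∀ x, f (f x) = x) (I J : Fin m)
    (y : Fin m → Bool) (hy : y I = y J) (hIJ : f I = J) (c : Bool) :
    (∀ z, col_F I J y c (f z) = col_F I J y c z) ↔ ∀ z, y (capF f I J z) = y z := by
  have hJI : f J = I := by rw [← hIJ, hf]
  have k1 : ∀ z, z ≠ J → f z ≠ I := by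
    intro z h1 h2
    exact h1 (by rw [← hf z, h2, hIJ])
  have k2 : ∀ z, z ≠ I → f z ≠ J := by
    intro z h1 h2
    exact h1 (by rw [← hf z, h2, hJI])
  constructor
  · intro h z
    unfold capF
    by_cases h1 : z = I
    · rw [if_pos h1, h1, hy]
    · by_cases h2 : z = J
      · rw [if_neg h1, if_pos h2, h2, hy]
      · rw [if_neg h1, if_neg h2, if_neg (k1 z h2), if_neg (k2 z h1)]
        have := h z
        rwa [col_F_o y c (k1 z h2) (k2 z h1), col_F_o y c h1 h2] at this
  · intro h z
    by_cases h1 : z = I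
    · rw [h1, hIJ, col_F_I, col_F_J]
    · by_cases h2 : z = J
      · rw [h2, hJI, col_F_I, col_F_J]
      · rw [col_F_o y c (k1 z h2) (k2 z h1), col_F_o y c h1 h2]
        have := h z
        unfold capF at this
        rwa [if_neg h1, if_neg h2, if_neg (k1 z h2), if_neg (k2 z h1)] at this

private theorem col_case2 {m : ℕ} (f : Fin m → Fin m) (hf : ∀ x, f (f x) = x)
    (hne : ∀ x, f x ≠ x) (I J : Fin m)
    (y : Fin m → Bool) (hy : y I = y J) (hIJ : f I ≠ J) (c : Bool) :
    (∀ z, col_F I J y c (f z) = col_F I J y c z) ↔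
      (∀ z, y (capF f I J z) = y z) ∧ c = y (f I) := by
  have hJI : f J ≠ I := fun h => hIJ (by rw [← h, hf])
  have e1 : ∀ z, f z = I → z = f I := fun z h => by rw [← h, hf]
  have e2 : ∀ z, f z = J → z = f J := fun z h => by rw [← h, hf]
  constructor
  · intro h
    have a1 : y (f I) = c := by
      have := h I
      rwa [col_F_o y c (hne I) hIJ, col_F_I] at this
    have a2 : y (f J) = c := by
      have := h J
      rwa [col_F_o y c hJI (hne J), col_F_J] at this
    refine ⟨fun z => ?_, a1.symm⟩
    unfold capF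
    by_cases h1 : z = I
    · rw [if_pos h1, h1, hy]
    · by_cases h2 : z = J
      · rw [if_neg h1, if_pos h2, h2, hy]
      · by_cases h3 : f z = I
        · rw [if_neg h1, if_neg h2, if_pos h3, a2, e1 z h3, a1]
        · by_cases h4 : f z = J
          · rw [if_neg h1, if_neg h2, if_neg h3, if_pos h4, a1, e2 z h4, a2]
          · rw [if_neg h1, if_neg h2, if_neg h3, if_neg h4]
            have := h z
            rwa [col_F_o y c h3 h4, col_F_o y c h1 h2] at this
  · rintro ⟨h, hc⟩ z
    have a1 : y (f J) = y (f I) := by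
      have := h (f I)
      unfold capF at this
      rwa [if_neg (hne I), if_neg hIJ, if_pos (hf I)] at this
    by_cases h1 : z = I
    · rw [h1, col_F_o y c (hne I) hIJ, col_F_I, hc]
    · by_cases h2 : z = J
      · rw [h2, col_F_o y c hJI (hne J), col_F_J, hc, a1]
      · rw [col_F_o y c h1 h2]
        by_cases h3 : f z = I
        · rw [h3, col_F_I, e1 z h3, hc]
        · by_cases h4 : f z = J
          · rw [h4, col_F_J, e2 z h4, hc, a1]
          · rw [col_F_o y c h3 h4]
            have := h z
            unfold capF at this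
            rwa [if_neg h1, if_neg h2, if_neg h3, if_neg h4] at this

theorem sCol : S_Col := by
  classical
  intro hCap m μ i hi y hy
  rw [hCap m μ i hi]
  set I : Fin m := ⟨i, by omega⟩ with hI
  set J : Fin m := ⟨i + 1, hi⟩ with hJ
  have hFinj : Function.Injective (col_F I J y) := by
    intro c c' h
    have := congrFun h I
    rwa [col_F_I, col_F_I] at this
  have hsum : (∑ x : Fin m → Bool, if ((∀ z : Fin m, (z : ℕ) ≠ i → (z : ℕ) ≠ i + 1 → x z = y z) ∧
      x I = x J ∧ ∀ z, x (μ.f z) = x z) then 1 else 0 : ℕ) =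
      (univ.filter (fun c : Bool => ∀ z, col_F I J y c (μ.f z) = col_F I J y c z)).card := by
    rw [← Finset.card_filter, ← Finset.card_image_of_injective _ hFinj]
    refine congrArg Finset.card ?_
    ext x
    rw [Finset.mem_filter, Finset.mem_image]
    constructor
    · rintro ⟨-, h1, h2, h3⟩
      have hx : col_F I J y (x I) = x := by
        funext z
        by_cases hz1 : z = I
        · rw [hz1, col_F_I]
        · by_cases hz2 : z = J
          · rw [hz2, col_F_J, h2]
          · rw [col_F_o y _ hz1 hz2]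
            exact (h1 z (fun h => hz1 (Fin.ext h)) fun h => hz2 (Fin.ext h)).symm
      refine ⟨x I, ?_, hx⟩
      rw [Finset.mem_filter]
      refine ⟨Finset.mem_univ _, fun z => ?_⟩
      rw [hx]
      exact h3 z
    · rintro ⟨c, hc, rfl⟩
      rw [Finset.mem_filter] at hc
      refine ⟨Finset.mem_univ _, fun z h1 h2 => ?_, ?_, hc.2⟩
      · refine col_F_o y c (fun h => h1 ?_) fun h => h2 ?_
        · rw [h]
        · rw [h]
      · rw [col_F_I, col_F_J]
  rw [hsum]
  by_cases hIJ : μ.f I = J
  · have hlp : lp μ i = 1 := by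
      unfold lp
      exact if_pos ⟨hi, hIJ⟩
    have hfil : (univ.filter (fun c : Bool => ∀ z, col_F I J y c (μ.f z) = col_F I J y c z)) =
        univ.filter (fun _ : Bool => ∀ z, y (capF μ.f I J z) = y z) :=
      Finset.filter_congr fun c _ => col_case1 μ.f μ.invol I J y hy hIJ c
    rw [hfil, hlp]
    by_cases hcap : ∀ z, y (capF μ.f I J z) = y z
    · rw [if_pos hcap]
      simp [hcap]
    · rw [if_neg hcap]
      simp [hcap]
  · have hlp : lp μ i = 0 := by
      unfold lp
      refine if_neg ?_
      rintro ⟨_, h⟩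
      exact hIJ h
    have hfil : (univ.filter (fun c : Bool => ∀ z, col_F I J y c (μ.f z) = col_F I J y c z)) =
        univ.filter (fun c : Bool => (∀ z, y (capF μ.f I J z) = y z) ∧ c = y (μ.f I)) :=
      Finset.filter_congr fun c _ => col_case2 μ.f μ.invol μ.ne I J y hy hIJ c
    rw [hfil, hlp]
    by_cases hcap : ∀ z, y (capF μ.f I J z) = y z
    · rw [if_pos hcap]
      have : univ.filter (fun c : Bool => (∀ z, y (capF μ.f I J z) = y z) ∧ c = y (μ.f I)) =
          {y (μ.f I)} := by
        ext c
        rw [Finset.mem_filter, Finset.mem_singleton]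
        exact ⟨fun h => h.2.2, fun h => ⟨Finset.mem_univ _, hcap, h⟩⟩
      rw [this, Finset.card_singleton, pow_zero]
    · rw [if_neg hcap, Finset.card_eq_zero, Finset.filter_eq_empty_iff]
      exact fun c _ h => hcap h.1

end MP_fc1011_gt.MT
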