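import Pool.Agent.Lib.MP_fc1011_gt.Basic

/-!
# Diagrams made of twist regions and of full twists on the first strands

`m` parallel strands, numbered `0, …, m - 1` from the left to the right, run from the top to the
bottom of the plane.  The upper ends are joined in pairs by arcs without crossings, and so are the
lower ends.
-/

namespace MP_fc1011_gt.MT

open LaurentPolynomial

/-- A crossingless matching of `m` points on a line. -/
structure Matching (m : ℕ) where
  /-- the partner of a point -/
  f : Fin m → Fin m
  invol : ∀ x, f (f x) = x
  ne : ∀ x, f x ≠ x
  noncrossing : ∀ x y, ¬ (x < y ∧ y < f x ∧ f x < f y)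

/-- A letter: `twist i n` is a twist region of `|n|` crossings of one sign between the strands
`i` and `i + 1`; `full k n` are `n` full twists (of either sign) of the first `k` strands. -/
inductive Letter
  | twist (i : ℕ) (n : ℤ)
  | full (k : ℕ) (n : ℤ)

/-- The strand `j + 1` goes once around the strands `0, …, j` (in terms of the generators of the
braid group, `σ_i` crosses the strands in the places `i` and `i + 1`:
`σ_j … σ_1 σ_0 σ_0 σ_1 … σ_j`). -/
def around (j : ℕ) : List ℕ := (List.range (j + 1)).reverse ++ List.range (j + 1)

/-- The full twist of the first `k` strands (the places of its `k (k - 1)` crossings). -/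
def fullTwist (k : ℕ) : List ℕ := (List.range (k - 1)).flatMap around

/-- The crossings `(i, ε)` of a letter: `i` means the places `i` and `i + 1`, `ε` is the sign. -/
def Letter.crossings : Letter → List (ℕ × Bool)
  | .twist i n => List.replicate n.natAbs (i, decide (0 < n))
  | .full k n => (List.replicate n.natAbs (fullTwist k)).flatten.map fun i => (i, decide (0 < n))

/-- The strands of a letter exist. -/
def Letter.Valid (m : ℕ) : Letter → Prop
  | .twist i _ => i + 1 < m
  | .full k _ => k ≤ m

/-- `1` for a twist region, `0` for a full twist. -/
def Letter.cost : Letter → ℕ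
  | .twist _ _ => 1
  | .full _ _ => 0

/-! ## The Kauffman bracket of a list of crossings -/

section

variable {m : ℕ}

/-- Pieces of strands which are joined in a state.  The piece `(j, x)` is the piece of the strand
in the place `x` above the `j`-th crossing and below the previous one.  A state `s` chooses for
every crossing the vertical smoothing (`true`) or the horizontal one (`false`).  `μ` joins the
upper ends, `ν` the lower ends. -/
inductive Joined (cs : List (ℕ × Bool)) (μ ν : Matching m) (s : Fin cs.length → Bool) :
    Fin (cs.length + 1) × Fin m → Fin (cs.length + 1) × Fin m → Prop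
  | top (x : Fin m) : Joined cs μ ν s (0, x) (0, μ.f x)
  | bottom (x : Fin m) : Joined cs μ ν s (Fin.last _, x) (Fin.last _, ν.f x)
  | through (j : Fin cs.length) (x : Fin m) :
      (s j = true ∨ ((x : ℕ) ≠ (cs.get j).1 ∧ (x : ℕ) ≠ (cs.get j).1 + 1)) →
      Joined cs μ ν s (j.castSucc, x) (j.succ, x)
  | above (j : Fin cs.length) (x y : Fin m) : s j = false → (x : ℕ) = (cs.get j).1 →
      (y : ℕ) = (cs.get j).1 + 1 → Joined cs μ ν s (j.castSucc, x) (j.castSucc, y)
  | below (j : Fin cs.length) (x y : Fin m) : s j = false → (x : ℕ) = (cs.get j).1 →
      (y : ℕ) = (cs.get j).1 + 1 → Joined cs μ ν s (j.succ, x) (j.succ, y)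

/-- The number of loops of a state. -/
noncomputable def loops (cs : List (ℕ × Bool)) (μ ν : Matching m) (s : Fin cs.length → Bool) : ℕ :=
  Nat.card (Quot (Joined cs μ ν s))

/-- The product of the factors `A` and `A⁻¹` of the smoothings of a state. -/
noncomputable def weight (cs : List (ℕ × Bool)) (s : Fin cs.length → Bool) : ℤ[T;T⁻¹] :=
  ∏ j, if s j = (cs.get j).2 then T 1 else T (-1)

/-- The Kauffman bracket, normalised by the value `1` of the diagram without crossings of the
unknot. -/
noncomputable def bracket (cs : List (ℕ × Bool)) (μ ν : Matching m) : ℤ[T;T⁻¹] :=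
  ∑ s : Fin cs.length → Bool, weight cs s * delta ^ (loops cs μ ν s - 1)

end

/-- A diagram with `m` strands. -/
structure Diagram (m : ℕ) where
  /-- how the upper ends are joined -/
  top : Matching m
  /-- how the lower ends are joined -/
  bot : Matching m
  /-- the twist regions and the full twists, from the top to the bottom -/
  word : List Letter
  valid : ∀ l ∈ word, l.Valid m

namespace Diagram

variable {m : ℕ} (D : Diagram m)

/-- All crossings of the diagram. -/
def crossings : List (ℕ × Bool) := D.word.flatMap Letter.crossings

/-- The number of twist regions; the full twists are not counted. -/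
def twists : ℕ := (D.word.map Letter.cost).sum

/-- `V` is the Jones polynomial of `D`: `V(A⁻⁴) = (-A³)^(-w) ⟨D⟩` where the integer `w` is the
writhe of the diagram. -/
def IsJones (V : ℤ[T;T⁻¹]) : Prop :=
  ∃ w : ℤ, TwistDiagram.toA V =
    (C (Int.negOnePow w : ℤ) * T (-3 * w)) * bracket D.crossings D.top D.bot

end Diagram

end MP_fc1011_gt.MT
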