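import Pool.Agent.Lib.MP_fc1011_gt.MT.Spec

/-!
# Evaluation of the state sum in the path model
-/

set_option autoImplicit false

namespace MP_fc1011_gt.MT

open Finset

theorem eval_cyc {m : ℕ} (μ ν : Matching m) : cyc μ ν = cyc ν μ := by
  have h : ∀ (μ ν : Matching m) (s s' : Fin ([] : List (ℕ × Bool)).length → Bool)
      (p q : Fin (([] : List (ℕ × Bool)).length + 1) × Fin m),
      Joined [] μ ν s p q → Joined [] ν μ s' p q := by
    intro μ ν s s' p q h
    cases h with
    | top x => exact Joined.bottom x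
    | bottom x => exact Joined.top x
    | through j x h => exact j.elim0
    | above j x y h1 h2 h3 => exact j.elim0
    | below j x y h1 h2 h3 => exact j.elim0
  unfold cyc loops
  exact Nat.card_congr (Quot.congrRight fun p q => ⟨h μ ν _ _ p q, h ν μ _ _ p q⟩)

theorem eval_UU_add (b : ℕ → ℂ) (R m i : ℕ) (ψ φ : (ℕ → ℕ) → ℂ) (x y : ℂ) :
    UU b R m i (fun c => x * ψ c + y * φ c) =
      fun a => x * UU b R m i ψ a + y * UU b R m i φ a := by
  funext a
  by_cases h : Pth R m a ∧ a i = a (i + 2)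
  · simp only [UU, if_pos h]; ring
  · simp only [UU, if_neg h]; ring

theorem eval_sg (A A' : ℂ) (b : ℕ → ℂ) (R m : ℕ) (c : ℕ × Bool) (ψ φ : (ℕ → ℕ) → ℂ) (x y : ℂ) :
    sg A A' b R m c (fun e => x * ψ e + y * φ e) =
      fun a => x * sg A A' b R m c ψ a + y * sg A A' b R m c φ a := by
  funext a
  unfold sg
  rw [eval_UU_add]
  ring

theorem eval_rho (A A' : ℂ) (b : ℕ → ℂ) (R m : ℕ) (cs : List (ℕ × Bool)) :
    ∀ (ψ φ : (ℕ → ℕ) → ℂ) (x y : ℂ), rho A A' b R m cs (fun e => x * ψ e + y * φ e) =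
      fun a => x * rho A A' b R m cs ψ a + y * rho A A' b R m cs φ a := by
  induction cs with
  | nil => intro ψ φ x y; rfl
  | cons c cs ih =>
    intro ψ φ x y
    change rho A A' b R m cs (sg A A' b R m c (fun e => x * ψ e + y * φ e)) = _
    rw [eval_sg, ih]
    rfl

theorem eval_BB (b : ℕ → ℂ) (R m : ℕ) (χ ψ φ : (ℕ → ℕ) → ℂ) (x y : ℂ) :
    BB b R m χ (fun e => x * ψ e + y * φ e) = x * BB b R m χ ψ + y * BB b R m χ φ := by
  unfold BB
  rw [mul_sum, mul_sum, ← sum_add_distrib]
  refine sum_congr rfl fun a _ => ?_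
  ring

theorem sEval : S_Eval := by
  intro hCap hKet hPair A A' d b R m hb cs
  induction cs with
  | nil =>
    intro _ μ ν
    rw [EE]
    change _ = BB b R m (ket b R ν) (ket b R μ)
    rw [hPair d b R m hb μ ν, eval_cyc]
  | cons c cs ih =>
    intro hv μ ν
    have hc := hv c List.mem_cons_self
    have ih' := fun μ => ih (fun c hc => hv c (List.mem_cons_of_mem _ hc)) μ ν
    rw [EE, ih', ih']
    have h1 : sg A A' b R m c (ket b R μ) = fun a => (if c.2 = true then A else A') * ket b R μ a +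
        ((if c.2 = true then A' else A) * d ^ lp μ c.1) * ket b R (μ.cap c.1) a := by
      funext a
      rw [sg, hKet hCap d b R m c.1 hb hc μ a]
      ring
    change _ = BB b R m (ket b R ν) (rho A A' b R m cs (sg A A' b R m c (ket b R μ)))
    rw [h1, eval_rho, eval_BB]
    ring

end MP_fc1011_gt.MT
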