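import Pool.Agent.Lib.MP_fc1011_gt.MT.Spec

/-!
# MP_fc1011_gt, MT/Exch: the exchange identity for numbers of loops
-/

set_option autoImplicit false

namespace MP_fc1011_gt.MT

open Finset

/-- the colourings of the loops of two matchings -/
private theorem exch_two_pow {m : ℕ} (μ ν : Matching m) :
    2 ^ cyc μ ν = ∑ x : Fin m → Bool,
      if ((∀ z, x (μ.f z) = x z) ∧ ∀ z, x (ν.f z) = x z) then 1 else 0 := by
  have e : (Quot (Joined ([] : List (ℕ × Bool)) μ ν (fun j => j.elim0)) → Bool) ≃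
      {x : Fin m → Bool // (∀ z, x (μ.f z) = x z) ∧ ∀ z, x (ν.f z) = x z} :=
    { toFun := fun g => ⟨fun z => g (Quot.mk _ (0, z)), fun z => by
          exact congrArg g (Quot.sound (Joined.top z)).symm, fun z => by
          exact congrArg g (Quot.sound (Joined.bottom z)).symm⟩
      invFun := fun x => Quot.lift (fun p => x.1 p.2) (by
        intro p q h
        cases h with
        | top z => exact (x.2.1 z).symm
        | bottom z => exact (x.2.2 z).symm
        | through j z h => exact j.elim0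
        | above j z w h h' h'' => exact j.elim0
        | below j z w h h' h'' => exact j.elim0)
      left_inv := fun g => by
        funext q
        induction q using Quot.ind with
        | mk p =>
          obtain ⟨j, z⟩ := p
          have hj : j = 0 := Subsingleton.elim (α := Fin 1) j 0
          subst hj
          rfl
      right_inv := fun x => by
        apply Subtype.ext
        rfl }
  have h1 : Nat.card (Quot (Joined ([] : List (ℕ × Bool)) μ ν (fun j => j.elim0)) → Bool) =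
      2 ^ cyc μ ν := by
    rw [Nat.card_fun]
    simp [cyc, loops]
  rw [← h1, Nat.card_congr e, Nat.card_eq_fintype_card, Fintype.card_subtype, Finset.card_filter]

private theorem exch_half (hcap : S_Cap) (hcol : S_Col) {m : ℕ} (μ ν : Matching m) (i : ℕ)
    (hi : i + 1 < m) :
    2 ^ (lp μ i + cyc (μ.cap i) ν) = ∑ y : Fin m → Bool, ∑ x : Fin m → Bool,
      if (((∀ z : Fin m, (z : ℕ) ≠ i → (z : ℕ) ≠ i + 1 → x z = y z) ∧
        x ⟨i, by omega⟩ = x ⟨i + 1, hi⟩ ∧ ∀ z, x (μ.f z) = x z) ∧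
        (y ⟨i, by omega⟩ = y ⟨i + 1, hi⟩ ∧ ∀ z, y (ν.f z) = y z)) then 1 else 0 := by
  rw [pow_add, exch_two_pow, Finset.mul_sum]
  refine Finset.sum_congr rfl fun y _ => ?_
  by_cases hy : y ⟨i, by omega⟩ = y ⟨i + 1, hi⟩ ∧ ∀ z, y (ν.f z) = y z
  · have h1 := hcol hcap m μ i hi y hy.1
    have h2 : (∑ x : Fin m → Bool,
        if (((∀ z : Fin m, (z : ℕ) ≠ i → (z : ℕ) ≠ i + 1 → x z = y z) ∧
          x ⟨i, by omega⟩ = x ⟨i + 1, hi⟩ ∧ ∀ z, x (μ.f z) = x z) ∧
          (y ⟨i, by omega⟩ = y ⟨i + 1, hi⟩ ∧ ∀ z, y (ν.f z) = y z)) then 1 else 0 : ℕ) =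
        ∑ x : Fin m → Bool, if ((∀ z : Fin m, (z : ℕ) ≠ i → (z : ℕ) ≠ i + 1 → x z = y z) ∧
          x ⟨i, by omega⟩ = x ⟨i + 1, hi⟩ ∧ ∀ z, x (μ.f z) = x z) then 1 else 0 := by
      refine Finset.sum_congr rfl fun x _ => if_congr ?_ rfl rfl
      exact ⟨fun h => h.1, fun h => ⟨h, hy⟩⟩
    rw [h2, h1]
    by_cases hc : ∀ z, y ((μ.cap i).f z) = y z
    · rw [if_pos ⟨hc, hy.2⟩, if_pos hc, mul_one]
    · rw [if_neg fun h => hc h.1, if_neg hc, mul_zero]
  · rw [Finset.sum_eq_zero fun x _ => if_neg fun h => hy h.2]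
    rw [if_neg, mul_zero]
    rintro ⟨h1, h2⟩
    refine hy ⟨?_, h2⟩
    have h3 := h1 ⟨i, by omega⟩
    rw [hcap m μ i hi] at h3
    have h4 : capF μ.f ⟨i, by omega⟩ ⟨i + 1, hi⟩ ⟨i, by omega⟩ = ⟨i + 1, hi⟩ := by
      unfold capF
      rw [if_pos rfl]
    rw [h4] at h3
    exact h3.symm

private theorem exch_comm {m : ℕ} (μ ν : Matching m) : cyc μ ν = cyc ν μ := by
  apply Nat.pow_right_injective (le_refl 2)
  change 2 ^ cyc μ ν = 2 ^ cyc ν μ
  rw [exch_two_pow, exch_two_pow]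
  exact Finset.sum_congr rfl fun x _ => if_congr and_comm rfl rfl

/-- **Exchange.** -/
theorem sExch : S_Exch := by
  intro hcap hcol m μ ν i hi
  apply Nat.pow_right_injective (le_refl 2)
  change 2 ^ (cyc (μ.cap i) ν + lp μ i) = 2 ^ (cyc μ (ν.cap i) + lp ν i)
  rw [add_comm (cyc (μ.cap i) ν), exch_comm μ (ν.cap i), add_comm (cyc (ν.cap i) μ),
    exch_half hcap hcol μ ν i hi, exch_half hcap hcol ν μ i hi, Finset.sum_comm]
  refine Finset.sum_congr rfl fun x _ => Finset.sum_congr rfl fun y _ => if_congr ?_ rfl rfl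
  constructor
  · rintro ⟨⟨h1, h2, h3⟩, h4, h5⟩
    exact ⟨⟨fun z hz hz' => (h1 z hz hz').symm, h4, h5⟩, h2, h3⟩
  · rintro ⟨⟨h1, h2, h3⟩, h4, h5⟩
    exact ⟨⟨fun z hz hz' => (h1 z hz hz').symm, h4, h5⟩, h2, h3⟩

end MP_fc1011_gt.MT
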