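import Pool.Agent.Lib.MP_fc1011_gt.MT.Spec

set_option autoImplicit false

namespace MP_fc1011_gt.MT

open Finset

/-- `|sin x| ≥ 2 |x| / π` for `|x| ≤ π / 2` -/
private theorem extra_sin (x : ℝ) (hx : |x| ≤ Real.pi / 2) :
    2 / Real.pi * |x| ≤ |Real.sin x| := by
  rcases le_total 0 x with h | h
  · rw [abs_of_nonneg h] at hx ⊢
    exact (Real.mul_le_sin h hx).trans (le_abs_self _)
  · rw [abs_of_nonpos h] at hx ⊢
    have h1 := Real.mul_le_sin (neg_nonneg.2 h) hx
    rw [Real.sin_neg] at h1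
    exact h1.trans (neg_le_abs _)

/-- the distance of two roots of unity -/
private theorem extra_dist (r q : ℝ) (hr : 3 ≤ r) (hq : 3 ≤ q) :
    4 * |1 / r - 1 / q| ≤ ‖Complex.exp (2 * Real.pi * Complex.I / r) -
      Complex.exp (2 * Real.pi * Complex.I / q)‖ := by
  have hr0 : (r : ℂ) ≠ 0 := by
    have : r ≠ 0 := by linarith
    exact_mod_cast this
  have hq0 : (q : ℂ) ≠ 0 := by
    have : q ≠ 0 := by linarith
    exact_mod_cast this
  have h1 : Complex.exp (2 * Real.pi * Complex.I / r) =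
      Complex.exp (2 * Real.pi * Complex.I / q) *
      Complex.exp (Complex.I * ((2 * Real.pi * (1 / r - 1 / q) : ℝ) : ℂ)) := by
    rw [← Complex.exp_add]
    congr 1
    push_cast
    field_simp
    ring
  have h2 : ‖Complex.exp (2 * Real.pi * Complex.I / q)‖ = 1 := by
    have : 2 * (Real.pi : ℂ) * Complex.I / q = Complex.I * ((2 * Real.pi / q : ℝ) : ℂ) := by
      push_cast
      ring
    rw [this, Complex.norm_exp_I_mul_ofReal]
  have h3 : Complex.exp (2 * Real.pi * Complex.I / r) - Complex.exp (2 * Real.pi * Complex.I / q) =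
      Complex.exp (2 * Real.pi * Complex.I / q) *
      (Complex.exp (Complex.I * ((2 * Real.pi * (1 / r - 1 / q) : ℝ) : ℂ)) - 1) := by
    rw [h1]
    ring
  rw [h3, norm_mul, h2, one_mul, Complex.norm_exp_I_mul_ofReal_sub_one, norm_mul]
  have h4 : 2 * Real.pi * (1 / r - 1 / q) / 2 = Real.pi * (1 / r - 1 / q) := by ring
  rw [h4, Real.norm_eq_abs, Real.norm_eq_abs, abs_two]
  have hr1 : 0 < 1 / r := by positivity
  have hq1 : 0 < 1 / q := by positivity
  have hr3 : 1 / r ≤ 1 / 3 := one_div_le_one_div_of_le (by norm_num) hr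
  have hq3 : 1 / q ≤ 1 / 3 := one_div_le_one_div_of_le (by norm_num) hq
  have h5 : |1 / r - 1 / q| ≤ 1 / 3 := by
    rw [abs_le]
    constructor <;> linarith
  have hpi := Real.pi_pos
  have h6 : |Real.pi * (1 / r - 1 / q)| = Real.pi * |1 / r - 1 / q| := by
    rw [abs_mul, abs_of_pos hpi]
  have h7 := extra_sin (Real.pi * (1 / r - 1 / q)) (by
    rw [h6]
    nlinarith)
  rw [h6] at h7
  have h8 : 2 / Real.pi * (Real.pi * |1 / r - 1 / q|) = 2 * |1 / r - 1 / q| := by
    field_simp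
  rw [h8] at h7
  linarith

theorem sExtra : S_Extra := by
  classical
  intro s c B hs hB
  have hB0 : 0 ≤ B := le_trans (norm_nonneg _) (hB 3 le_rfl)
  obtain ⟨v, hv⟩ : ∃ v : ℕ → ℂ, ∀ i, v i = Complex.exp (2 * Real.pi * Complex.I / ((i + 3 : ℕ) : ℂ)) :=
    ⟨_, fun i => rfl⟩
  obtain ⟨P, hP⟩ : ∃ P : Polynomial ℂ, P = ∑ k ∈ range (s + 1), Polynomial.C (c k) * Polynomial.X ^ k :=
    ⟨_, rfl⟩
  have hev : ∀ z, P.eval z = ∑ k ∈ range (s + 1), c k * z ^ k := by
    intro z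
    rw [hP, Polynomial.eval_finsetSum]
    refine Finset.sum_congr rfl (fun k _ => ?_)
    rw [Polynomial.eval_mul, Polynomial.eval_C, Polynomial.eval_pow, Polynomial.eval_X]
  have hdeg : P.degree < ((range (s + 1)).card : WithBot ℕ) := by
    rw [card_range, Polynomial.degree_lt_iff_coeff_zero]
    intro m hm
    rw [hP, Polynomial.finsetSum_coeff]
    refine Finset.sum_eq_zero (fun k hk => ?_)
    rw [Polynomial.coeff_C_mul_X_pow, if_neg]
    intro h
    rw [mem_range] at hk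
    omega
  -- distances
  have hS : (2 : ℝ) ≤ s := by exact_mod_cast hs
  have hdist : ∀ i ∈ range (s + 1), ∀ j ∈ range (s + 1), i ≠ j →
      4 / ((s : ℝ) + 3) ^ 2 ≤ ‖v i - v j‖ := by
    intro i hi j hj hij
    rw [mem_range] at hi hj
    have hi' : ((i + 3 : ℕ) : ℝ) ≤ s + 3 := by
      have : i + 3 ≤ s + 3 := by omega
      exact_mod_cast this
    have hj' : ((j + 3 : ℕ) : ℝ) ≤ s + 3 := by
      have : j + 3 ≤ s + 3 := by omega
      exact_mod_cast this
    have hi3 : (3 : ℝ) ≤ ((i + 3 : ℕ) : ℝ) := by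
      push_cast
      have : (0 : ℝ) ≤ i := Nat.cast_nonneg i
      linarith
    have hj3 : (3 : ℝ) ≤ ((j + 3 : ℕ) : ℝ) := by
      push_cast
      have : (0 : ℝ) ≤ j := Nat.cast_nonneg j
      linarith
    have h1 := extra_dist ((i + 3 : ℕ) : ℝ) ((j + 3 : ℕ) : ℝ) hi3 hj3
    have h2 : v i - v j = Complex.exp (2 * Real.pi * Complex.I / (((i + 3 : ℕ) : ℝ) : ℂ)) -
        Complex.exp (2 * Real.pi * Complex.I / (((j + 3 : ℕ) : ℝ) : ℂ)) := by
      rw [hv, hv, Complex.ofReal_natCast, Complex.ofReal_natCast]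
    rw [h2]
    refine le_trans ?_ h1
    have hri : (0 : ℝ) < ((i + 3 : ℕ) : ℝ) := by linarith
    have hrj : (0 : ℝ) < ((j + 3 : ℕ) : ℝ) := by linarith
    have h3 : 1 / ((i + 3 : ℕ) : ℝ) - 1 / ((j + 3 : ℕ) : ℝ) =
        (((j + 3 : ℕ) : ℝ) - ((i + 3 : ℕ) : ℝ)) / (((i + 3 : ℕ) : ℝ) * ((j + 3 : ℕ) : ℝ)) := by
      field_simp
    have h4 : (1 : ℝ) ≤ |((j + 3 : ℕ) : ℝ) - ((i + 3 : ℕ) : ℝ)| := by
      have h5 : ((j + 3 : ℕ) : ℤ) - ((i + 3 : ℕ) : ℤ) ≠ 0 := by omega
      have h6 := Int.one_le_abs h5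
      exact_mod_cast h6
    rw [h3, abs_div, abs_of_pos (mul_pos hri hrj), ← mul_div_assoc]
    rw [div_le_div_iff₀ (by positivity) (mul_pos hri hrj)]
    have h7 : ((i + 3 : ℕ) : ℝ) * ((j + 3 : ℕ) : ℝ) ≤ ((s : ℝ) + 3) ^ 2 := by
      nlinarith
    have h8 : (0 : ℝ) ≤ ((s : ℝ) + 3) ^ 2 := by positivity
    nlinarith
  have hinj : Set.InjOn v (range (s + 1) : Finset ℕ) := by
    intro i hi j hj hij
    by_contra hne
    have h1 := hdist i hi j hj hne
    rw [hij, sub_self, norm_zero] at h1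
    have h2 : (0 : ℝ) < 4 / ((s : ℝ) + 3) ^ 2 := by positivity
    linarith
  have hI := Lagrange.eq_interpolate hinj hdeg
  have hval : ∑ k ∈ range (s + 1), c k * (-1) ^ k =
      ∑ i ∈ range (s + 1), P.eval (v i) *
        ∏ j ∈ (range (s + 1)).erase i, ((v i - v j)⁻¹ * (-1 - v j)) := by
    rw [← hev]
    conv_lhs => rw [hI]
    rw [Lagrange.interpolate_apply, Polynomial.eval_finsetSum]
    refine Finset.sum_congr rfl (fun i _ => ?_)
    rw [Polynomial.eval_mul, Polynomial.eval_C]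
    unfold Lagrange.basis
    rw [Polynomial.eval_prod]
    congr 1
    refine Finset.prod_congr rfl (fun j _ => ?_)
    unfold Lagrange.basisDivisor
    rw [Polynomial.eval_mul, Polynomial.eval_C, Polynomial.eval_sub, Polynomial.eval_X,
      Polynomial.eval_C]
  rw [hval]
  refine (norm_sum_le _ _).trans ?_
  have hterm : ∀ i ∈ range (s + 1), ‖P.eval (v i) *
      ∏ j ∈ (range (s + 1)).erase i, ((v i - v j)⁻¹ * (-1 - v j))‖ ≤ (4 * (s : ℝ) ^ 2) ^ s * B := by
    intro i hi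
    rw [norm_mul, norm_prod]
    have h1 : ‖P.eval (v i)‖ ≤ B := by
      rw [hev, hv]
      exact hB (i + 3) (by omega)
    have h2 : ∏ j ∈ (range (s + 1)).erase i, ‖(v i - v j)⁻¹ * (-1 - v j)‖ ≤
        (4 * (s : ℝ) ^ 2) ^ s := by
      have hcard : ((range (s + 1)).erase i).card = s := by
        rw [card_erase_of_mem hi, card_range, Nat.add_sub_cancel]
      calc ∏ j ∈ (range (s + 1)).erase i, ‖(v i - v j)⁻¹ * (-1 - v j)‖
          ≤ ∏ j ∈ (range (s + 1)).erase i, (4 * (s : ℝ) ^ 2) := by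
            refine Finset.prod_le_prod (fun j _ => norm_nonneg _) (fun j hj => ?_)
            obtain ⟨hji, hj'⟩ := mem_erase.1 hj
            have h3 := hdist i hi j hj' (Ne.symm hji)
            have h4 : ‖(-1 : ℂ) - v j‖ ≤ 2 := by
              refine (norm_sub_le _ _).trans ?_
              have h5 : ‖v j‖ = 1 := by
                have h6 : 2 * (Real.pi : ℂ) * Complex.I / ((j + 3 : ℕ) : ℂ) =
                    Complex.I * ((2 * Real.pi / ((j + 3 : ℕ) : ℝ) : ℝ) : ℂ) := by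
                  push_cast
                  ring
                rw [hv, h6, Complex.norm_exp_I_mul_ofReal]
              rw [h5, norm_neg, norm_one]
              norm_num
            rw [norm_mul, norm_inv]
            have h5 : (0 : ℝ) < 4 / ((s : ℝ) + 3) ^ 2 := by positivity
            have h6 : ‖v i - v j‖⁻¹ ≤ (4 / ((s : ℝ) + 3) ^ 2)⁻¹ := inv_anti₀ h5 h3
            rw [inv_div] at h6
            calc ‖v i - v j‖⁻¹ * ‖(-1 : ℂ) - v j‖ ≤ ((s : ℝ) + 3) ^ 2 / 4 * 2 :=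
                  mul_le_mul h6 h4 (norm_nonneg _) (by positivity)
              _ ≤ 4 * (s : ℝ) ^ 2 := by nlinarith
        _ = (4 * (s : ℝ) ^ 2) ^ s := by rw [prod_const, hcard]
    calc ‖P.eval (v i)‖ * ∏ j ∈ (range (s + 1)).erase i, ‖(v i - v j)⁻¹ * (-1 - v j)‖
        ≤ B * (4 * (s : ℝ) ^ 2) ^ s :=
          mul_le_mul h1 h2 (Finset.prod_nonneg (fun j _ => norm_nonneg _)) hB0
      _ = (4 * (s : ℝ) ^ 2) ^ s * B := mul_comm _ _
  refine (Finset.sum_le_sum hterm).trans ?_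
  rw [sum_const, card_range, nsmul_eq_mul]
  push_cast
  rw [mul_assoc]

end MP_fc1011_gt.MT
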