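import Pool.Agent.Lib.MP_fc1011_gt.MT.Spec

/-!
# The set of paths is finite
-/

set_option autoImplicit false

namespace MP_fc1011_gt.MT

theorem sFin : S_Fin := by
  intro R m
  classical
  set F : (ℕ → ℕ) → (Fin m → Bool) := fun a i => decide (a ((i : ℕ) + 1) = a i + 1) with hF
  have hinj : Set.InjOn F {a | Pth R m a} := by
    intro a ha c hc h
    have ha' : Pth R m a := ha
    have hc' : Pth R m c := hc
    have key : ∀ i, i ≤ m → a i = c i := by
      intro i
      induction i with
      | zero => intro _; rw [ha'.1, hc'.1]
      | succ i ih =>
        intro hi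
        have h1 := ih (by omega)
        have h2 := ha'.2.2.1 i (by omega)
        have h3 := hc'.2.2.1 i (by omega)
        have h4 := congrFun h ⟨i, by omega⟩
        simp only [hF] at h4
        by_cases h5 : a (i + 1) = a i + 1
        · rw [decide_eq_true h5] at h4
          have h6 := of_decide_eq_true h4.symm
          omega
        · rw [decide_eq_false h5] at h4
          have h6 := of_decide_eq_false h4.symm
          omega
    funext i
    rcases le_total i m with hi | hi
    · exact key i hi
    · rw [ha'.2.1 i hi, hc'.2.1 i hi]
  have hmaps : Set.MapsTo F {a | Pth R m a} Set.univ := fun _ _ => Set.mem_univ _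
  refine ⟨Set.Finite.of_injOn hmaps hinj Set.finite_univ, ?_⟩
  refine (Set.ncard_le_ncard_of_injOn F hmaps hinj Set.finite_univ).trans ?_
  rw [Set.ncard_univ, Nat.card_eq_fintype_card]
  simp

end MP_fc1011_gt.MT
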