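import Pool.Agent.Lib.MP_fc1011_gt.MT.Spec

/-!
# Full twists act by diagonal operators with entries of modulus one
-/

set_option autoImplicit false

namespace MP_fc1011_gt.MT

theorem full_supp {A A' : ℂ} {b : ℕ → ℂ} {R m : ℕ} {c : ℕ × Bool} {ψ : (ℕ → ℕ) → ℂ}
    (hψ : Supp R m ψ) : Supp R m (sg A A' b R m c ψ) := by
  intro a ha
  have h0 : UU b R m c.1 ψ a = 0 := by rw [UU, if_neg (fun h => ha h.1)]
  rw [sg, hψ a ha, h0, mul_zero, mul_zero, add_zero]

theorem full_rho_supp {A A' : ℂ} {b : ℕ → ℂ} {R m : ℕ} (cs : List (ℕ × Bool)) :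
    ∀ {ψ : (ℕ → ℕ) → ℂ}, Supp R m ψ → Supp R m (rho A A' b R m cs ψ) := by
  induction cs with
  | nil => intro ψ h; exact h
  | cons c cs ih => intro ψ h; exact ih (full_supp h)

/-- acts by a diagonal operator of modulus one -/
def FullDg (A A' : ℂ) (b : ℕ → ℂ) (R m : ℕ) (cs : List (ℕ × Bool)) : Prop :=
  ∃ θ : (ℕ → ℕ) → ℂ, (∀ a, ‖θ a‖ = 1) ∧ ∀ ψ : (ℕ → ℕ) → ℂ, Supp R m ψ → ∀ a,
    rho A A' b R m cs ψ a = θ a * ψ a

theorem full_nil (A A' : ℂ) (b : ℕ → ℂ) (R m : ℕ) : FullDg A A' b R m [] :=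
  ⟨fun _ => 1, by simp, fun ψ _ a => by simp [rho]⟩

theorem full_append {A A' : ℂ} {b : ℕ → ℂ} {R m : ℕ} {c₁ c₂ : List (ℕ × Bool)}
    (h₁ : FullDg A A' b R m c₁) (h₂ : FullDg A A' b R m c₂) : FullDg A A' b R m (c₁ ++ c₂) := by
  obtain ⟨θ, h1, h2⟩ := h₁
  obtain ⟨χ, h3, h4⟩ := h₂
  refine ⟨fun a => χ a * θ a, fun a => by rw [norm_mul, h1, h3, one_mul], fun ψ hψ a => ?_⟩
  have h5 : rho A A' b R m (c₁ ++ c₂) ψ = rho A A' b R m c₂ (rho A A' b R m c₁ ψ) := by
    unfold rho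
    rw [List.foldl_append]
  rw [h5, h4 _ (full_rho_supp _ hψ), h2 ψ hψ, mul_assoc]

theorem full_flatMap {A A' : ℂ} {b : ℕ → ℂ} {R m : ℕ} (s : Bool) (f : ℕ → List ℕ) (l : List ℕ)
    (h : ∀ j ∈ l, FullDg A A' b R m ((f j).map fun i => (i, s))) :
    FullDg A A' b R m ((l.flatMap f).map fun i => (i, s)) := by
  induction l with
  | nil => exact full_nil A A' b R m
  | cons j l ih =>
    rw [List.flatMap_cons, List.map_append]
    exact full_append (h j List.mem_cons_self) (ih fun i hi => h i (List.mem_cons_of_mem _ hi))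

theorem full_replicate {A A' : ℂ} {b : ℕ → ℂ} {R m : ℕ} (s : Bool) (l : List ℕ)
    (h : FullDg A A' b R m (l.map fun i => (i, s))) (n : ℕ) :
    FullDg A A' b R m ((List.replicate n l).flatten.map fun i => (i, s)) := by
  induction n with
  | zero => exact full_nil A A' b R m
  | succ n ih =>
    rw [List.replicate_succ, List.flatten_cons, List.map_append]
    exact full_append h ih

theorem full_around (hAr : S_Around) {A : ℂ} {b : ℕ → ℂ} {R m : ℕ} (hA : ‖A‖ = 1)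
    (hA4 : A ^ 4 ≠ 1) (hb : Hts (-A ^ 2 - (A ^ 2)⁻¹) b R m) {j : ℕ} (hj : j + 1 < m) :
    FullDg A A⁻¹ b R m ((around j).map fun i => (i, true)) := by
  classical
  have hA0 : A ≠ 0 := by
    intro h; rw [h, norm_zero] at hA; exact zero_ne_one hA
  refine ⟨fun a => if Pth R m a then A ^ ((a (j + 2) : ℤ) ^ 2 - (a (j + 1) : ℤ) ^ 2 - 3) else 1,
    fun a => ?_, fun ψ hψ a => ?_⟩
  · by_cases h : Pth R m a
    · simp only [if_pos h]
      rw [norm_zpow, hA, one_zpow]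
    · simp only [if_neg h, norm_one]
  · by_cases h : Pth R m a
    · simp only [if_pos h]
      exact hAr A b R m j hA0 hA4 hb hj ψ hψ a h
    · simp only [if_neg h]
      rw [full_rho_supp _ hψ a h, hψ a h, mul_zero]

theorem full_neg (A A' : ℂ) (b : ℕ → ℂ) (R m : ℕ) (l : List ℕ) :
    ∀ ψ : (ℕ → ℕ) → ℂ, rho A A' b R m (l.map fun i => (i, false)) ψ =
      rho A' A b R m (l.map fun i => (i, true)) ψ := by
  induction l with
  | nil => intro ψ; rfl
  | cons i l ih =>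
    intro ψ
    have h : sg A A' b R m (i, false) ψ = sg A' A b R m (i, true) ψ := by
      funext a
      simp [sg]
    change rho A A' b R m (l.map fun i => (i, false)) (sg A A' b R m (i, false) ψ) =
      rho A' A b R m (l.map fun i => (i, true)) (sg A' A b R m (i, true) ψ)
    rw [h, ih]

theorem full_around_neg (hAr : S_Around) {A : ℂ} {b : ℕ → ℂ} {R m : ℕ} (hA : ‖A‖ = 1)
    (hA4 : A ^ 4 ≠ 1) (hb : Hts (-A ^ 2 - (A ^ 2)⁻¹) b R m) {j : ℕ} (hj : j + 1 < m) :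
    FullDg A A⁻¹ b R m ((around j).map fun i => (i, false)) := by
  have h1 : -(A⁻¹) ^ 2 - ((A⁻¹) ^ 2)⁻¹ = -A ^ 2 - (A ^ 2)⁻¹ := by
    rw [inv_pow, inv_inv]; ring
  have h2 : (A⁻¹) ^ 4 ≠ 1 := by
    rw [inv_pow]
    intro h
    exact hA4 (inv_eq_one.1 h)
  obtain ⟨θ, h3, h4⟩ := full_around hAr (A := A⁻¹) (by rw [norm_inv, hA, inv_one]) h2
    (by rw [h1]; exact hb) hj
  refine ⟨θ, h3, fun ψ hψ a => ?_⟩
  rw [full_neg, ← h4 ψ hψ a, inv_inv]

theorem sFull : S_Full := by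
  intro hAr A b R m hA hA4 hb k n hk
  have h : FullDg A A⁻¹ b R m (Letter.crossings (.full k n)) := by
    unfold Letter.crossings
    refine full_replicate _ _ ?_ _
    unfold fullTwist
    refine full_flatMap _ _ _ fun j hj => ?_
    rw [List.mem_range] at hj
    cases decide (0 < n)
    · exact full_around_neg hAr hA hA4 hb (by omega)
    · exact full_around hAr hA hA4 hb (by omega)
  exact h

end MP_fc1011_gt.MT
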