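import Pool.Agent.Lib.MP_fc1011_gt.MT.Spec

/-!
# The generic bound
-/

set_option autoImplicit false

namespace MP_fc1011_gt.MT

open Finset

theorem gen_supp {A A' : ℂ} {b : ℕ → ℂ} {R m : ℕ} {c : ℕ × Bool} {ψ : (ℕ → ℕ) → ℂ}
    (hψ : Supp R m ψ) : Supp R m (sg A A' b R m c ψ) := by
  intro a ha
  have h0 : UU b R m c.1 ψ a = 0 := by rw [UU, if_neg (fun h => ha h.1)]
  rw [sg, hψ a ha, h0, mul_zero, mul_zero, add_zero]

theorem gen_rho_supp {A A' : ℂ} {b : ℕ → ℂ} {R m : ℕ} (cs : List (ℕ × Bool)) :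
    ∀ {ψ : (ℕ → ℕ) → ℂ}, Supp R m ψ → Supp R m (rho A A' b R m cs ψ) := by
  induction cs with
  | nil => intro ψ h; exact h
  | cons c cs ih => intro ψ h; exact ih (gen_supp h)

theorem gen_mem_around {j i : ℕ} (h : i ∈ around j) : i ≤ j := by
  unfold around at h
  simp only [List.mem_append, List.mem_reverse, List.mem_range, or_self] at h
  omega

/-- all crossings are between existing strands -/
theorem gen_valid {m : ℕ} (D : Diagram m) : ∀ c ∈ D.crossings, c.1 + 1 < m := by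
  intro c hc
  unfold Diagram.crossings at hc
  rw [List.mem_flatMap] at hc
  obtain ⟨l, hl, hc⟩ := hc
  have hv := D.valid l hl
  cases l with
  | twist i n =>
    have h1 : c ∈ List.replicate n.natAbs (i, decide (0 < n)) := hc
    rw [List.eq_of_mem_replicate h1]
    exact hv
  | full k n =>
    have h1 : c ∈ ((List.replicate n.natAbs (fullTwist k)).flatten.map
      fun i => (i, decide (0 < n))) := hc
    rw [List.mem_map] at h1
    obtain ⟨i, hi, rfl⟩ := h1
    rw [List.mem_flatten] at hi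
    obtain ⟨l', hl', hi⟩ := hi
    rw [List.eq_of_mem_replicate hl'] at hi
    unfold fullTwist at hi
    rw [List.mem_flatMap] at hi
    obtain ⟨j, hj, hi⟩ := hi
    rw [List.mem_range] at hj
    have h2 := gen_mem_around hi
    have h3 : k ≤ m := hv
    change i + 1 < m
    omega

theorem gen_word (hFull : S_Full) (hTw : S_Tw) (hAr : S_Around) (hU2 : S_U2) {A : ℂ} {b : ℕ → ℂ}
    {R m : ℕ} {ε : ℝ} (hA : ‖A‖ = 1) (hA4 : A ^ 4 ≠ 1) (hb : Hts (-A ^ 2 - (A ^ 2)⁻¹) b R m)
    (hε : 0 < ε) (hε1 : ε ≤ 1) (hlow : ∀ n, 1 ≤ n → n ≤ R → ε ≤ ‖b n‖) (hup : ∀ n, ‖b n‖ ≤ n)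
    (w : List Letter) : (∀ l ∈ w, l.Valid m) → ∀ (ψ : (ℕ → ℕ) → ℂ) (C : ℝ), Supp R m ψ →
      (∀ a, ‖ψ a‖ ≤ C) → ∀ a, ‖rho A A⁻¹ b R m (w.flatMap Letter.crossings) ψ a‖ ≤
        (5 * R / ε ^ 2) ^ (w.map Letter.cost).sum * C := by
  induction w with
  | nil =>
    intro _ ψ C _ hC a
    simpa [rho] using hC a
  | cons l w ih =>
    intro hv ψ C hψ hC a
    have h1 : rho A A⁻¹ b R m ((l :: w).flatMap Letter.crossings) ψ =
        rho A A⁻¹ b R m (w.flatMap Letter.crossings) (rho A A⁻¹ b R m l.crossings ψ) := by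
      unfold rho
      rw [List.flatMap_cons, List.foldl_append]
    rw [h1, List.map_cons, List.sum_cons, pow_add]
    have hvl := hv l List.mem_cons_self
    have h2 : ∀ a, ‖rho A A⁻¹ b R m l.crossings ψ a‖ ≤ (5 * R / ε ^ 2) ^ l.cost * C := by
      cases l with
      | twist i n =>
        intro a
        have h3 := hTw hU2 A b R m ε hA hb hε hε1 hlow hup i n hvl ψ C hψ hC a
        have h4 : Letter.cost (.twist i n) = 1 := rfl
        rw [h4, pow_one]
        exact h3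
      | full k n =>
        intro a
        obtain ⟨θ, h3, h4⟩ := hFull hAr A b R m hA hA4 hb k n hvl
        have h5 : Letter.cost (.full k n) = 0 := rfl
        rw [h5, pow_zero, one_mul, h4 ψ hψ a, norm_mul, h3, one_mul]
        exact hC a
    refine (ih (fun l' hl' => hv l' (List.mem_cons_of_mem _ hl')) _ _ (gen_rho_supp _ hψ) h2 a).trans
      (le_of_eq ?_)
    ring

theorem gen_ket {b : ℕ → ℂ} {R m : ℕ} (hR : 2 ≤ R) (hup : ∀ n, ‖b n‖ ≤ n) (μ : Matching m)
    (a : ℕ → ℕ) : ‖ket b R μ a‖ ≤ (R : ℝ) ^ m := by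
  have hR1 : (1 : ℝ) ≤ R := by exact_mod_cast (by omega : 1 ≤ R)
  rw [ket]
  split_ifs with h
  · rw [norm_prod]
    refine (prod_le_prod (fun x _ => norm_nonneg _) (g := fun _ => (R : ℝ)) fun x _ => ?_).trans ?_
    · split_ifs with h1
      · exact (hup _).trans (by exact_mod_cast (h.1.2.2.2 _).2)
      · rw [norm_one]; exact hR1
    · rw [prod_const, card_univ, Fintype.card_fin]
  · rw [norm_zero]; positivity

theorem gen_ket_supp {b : ℕ → ℂ} {R m : ℕ} (μ : Matching m) : Supp R m (ket b R μ) := by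
  intro a ha
  rw [ket, if_neg (fun h => ha h.1)]

theorem sGen : S_Gen := by
  intro hFin hFull hTw hAr hU2 hEval A b R m ε hA hA4 hb hε hε1 hlow hup D
  rw [hEval A A⁻¹ _ b R m hb D.crossings (gen_valid D) D.top D.bot]
  set K : ℝ := (5 * R / ε ^ 2) ^ D.twists * (R : ℝ) ^ m with hK
  have hK0 : 0 ≤ K := by positivity
  have hψ : ∀ a, ‖rho A A⁻¹ b R m D.crossings (ket b R D.top) a‖ ≤ K := fun a =>
    gen_word hFull hTw hAr hU2 hA hA4 hb hε hε1 hlow hup D.word D.valid _ _ (gen_ket_supp D.top)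
      (gen_ket hb.two hup D.top) a
  obtain ⟨hfin, hcard⟩ := hFin R m
  have hOm : Om R m = hfin.toFinset := by rw [Om, dif_pos hfin]
  have hmem : ∀ a ∈ Om R m, Pth R m a := by
    intro a ha
    rw [hOm, Set.Finite.mem_toFinset] at ha
    exact ha
  have hc : (Om R m).card ≤ 2 ^ m := by
    rw [hOm, ← Set.ncard_eq_toFinset_card _ hfin]; exact hcard
  have hterm : ∀ a ∈ Om R m, ‖ket b R D.bot a * rho A A⁻¹ b R m D.crossings (ket b R D.top) a /
      ∏ j ∈ range m, b (a (j + 1))‖ ≤ (R : ℝ) ^ m * K / ε ^ m := by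
    intro a ha
    have h1 := hmem a ha
    rw [norm_div, norm_mul, norm_prod]
    refine div_le_div₀ (by positivity)
      (mul_le_mul (gen_ket hb.two hup D.bot a) (hψ a) (norm_nonneg _) (by positivity))
      (by positivity) ?_
    calc ε ^ m = ∏ _j ∈ range m, ε := by rw [prod_const, card_range]
      _ ≤ ∏ j ∈ range m, ‖b (a (j + 1))‖ := by
          refine prod_le_prod (fun _ _ => hε.le) fun j _ => ?_
          exact hlow _ (h1.2.2.2 _).1 (h1.2.2.2 _).2
  unfold BB
  calc ‖∑ a ∈ Om R m, ket b R D.bot a * rho A A⁻¹ b R m D.crossings (ket b R D.top) a /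
      ∏ j ∈ range m, b (a (j + 1))‖
      ≤ ∑ a ∈ Om R m, (R : ℝ) ^ m * K / ε ^ m := norm_sum_le_of_le _ hterm
    _ = (Om R m).card * ((R : ℝ) ^ m * K / ε ^ m) := by rw [sum_const, nsmul_eq_mul]
    _ ≤ 2 ^ m * ((R : ℝ) ^ m * K / ε ^ m) := by
        refine mul_le_mul_of_nonneg_right ?_ (by positivity)
        exact_mod_cast hc
    _ = (2 * R ^ 2 / ε) ^ m * (5 * R / ε ^ 2) ^ D.twists := by
        rw [hK, div_pow, mul_pow, ← pow_mul]
        ring

end MP_fc1011_gt.MT
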