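import Pool.Agent.Lib.MP_fc1011_gt.MT.Spec

/-! Discrete Fourier coefficients of a polynomial. -/

namespace MP_fc1011_gt.MT

open Finset

private lemma interp_geom {M : ℕ} {w : ℂ} (h1 : w ^ M = 1) (hne : w ≠ 1) :
    ∑ j ∈ range M, w ^ j = 0 := by
  rw [geom_sum_eq hne, h1, sub_self, zero_div]

theorem sInterp : S_Interp := by
  intro s c ζ B hζ h
  obtain ⟨M, hM⟩ : ∃ M, M = s + 1 := ⟨_, rfl⟩
  have hM0 : M ≠ 0 := by omega
  have hMpos : (0 : ℝ) < M := by exact_mod_cast Nat.pos_of_ne_zero hM0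
  have hMC : (M : ℂ) ≠ 0 := by exact_mod_cast hM0
  obtain ⟨w, hw⟩ : ∃ w : ℂ, w = Complex.exp (2 * Real.pi * Complex.I / M) := ⟨_, rfl⟩
  have hprim : IsPrimitiveRoot w M := by
    rw [hw]
    exact Complex.isPrimitiveRoot_exp M hM0
  have hwM : w ^ M = 1 := hprim.pow_eq_one
  have hw0 : w ≠ 0 := by
    rw [hw]
    exact Complex.exp_ne_zero _
  have hwn : ‖w‖ = 1 := Complex.norm_eq_one_of_pow_eq_one hwM hM0
  have hζ0 : ζ ≠ 0 := by
    intro h0
    rw [h0, norm_zero] at hζ
    exact zero_ne_one hζ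
  have hexp : ∀ j : ℕ, Complex.exp (2 * Real.pi * Complex.I * (j / (s + 1 : ℕ))) = w ^ j := by
    intro j
    rw [hw, ← Complex.exp_nat_mul, ← hM]
    congr 1
    field_simp
  rw [← hM] at h ⊢
  have key : ∀ k ∈ range M, ‖c k‖ ≤ B := by
    intro k hk
    have hkM : k < M := mem_range.1 hk
    have e1 : ∑ j ∈ range M, (∑ l ∈ range M, c l * (ζ * w ^ j) ^ l) * ((w⁻¹) ^ k) ^ j =
        M * (c k * ζ ^ k) := by
      have e2 : ∀ j ∈ range M, (∑ l ∈ range M, c l * (ζ * w ^ j) ^ l) * ((w⁻¹) ^ k) ^ j =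
          ∑ l ∈ range M, c l * ζ ^ l * (w ^ l * (w⁻¹) ^ k) ^ j := by
        intro j _
        rw [Finset.sum_mul]
        apply Finset.sum_congr rfl
        intro l _
        rw [mul_pow, mul_pow (w ^ l), ← pow_mul, ← pow_mul, Nat.mul_comm j l]
        ring
      rw [Finset.sum_congr rfl e2, Finset.sum_comm]
      rw [Finset.sum_eq_single k]
      · rw [← Finset.mul_sum]
        have e3 : w ^ k * (w⁻¹) ^ k = 1 := by
          rw [← mul_pow, mul_inv_cancel₀ hw0, one_pow]
        rw [e3]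
        simp only [one_pow, Finset.sum_const, Finset.card_range, nsmul_eq_mul, mul_one]
        ring
      · intro l hl hlk
        rw [← Finset.mul_sum, interp_geom, mul_zero]
        · rw [mul_pow, ← pow_mul, ← pow_mul, Nat.mul_comm l M, Nat.mul_comm k M, pow_mul, pow_mul,
            hwM, one_pow, inv_pow w M, hwM, inv_one, one_pow, one_mul]
        · intro h1
          apply hlk
          apply hprim.pow_inj (mem_range.1 hl) hkM
          have h2 : w ^ l * (w⁻¹) ^ k * w ^ k = w ^ k := by rw [h1, one_mul]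
          rw [mul_assoc, ← mul_pow, inv_mul_cancel₀ hw0, one_pow, mul_one] at h2
          exact h2
      · intro h1
        exact absurd hk h1
    have e4 : ‖∑ j ∈ range M, (∑ l ∈ range M, c l * (ζ * w ^ j) ^ l) * ((w⁻¹) ^ k) ^ j‖ ≤
        ∑ j ∈ range M, B := by
      apply norm_sum_le_of_le
      intro j hj
      rw [norm_mul, norm_pow, norm_pow, norm_inv, hwn, inv_one, one_pow, one_pow, mul_one]
      have h2 := h j (mem_range.1 hj)
      have h3 := hexp j
      rw [← hM] at h3
      rw [h3] at h2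
      exact h2
    rw [e1, norm_mul, norm_mul, norm_pow, hζ, one_pow, mul_one, Finset.sum_const,
      Finset.card_range, nsmul_eq_mul, Complex.norm_natCast] at e4
    exact le_of_mul_le_mul_left e4 hMpos
  have h5 := Finset.sum_le_sum key
  rw [Finset.sum_const, Finset.card_range, nsmul_eq_mul] at h5
  have h6 : ((s : ℝ) + 1) = (M : ℝ) := by
    rw [hM]
    push_cast
    ring
  rw [h6]
  exact h5

end MP_fc1011_gt.MT
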