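import Pool.Agent.Lib.MP_fc1011_gt.MT.Spec

/-!
# The operator of a cap and a cup on the vectors of matchings
-/

set_option autoImplicit false

namespace MP_fc1011_gt.MT

open Finset

theorem ket_le {R m : ℕ} {a : ℕ → ℕ} (ha : Pth R m a) : ∀ i, i ≤ m → a i ≤ i + 1 := by
  intro i
  induction i with
  | zero => intro _; rw [ha.1]
  | succ i ih =>
    intro hi
    have h1 := ih (by omega)
    have h2 := ha.2.2.1 i (by omega)
    omega

/-- The value of `b` at a height which is not allowed. -/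
theorem ket_top {d : ℂ} {b : ℕ → ℂ} {R m i : ℕ} (hb : Hts d b R m) (hi : i + 1 < m) {a : ℕ → ℕ}
    (ha : Pth R m a) (h : R < a i + 1) : b (a i + 1) = 0 := by
  have h1 := (ha.2.2.2 i).2
  have h2 := ket_le ha i (by omega)
  have h3 : a i = R := by omega
  rcases hb.top with h4 | h4
  · rw [h3]; exact h4
  · omega

theorem ket_up {R m i : ℕ} (hi : i + 1 < m) {a : ℕ → ℕ} (ha : Pth R m a) (hx : a i = a (i + 2))
    {u : ℕ} (hu : u = a i + 1 ∨ u + 1 = a i) (h1 : 1 ≤ u) (h2 : u ≤ R) :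
    Pth R m (Function.update a (i + 1) u) := by
  refine ⟨?_, ?_, ?_, ?_⟩
  · rw [Function.update_of_ne (by omega)]; exact ha.1
  · intro k hk
    rw [Function.update_of_ne (by omega)]; exact ha.2.1 k hk
  · intro k hk
    by_cases h3 : k = i
    · subst h3
      rw [Function.update_self, Function.update_of_ne (by omega)]
      omega
    · by_cases h4 : k = i + 1
      · subst h4
        rw [Function.update_self, Function.update_of_ne (by omega)]
        have h5 : a (i + 1 + 1) = a i := hx.symm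
        rw [h5]; omega
      · rw [Function.update_of_ne (by omega), Function.update_of_ne (by omega)]
        exact ha.2.2.1 k hk
  · intro k
    by_cases h3 : k = i + 1
    · subst h3; rw [Function.update_self]; exact ⟨h1, h2⟩
    · rw [Function.update_of_ne h3]; exact ha.2.2.2 k

/-- Heights on both sides of a closed block of strands agree. -/
theorem ket_closed {m : ℕ} (μ : Matching m) {a : ℕ → ℕ} (n : ℕ) : ∀ p q : ℕ, q ≤ m → p ≤ q → q - p ≤ n →
    (∀ z : Fin m, p ≤ (z : ℕ) → (z : ℕ) < q → (p ≤ (μ.f z : ℕ) ∧ (μ.f z : ℕ) < q) ∧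
      a (z : ℕ) = a ((μ.f z : ℕ) + 1)) → a p = a q := by
  induction n with
  | zero =>
    intro p q _ h1 h2 _
    have : p = q := by omega
    rw [this]
  | succ n ih =>
    intro p q hq h1 h2 h3
    rcases Nat.lt_or_ge p q with h4 | h4
    · have hp : p < m := by omega
      obtain ⟨⟨h5, h6⟩, h7⟩ := h3 ⟨p, hp⟩ le_rfl h4
      have h8 : (μ.f ⟨p, hp⟩ : ℕ) ≠ p := by
        intro h
        exact μ.ne ⟨p, hp⟩ (Fin.ext h)
      have h9 : a ((μ.f ⟨p, hp⟩ : ℕ) + 1) = a q := by
        refine ih _ _ hq (by omega) (by omega) ?_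
        intro z hz1 hz2
        obtain ⟨⟨h10, h11⟩, h12⟩ := h3 z (by omega) hz2
        refine ⟨⟨?_, h11⟩, h12⟩
        have hz3 : (μ.f z : ℕ) ≠ p := by
          intro h
          have : μ.f z = ⟨p, hp⟩ := Fin.ext h
          have : z = μ.f ⟨p, hp⟩ := by rw [← this, μ.invol]
          rw [this] at hz1
          omega
        have hz4 : (μ.f z : ℕ) ≠ (μ.f ⟨p, hp⟩ : ℕ) := by
          intro h
          have : μ.f z = μ.f ⟨p, hp⟩ := Fin.ext h
          have : z = ⟨p, hp⟩ := by rw [← μ.invol z, this, μ.invol]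
          rw [this] at hz1
          simp only at hz1
          omega
        by_contra hlt
        refine μ.noncrossing ⟨p, hp⟩ (μ.f z) ⟨?_, ?_, ?_⟩
        · rw [Fin.lt_def]; simp only; omega
        · rw [Fin.lt_def]; omega
        · rw [Fin.lt_def, μ.invol]; omega
      simp only at h7
      rw [h7, h9]
    · have : p = q := by omega
      rw [this]

section

variable {m : ℕ} (μ : Matching m) {i : ℕ} (hi : i + 1 < m)

theorem ket_cap_I (hcap : (μ.cap i).f = capF μ.f ⟨i, by omega⟩ ⟨i + 1, hi⟩) :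
    (μ.cap i).f ⟨i, by omega⟩ = ⟨i + 1, hi⟩ := by
  rw [hcap]; simp [capF]

theorem ket_cap_J (hcap : (μ.cap i).f = capF μ.f ⟨i, by omega⟩ ⟨i + 1, hi⟩) :
    (μ.cap i).f ⟨i + 1, hi⟩ = ⟨i, by omega⟩ := by
  rw [hcap]; simp [capF]

theorem ket_cap_j (hcap : (μ.cap i).f = capF μ.f ⟨i, by omega⟩ ⟨i + 1, hi⟩)
    (h : μ.f ⟨i, by omega⟩ ≠ ⟨i + 1, hi⟩) :
    (μ.cap i).f (μ.f ⟨i, by omega⟩) = μ.f ⟨i + 1, hi⟩ := by
  rw [hcap, capF, if_neg (μ.ne _), if_neg h, if_pos (μ.invol _)]

theorem ket_cap_l (hcap : (μ.cap i).f = capF μ.f ⟨i, by omega⟩ ⟨i + 1, hi⟩)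
    (h : μ.f ⟨i, by omega⟩ ≠ ⟨i + 1, hi⟩) :
    (μ.cap i).f (μ.f ⟨i + 1, hi⟩) = μ.f ⟨i, by omega⟩ := by
  have h1 : μ.f ⟨i + 1, hi⟩ ≠ ⟨i, by omega⟩ := by
    intro h2
    apply h
    rw [← h2, μ.invol]
  have h3 : (⟨i + 1, hi⟩ : Fin m) ≠ ⟨i, by omega⟩ := by
    intro h4
    have := congrArg Fin.val h4
    simp at this
  rw [hcap, capF, if_neg h1, if_neg (μ.ne _), if_neg (by rw [μ.invol]; exact h3), if_pos (μ.invol _)]

theorem ket_cap_z (hcap : (μ.cap i).f = capF μ.f ⟨i, by omega⟩ ⟨i + 1, hi⟩) {z : Fin m}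
    (h1 : z ≠ ⟨i, by omega⟩) (h2 : z ≠ ⟨i + 1, hi⟩) (h3 : z ≠ μ.f ⟨i, by omega⟩)
    (h4 : z ≠ μ.f ⟨i + 1, hi⟩) : (μ.cap i).f z = μ.f z := by
  rw [hcap, capF, if_neg h1, if_neg h2, if_neg, if_neg]
  · intro h; apply h4; rw [← h, μ.invol]
  · intro h; apply h3; rw [← h, μ.invol]

end

/-- The factor of a strand in the vector of a matching. -/
noncomputable def ketW (b : ℕ → ℂ) {m : ℕ} (f : Fin m → Fin m) (a : ℕ → ℕ) (x : Fin m) : ℂ :=
  if x < f x then b (a ((x : ℕ) + 1)) else 1

theorem ket_eq (b : ℕ → ℂ) (R : ℕ) {m : ℕ} (μ : Matching m) (a : ℕ → ℕ) (h : Pth R m a)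
    (h2 : Compat μ a) : ket b R μ a = ∏ x : Fin m, ketW b μ.f a x := by
  rw [ket, if_pos ⟨h, h2⟩]; rfl

theorem ket_zero (b : ℕ → ℂ) (R : ℕ) {m : ℕ} (μ : Matching m) (a : ℕ → ℕ)
    (h : ¬ (Pth R m a ∧ Compat μ a)) : ket b R μ a = 0 := by
  rw [ket, if_neg h]

/-- Case 1: `i` and `i + 1` are joined. -/
theorem ket_case1 {d : ℂ} {b : ℕ → ℂ} {R m i : ℕ} (hb : Hts d b R m) (hi : i + 1 < m)
    (μ : Matching m) (hμ : μ.f ⟨i, by omega⟩ = ⟨i + 1, hi⟩) {a : ℕ → ℕ} (ha : Pth R m a)
    (hx : a i = a (i + 2)) : UU b R m i (ket b R μ) a = d * ket b R μ a := by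
  have hμ' : μ.f ⟨i + 1, hi⟩ = ⟨i, by omega⟩ := by rw [← hμ, μ.invol]
  have hcomp : ∀ u, Compat μ (Function.update a (i + 1) u) ↔ Compat μ a := by
    intro u
    refine forall_congr' fun z => ?_
    by_cases hz : z = ⟨i, by omega⟩
    · subst hz
      rw [hμ]
      simp only
      rw [Function.update_of_ne (by omega), Function.update_of_ne (by omega)]
    · by_cases hz' : z = ⟨i + 1, hi⟩
      · subst hz'
        rw [hμ']
        simp only
        rw [Function.update_of_ne (show i + 1 + 1 ≠ i + 1 by omega),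
          Function.update_of_ne (show i ≠ i + 1 by omega)]
      · have h1 : (z : ℕ) ≠ i := fun h => hz (Fin.ext h)
        have h2 : (z : ℕ) ≠ i + 1 := fun h => hz' (Fin.ext h)
        have h3 : (μ.f z : ℕ) ≠ i := by
          intro h
          have : μ.f z = ⟨i, by omega⟩ := Fin.ext h
          apply hz'
          rw [← μ.invol z, this, hμ]
        have h4 : (μ.f z : ℕ) ≠ i + 1 := by
          intro h
          have : μ.f z = ⟨i + 1, hi⟩ := Fin.ext h
          apply hz
          rw [← μ.invol z, this, hμ']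
        rw [Function.update_of_ne (by omega), Function.update_of_ne (by omega),
          Function.update_of_ne (by omega), Function.update_of_ne (by omega)]
  by_cases hc : Compat μ a
  · set g : ℂ := ∏ x ∈ univ.erase (⟨i, by omega⟩ : Fin m), ketW b μ.f a x with hg
    have hIJ : (⟨i, by omega⟩ : Fin m) < ⟨i + 1, hi⟩ := by rw [Fin.lt_def]; simp
    have hval : ∀ u, Pth R m (Function.update a (i + 1) u) →
        ket b R μ (Function.update a (i + 1) u) = b u * g := by
      intro u hu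
      rw [ket_eq b R μ _ hu ((hcomp u).2 hc), ← mul_prod_erase univ _ (mem_univ ⟨i, by omega⟩)]
      congr 1
      · rw [ketW, hμ, if_pos hIJ]; simp
      · refine prod_congr rfl fun z hz => ?_
        rw [mem_erase] at hz
        have h1 : (z : ℕ) ≠ i := fun h => hz.1 (Fin.ext h)
        rw [ketW, ketW, Function.update_of_ne (by omega)]
    have ha0 : ket b R μ a = b (a (i + 1)) * g := by
      rw [ket_eq b R μ _ ha hc, ← mul_prod_erase univ _ (mem_univ ⟨i, by omega⟩)]
      congr 1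
      rw [ketW, hμ, if_pos hIJ]
    have hup : ket b R μ (Function.update a (i + 1) (a i + 1)) = b (a i + 1) * g := by
      by_cases h : a i + 1 ≤ R
      · exact hval _ (ket_up hi ha hx (Or.inl rfl) (by omega) h)
      · rw [ket_top hb hi ha (by omega), zero_mul]
        refine ket_zero b R μ _ ?_
        rintro ⟨h1, _⟩
        have h2 := (h1.2.2.2 (i + 1)).2
        rw [Function.update_self] at h2
        exact h h2
    have hdn : ket b R μ (Function.update a (i + 1) (a i - 1)) = b (a i - 1) * g := by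
      by_cases h : 1 ≤ a i - 1
      · refine hval _ (ket_up hi ha hx (Or.inr (by omega)) h ?_)
        have := (ha.2.2.2 i).2
        omega
      · have h0 : a i - 1 = 0 := by omega
        rw [h0, hb.b0, zero_mul]
        refine ket_zero b R μ _ ?_
        rintro ⟨h1, _⟩
        have h2 := (h1.2.2.2 (i + 1)).1
        rw [Function.update_self] at h2
        omega
    rw [UU, if_pos ⟨ha, hx⟩, hup, hdn, ha0]
    have hx1 := (ha.2.2.2 i)
    obtain ⟨n, hn⟩ : ∃ n, a i = n + 1 := ⟨a i - 1, by omega⟩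
    have hrec := hb.rc n
    have hne := hb.ne (a i) hx1.1 hx1.2
    rw [hn] at hne ⊢
    have e1 : n + 1 - 1 = n := rfl
    have e2 : n + 1 + 1 = n + 2 := rfl
    rw [e1, e2, hrec]
    field_simp
    ring
  · rw [ket_zero b R μ a (fun h => hc h.2), mul_zero, UU, if_pos ⟨ha, hx⟩,
      ket_zero b R μ _ (fun h => hc ((hcomp _).1 h.2)),
      ket_zero b R μ _ (fun h => hc ((hcomp _).1 h.2))]
    ring

/-- Case 2: `i` and `i + 1` are not joined. -/
theorem ket_case2 {d : ℂ} {b : ℕ → ℂ} {R m i : ℕ} (hb : Hts d b R m) (hi : i + 1 < m)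
    (μ : Matching m) (hcap : (μ.cap i).f = capF μ.f ⟨i, by omega⟩ ⟨i + 1, hi⟩)
    (hμ : μ.f ⟨i, by omega⟩ ≠ ⟨i + 1, hi⟩) {a : ℕ → ℕ} (ha : Pth R m a)
    (hx : a i = a (i + 2)) : UU b R m i (ket b R μ) a = ket b R (μ.cap i) a := by
  obtain ⟨j, hj⟩ : ∃ j, μ.f ⟨i, by omega⟩ = j := ⟨_, rfl⟩
  obtain ⟨l, hl⟩ : ∃ l, μ.f ⟨i + 1, hi⟩ = l := ⟨_, rfl⟩
  have hjI : μ.f j = ⟨i, by omega⟩ := by rw [← hj, μ.invol]
  have hlJ : μ.f l = ⟨i + 1, hi⟩ := by rw [← hl, μ.invol]
  have cI := ket_cap_I μ hi hcap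
  have cJ := ket_cap_J μ hi hcap
  have cj := ket_cap_j μ hi hcap hμ
  have cl := ket_cap_l μ hi hcap hμ
  rw [hj, hl] at cj cl
  have cz : ∀ z : Fin m, z ≠ ⟨i, by omega⟩ → z ≠ ⟨i + 1, hi⟩ → z ≠ j → z ≠ l →
      (μ.cap i).f z = μ.f z := by
    intro z h1 h2 h3 h4
    exact ket_cap_z μ hi hcap h1 h2 (by rw [hj]; exact h3) (by rw [hl]; exact h4)
  -- the values
  have j_ne_i : (j : ℕ) ≠ i := by
    intro h
    exact μ.ne ⟨i, by omega⟩ (by rw [hj]; exact Fin.ext h)
  have j_ne_i1 : (j : ℕ) ≠ i + 1 := by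
    intro h
    exact hμ (by rw [hj]; exact Fin.ext h)
  have l_ne_i1 : (l : ℕ) ≠ i + 1 := by
    intro h
    exact μ.ne ⟨i + 1, hi⟩ (by rw [hl]; exact Fin.ext h)
  have l_ne_i : (l : ℕ) ≠ i := by
    intro h
    have h1 : l = ⟨i, by omega⟩ := Fin.ext h
    apply hμ
    rw [← h1, hlJ]
  have j_ne_l : (j : ℕ) ≠ l := by
    intro h
    have h1 : j = l := Fin.ext h
    have h2 : (⟨i, by omega⟩ : Fin m) = ⟨i + 1, hi⟩ := by rw [← hjI, ← hlJ, h1]
    have := congrArg Fin.val h2
    simp at this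
  have hjm := j.2
  have hlm := l.2
  -- compatibility
  set v : ℕ → ℕ → ℕ := fun u => Function.update a (i + 1) u with hv
  have vne : ∀ u k, k ≠ i + 1 → v u k = a k := fun u k hk => Function.update_of_ne hk _ _
  have veq : ∀ u, v u (i + 1) = u := fun u => Function.update_self _ _ _
  have oth : ∀ z : Fin m, z ≠ ⟨i, by omega⟩ → z ≠ ⟨i + 1, hi⟩ → z ≠ j → z ≠ l →
      (z : ℕ) ≠ i ∧ (z : ℕ) ≠ i + 1 ∧ (μ.f z : ℕ) ≠ i ∧ (μ.f z : ℕ) ≠ i + 1 := by
    intro z h1 h2 h3 h4
    refine ⟨fun h => h1 (Fin.ext h), fun h => h2 (Fin.ext h), fun h => h3 ?_, fun h => h4 ?_⟩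
    · have : μ.f z = ⟨i, by omega⟩ := Fin.ext h
      rw [← μ.invol z, this, hj]
    · have : μ.f z = ⟨i + 1, hi⟩ := Fin.ext h
      rw [← μ.invol z, this, hl]
  -- from `μ'` to the region
  have key : Compat (μ.cap i) a → a ((j : ℕ) + 1) = a i ∧ a (l : ℕ) = a i := by
    intro hc
    have hjl := hc j
    rw [cj] at hjl
    suffices h : a ((j : ℕ) + 1) = a i ∨ a (l : ℕ) = a i by
      rcases h with h | h
      · exact ⟨h, by rw [← hjl.2, h]⟩
      · exact ⟨by rw [hjl.2, h], h⟩
    rcases Nat.lt_or_ge (j : ℕ) i with hji | hji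
    · left
      refine ket_closed μ m _ _ (by omega) (by omega) (by omega) ?_
      intro z hz1 hz2
      have hz3 : z ≠ ⟨i, by omega⟩ := by intro h; rw [h] at hz2; simp at hz2
      have hz4 : z ≠ ⟨i + 1, hi⟩ := by intro h; rw [h] at hz2; simp at hz2
      have hz5 : z ≠ j := by intro h; rw [h] at hz1; omega
      have hlow : (j : ℕ) + 1 ≤ (μ.f z : ℕ) := by
        by_contra hlt
        have h6 : (μ.f z : ℕ) ≠ j := by
          intro h
          have h7 : μ.f z = j := Fin.ext h
          apply hz3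
          rw [← μ.invol z, h7, hjI]
        refine μ.noncrossing (μ.f z) j ⟨?_, ?_, ?_⟩
        · rw [Fin.lt_def]; omega
        · rw [Fin.lt_def, μ.invol]; omega
        · rw [Fin.lt_def, μ.invol, hjI]; simp only; omega
      have hhigh : (μ.f z : ℕ) < i := by
        by_contra hge
        have h6 : (μ.f z : ℕ) ≠ i := by
          intro h
          have h7 : μ.f z = ⟨i, by omega⟩ := Fin.ext h
          apply hz5
          rw [← μ.invol z, h7, hj]
        refine μ.noncrossing j z ⟨?_, ?_, ?_⟩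
        · rw [Fin.lt_def]; omega
        · rw [Fin.lt_def, hjI]; simp only; omega
        · rw [Fin.lt_def, hjI]; simp only; omega
      have hz6 : z ≠ l := by
        intro h
        rw [h, hlJ] at hhigh
        simp only at hhigh
        omega
      have := (hc z).1
      rw [cz z hz3 hz4 hz5 hz6] at this
      exact ⟨⟨hlow, hhigh⟩, this⟩
    · right
      have hji' : i + 1 < (j : ℕ) := by omega
      have hl1 : i + 1 < (l : ℕ) := by
        by_contra hlt
        refine μ.noncrossing l ⟨i, by omega⟩ ⟨?_, ?_, ?_⟩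
        · rw [Fin.lt_def]; simp only; omega
        · rw [Fin.lt_def, hlJ]; simp only; omega
        · rw [Fin.lt_def, hlJ, hj]; simp only; omega
      rw [hx]
      refine (ket_closed μ m (i + 2) l (by omega) (by omega) (by omega) ?_).symm
      intro z hz1 hz2
      have hz3 : z ≠ ⟨i, by omega⟩ := by intro h; rw [h] at hz1; simp at hz1
      have hz4 : z ≠ ⟨i + 1, hi⟩ := by intro h; rw [h] at hz1; simp at hz1
      have hz6 : z ≠ l := by intro h; rw [h] at hz2; omega
      have hlow : i + 2 ≤ (μ.f z : ℕ) := by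
        by_contra hlt
        have h6 : (μ.f z : ℕ) ≠ i + 1 := by
          intro h
          have h7 : μ.f z = ⟨i + 1, hi⟩ := Fin.ext h
          apply hz6
          rw [← μ.invol z, h7, hl]
        refine μ.noncrossing (μ.f z) ⟨i + 1, hi⟩ ⟨?_, ?_, ?_⟩
        · rw [Fin.lt_def]; simp only; omega
        · rw [Fin.lt_def, μ.invol]; simp only; omega
        · rw [Fin.lt_def, μ.invol, hl]; omega
      have hhigh : (μ.f z : ℕ) < l := by
        by_contra hge
        have h6 : (μ.f z : ℕ) ≠ l := by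
          intro h
          have h7 : μ.f z = l := Fin.ext h
          apply hz4
          rw [← μ.invol z, h7, hlJ]
        refine μ.noncrossing ⟨i + 1, hi⟩ z ⟨?_, ?_, ?_⟩
        · rw [Fin.lt_def]; simp only; omega
        · rw [Fin.lt_def, hl]; omega
        · rw [Fin.lt_def, hl]; omega
      have hz5 : z ≠ j := by
        intro h
        rw [h, hjI] at hlow
        simp only at hlow
        omega
      have := (hc z).1
      rw [cz z hz3 hz4 hz5 hz6] at this
      exact ⟨⟨hlow, hhigh⟩, this⟩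
  have comp1 : ∀ u, Compat μ (v u) → u = a j ∧ Compat (μ.cap i) a := by
    intro u hc
    have hI := hc ⟨i, by omega⟩
    have hJ := hc ⟨i + 1, hi⟩
    rw [hj] at hI
    rw [hl] at hJ
    simp only at hI hJ
    rw [vne u i (by omega), vne u _ (by omega), veq, vne u _ (by omega)] at hI
    rw [veq, vne u _ (by omega), vne u _ (by omega), vne u _ (by omega)] at hJ
    refine ⟨hI.2, fun z => ?_⟩
    by_cases z1 : z = ⟨i, by omega⟩
    · subst z1
      rw [cI]
      simp only
      exact ⟨hx, trivial⟩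
    by_cases z2 : z = ⟨i + 1, hi⟩
    · subst z2
      rw [cJ]
      simp only
      exact ⟨trivial, hx.symm⟩
    by_cases z3 : z = j
    · subst z3
      rw [cj]
      exact ⟨by rw [← hI.2, hJ.1], by rw [← hI.1, ← hJ.2, hx]⟩
    by_cases z4 : z = l
    · subst z4
      rw [cl]
      exact ⟨by rw [← hI.1, ← hJ.2, hx], by rw [← hI.2, hJ.1]⟩
    obtain ⟨h1, h2, h3, h4⟩ := oth z z1 z2 z3 z4
    rw [cz z z1 z2 z3 z4]
    have := hc z
    rwa [vne u _ (by omega), vne u _ (by omega), vne u _ (by omega), vne u _ (by omega)] at this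
  have comp2 : Compat (μ.cap i) a → Compat μ (v (a j)) := by
    intro hc z
    obtain ⟨k1, k2⟩ := key hc
    have hjl := hc j
    rw [cj] at hjl
    by_cases z1 : z = ⟨i, by omega⟩
    · subst z1
      rw [hj]
      simp only
      rw [vne _ i (by omega), vne _ _ (by omega), veq, vne _ _ (by omega)]
      exact ⟨k1.symm, rfl⟩
    by_cases z2 : z = ⟨i + 1, hi⟩
    · subst z2
      rw [hl]
      simp only
      rw [veq, vne _ _ (by omega), vne _ _ (by omega), vne _ _ (by omega)]
      exact ⟨hjl.1, by rw [k2]; exact hx.symm⟩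
    by_cases z3 : z = j
    · subst z3
      rw [hjI]
      simp only
      rw [veq, vne _ _ (by omega), vne _ _ (by omega), vne _ i (by omega)]
      exact ⟨rfl, k1⟩
    by_cases z4 : z = l
    · subst z4
      rw [hlJ]
      simp only
      rw [veq, vne _ _ (by omega), vne _ _ (by omega), vne _ _ (by omega)]
      exact ⟨by rw [k2]; exact hx, hjl.1.symm⟩
    obtain ⟨h1, h2, h3, h4⟩ := oth z z1 z2 z3 z4
    have := hc z
    rw [cz z z1 z2 z3 z4] at this
    rwa [vne _ _ (by omega), vne _ _ (by omega), vne _ _ (by omega), vne _ _ (by omega)]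
  rw [UU, if_pos ⟨ha, hx⟩]
  by_cases hc : Compat (μ.cap i) a
  swap
  · rw [ket_zero b R (μ.cap i) a (fun h => hc h.2),
      ket_zero b R μ _ (fun h => hc (comp1 _ h.2).2), ket_zero b R μ _ (fun h => hc (comp1 _ h.2).2)]
    ring
  obtain ⟨k1, k2⟩ := key hc
  have hjl := hc j
  rw [cj] at hjl
  have hstep : a j = a i + 1 ∨ a j + 1 = a i := by
    have := ha.2.2.1 j hjm
    rw [k1] at this
    omega
  have hpth : Pth R m (v (a j)) := ket_up hi ha hx hstep (ha.2.2.2 j).1 (ha.2.2.2 j).2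
  have hsum : ket b R μ (Function.update a (i + 1) (a i + 1)) +
      ket b R μ (Function.update a (i + 1) (a i - 1)) = ket b R μ (v (a j)) := by
    rcases hstep with h | h
    · have h0 : ket b R μ (Function.update a (i + 1) (a i - 1)) = 0 :=
        ket_zero b R μ _ (fun h' => by have := (comp1 _ h'.2).1; omega)
      rw [h0, add_zero, hv, h]
    · have h0 : ket b R μ (Function.update a (i + 1) (a i + 1)) = 0 :=
        ket_zero b R μ _ (fun h' => by have := (comp1 _ h'.2).1; omega)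
      have h1 : a i - 1 = a j := by omega
      rw [h0, zero_add, hv, h1]
  rw [hsum, ket_eq b R μ _ hpth (comp2 hc), ket_eq b R (μ.cap i) _ ha hc]
  -- the products
  classical
  set S : Finset (Fin m) := {⟨i, by omega⟩, ⟨i + 1, hi⟩, j, l} with hS
  have hIJ : (⟨i, by omega⟩ : Fin m) ≠ ⟨i + 1, hi⟩ := by
    intro h; have := congrArg Fin.val h; simp at this
  have hIj : (⟨i, by omega⟩ : Fin m) ≠ j := fun h => j_ne_i (by rw [← h])
  have hIl : (⟨i, by omega⟩ : Fin m) ≠ l := fun h => l_ne_i (by rw [← h])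
  have hJj : (⟨i + 1, hi⟩ : Fin m) ≠ j := fun h => j_ne_i1 (by rw [← h])
  have hJl : (⟨i + 1, hi⟩ : Fin m) ≠ l := fun h => l_ne_i1 (by rw [← h])
  have hjl' : j ≠ l := fun h => j_ne_l (by rw [h])
  have hprod : ∀ g : Fin m → ℂ, ∏ x, g x =
      (g ⟨i, by omega⟩ * (g ⟨i + 1, hi⟩ * (g j * g l))) * ∏ x ∈ Sᶜ, g x := by
    intro g
    rw [← prod_mul_prod_compl S g, hS, prod_insert (by simp [hIJ, hIj, hIl]),
      prod_insert (by simp [hJj, hJl]), prod_insert (by simp [hjl']), prod_singleton]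
  rw [hprod (ketW b μ.f (v (a j))), hprod (ketW b (μ.cap i).f a), ← mul_assoc]
  have hrest : ∏ x ∈ Sᶜ, ketW b μ.f (v (a j)) x = ∏ x ∈ Sᶜ, ketW b (μ.cap i).f a x := by
    refine prod_congr rfl fun z hz => ?_
    rw [mem_compl, hS] at hz
    simp only [mem_insert, mem_singleton, not_or] at hz
    obtain ⟨z1, z2, z3, z4⟩ := hz
    obtain ⟨h1, h2, h3, h4⟩ := oth z z1 z2 z3 z4
    rw [ketW, ketW, cz z z1 z2 z3 z4, vne _ _ (by omega)]
  rw [hrest]
  congr 1
  have hbx : b (a i) ≠ 0 := hb.ne _ (ha.2.2.2 i).1 (ha.2.2.2 i).2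
  have hx2 : a (i + 1 + 1) = a i := hx.symm
  have hlt : ∀ (x y : Fin m) (c : ℂ), (x : ℕ) < y → (if x < y then c else 1) = c := by
    intro x y c h; exact if_pos h
  have hge : ∀ (x y : Fin m) (c : ℂ), (y : ℕ) ≤ x → (if x < y then c else 1) = 1 := by
    intro x y c h; exact if_neg (by rw [Fin.lt_def]; omega)
  simp only [ketW]
  rw [hj, hl, hjI, hlJ, cI, cJ, cj, cl]
  rcases Nat.lt_or_ge (j : ℕ) i with hji | hji
  · rcases Nat.lt_or_ge (l : ℕ) i with hli | hli
    · have hlj : (l : ℕ) < j := by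
        by_contra hlt'
        refine μ.noncrossing j l ⟨?_, ?_, ?_⟩
        · rw [Fin.lt_def]; omega
        · rw [Fin.lt_def, hjI]; simp only; omega
        · rw [Fin.lt_def, hjI, hlJ]; simp
      rw [hge _ j _ (by simp only; omega), hge _ l _ (by simp only; omega), hlt j _ _ (by simp only; omega),
        hlt l _ _ (by simp only; omega), hlt _ _ _ (by simp), hge _ _ _ (by simp), hge j l _ (by omega),
        hlt l j _ hlj, vne _ _ (by omega), vne _ _ (by omega), k1, ← hjl.1]
      field_simp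
    · have hli' : i + 1 < (l : ℕ) := by omega
      rw [hge _ j _ (by simp only; omega), hlt _ l _ (by simp only; omega), hlt j _ _ (by simp only; omega),
        hge l _ _ (by simp only; omega), hlt _ _ _ (by simp), hge _ _ _ (by simp), hlt j l _ (by omega),
        hge l j _ (by omega), vne _ _ (by omega), vne _ _ (by omega), k1]
      rw [hx2]
      field_simp
  · have hji' : i + 1 < (j : ℕ) := by omega
    have hl1 : i + 1 < (l : ℕ) := by
      by_contra hlt'
      refine μ.noncrossing l ⟨i, by omega⟩ ⟨?_, ?_, ?_⟩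
      · rw [Fin.lt_def]; simp only; omega
      · rw [Fin.lt_def, hlJ]; simp only; omega
      · rw [Fin.lt_def, hlJ, hj]; simp only; omega
    have hlj : (l : ℕ) < j := by
      by_contra hlt'
      refine μ.noncrossing ⟨i, by omega⟩ ⟨i + 1, hi⟩ ⟨?_, ?_, ?_⟩
      · rw [Fin.lt_def]; simp
      · rw [Fin.lt_def, hj]; simp only; omega
      · rw [Fin.lt_def, hj, hl]; omega
    rw [hlt _ j _ (by simp only; omega), hlt _ l _ (by simp only; omega), hge j _ _ (by simp only; omega),
      hge l _ _ (by simp only; omega), hlt _ _ _ (by simp), hge _ _ _ (by simp), hge j l _ (by omega),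
      hlt l j _ hlj]
    rw [veq, vne _ _ (by omega), hx2, ← hjl.1]
    field_simp

theorem sKet : S_Ket := by
  intro hCap d b R m i hb hi μ a
  have hcap := hCap m μ i hi
  by_cases hP : Pth R m a
  swap
  · rw [ket_zero b R _ a (fun h => hP h.1), mul_zero, UU, if_neg (fun h => hP h.1)]
  by_cases hx : a i = a (i + 2)
  swap
  · rw [UU, if_neg (fun h => hx h.2), ket_zero b R _ a, mul_zero]
    rintro ⟨_, h⟩
    have h1 := (h ⟨i, by omega⟩).1
    rw [ket_cap_I μ hi hcap] at h1
    exact hx h1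
  by_cases hμ : μ.f ⟨i, by omega⟩ = ⟨i + 1, hi⟩
  · have h1 : lp μ i = 1 := by rw [lp, if_pos ⟨hi, hμ⟩]
    have h2 : ket b R (μ.cap i) a = ket b R μ a := by
      have h3 : (μ.cap i).f = μ.f := by
        rw [hcap]
        funext z
        have hμ' : μ.f ⟨i + 1, hi⟩ = ⟨i, by omega⟩ := by rw [← hμ, μ.invol]
        rw [capF]
        split_ifs with h4 h5 h6 h7
        · rw [h4, hμ]
        · rw [h5, hμ']
        · exfalso; apply h5; rw [← μ.invol z, h6, hμ]
        · exfalso; apply h4; rw [← μ.invol z, h7, hμ']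
        · rfl
      have h4 : μ.cap i = μ := by
        have : ∀ ν ν' : Matching m, ν.f = ν'.f → ν = ν' := by
          rintro ⟨_, _, _, _⟩ ⟨_, _, _, _⟩ h
          cases h
          rfl
        exact this _ _ h3
      rw [h4]
    rw [h1, h2, pow_one]
    exact ket_case1 hb hi μ hμ hP hx
  · have h1 : lp μ i = 0 := by
      rw [lp, if_neg]
      rintro ⟨_, h⟩
      exact hμ h
    rw [h1, pow_zero, one_mul]
    exact ket_case2 hb hi μ hcap hμ hP hx

end MP_fc1011_gt.MT
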