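import Pool.Agent.Lib.MP_fc1011_gt.MT.Spec

set_option autoImplicit false

namespace MP_fc1011_gt.MT

open Finset

private theorem pair_ext {m : ℕ} {μ ν : Matching m} (h : μ.f = ν.f) : μ = ν := by
  cases μ
  cases ν
  cases h
  rfl

private theorem pair_right (b : ℕ → ℂ) (R m : ℕ) (c : ℂ) (φ ψ : (ℕ → ℕ) → ℂ) :
    BB b R m φ (fun a => c * ψ a) = c * BB b R m φ ψ := by
  unfold BB
  rw [mul_sum]
  refine sum_congr rfl (fun a _ => ?_)
  ring

private theorem pair_left (b : ℕ → ℂ) (R m : ℕ) (c : ℂ) (φ ψ : (ℕ → ℕ) → ℂ) :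
    BB b R m (fun a => c * φ a) ψ = c * BB b R m φ ψ := by
  unfold BB
  rw [mul_sum]
  refine sum_congr rfl (fun a _ => ?_)
  ring

private theorem pair_supp (b : ℕ → ℂ) (R : ℕ) {m : ℕ} (μ : Matching m) :
    Supp R m (ket b R μ) := by
  intro a ha
  unfold ket
  rw [if_neg (fun h => ha h.1)]

private theorem pair_K (hCap : S_Cap) (hFin : S_Fin) (hKet : S_Ket) (hSym : S_Sym) (d : ℂ)
    (b : ℕ → ℂ) (R m : ℕ) (h : Hts d b R m) (i : ℕ) (hi : i + 1 < m) (μ ν : Matching m) :
    d ^ lp ν i * BB b R m (ket b R (ν.cap i)) (ket b R μ) =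
      d ^ lp μ i * BB b R m (ket b R ν) (ket b R (μ.cap i)) := by
  have h1 := hSym hFin d b R m i h hi (ket b R ν) (ket b R μ) (pair_supp b R ν) (pair_supp b R μ)
  have h2 : UU b R m i (ket b R μ) = fun a => d ^ lp μ i * ket b R (μ.cap i) a :=
    funext (fun a => hKet hCap d b R m i h hi μ a)
  have h3 : UU b R m i (ket b R ν) = fun a => d ^ lp ν i * ket b R (ν.cap i) a :=
    funext (fun a => hKet hCap d b R m i h hi ν a)
  rw [h2, h3, pair_right, pair_left] at h1
  exact h1.symm

open Classical in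
/-- the even places which are not joined to the next one -/
private noncomputable def pair_bad {m : ℕ} (μ : Matching m) : Finset ℕ :=
  (range m).filter fun k => k % 2 = 0 ∧ ∃ hk : k + 1 < m, μ.f ⟨k, by omega⟩ ≠ ⟨k + 1, hk⟩

private theorem pair_step (hCap : S_Cap) {m : ℕ} (μ : Matching m) (i : ℕ) (hi : i + 1 < m)
    (hi2 : i % 2 = 0) (hb : i ∈ pair_bad μ) : (pair_bad (μ.cap i)).card < (pair_bad μ).card := by
  classical
  have hsub : pair_bad (μ.cap i) ⊆ (pair_bad μ).erase i := by
    intro k hk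
    unfold pair_bad at hk
    rw [mem_filter] at hk
    obtain ⟨hk1, hk2, hk3, hk4⟩ := hk
    rw [hCap m μ i hi] at hk4
    have hki : k ≠ i := by
      intro h
      subst h
      apply hk4
      unfold capF
      rw [if_pos rfl]
    rw [mem_erase]
    refine ⟨hki, ?_⟩
    unfold pair_bad
    rw [mem_filter]
    refine ⟨hk1, hk2, hk3, fun h => hk4 ?_⟩
    unfold capF
    rw [h]
    have e1 : ¬ (⟨k, by omega⟩ : Fin m) = ⟨i, by omega⟩ := by
      intro h'
      exact hki (congrArg Fin.val h')
    have e2 : ¬ (⟨k, by omega⟩ : Fin m) = ⟨i + 1, hi⟩ := by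
      intro h'
      have := congrArg Fin.val h'
      simp only at this
      omega
    have e3 : ¬ (⟨k + 1, hk3⟩ : Fin m) = ⟨i, by omega⟩ := by
      intro h'
      have := congrArg Fin.val h'
      simp only at this
      omega
    have e4 : ¬ (⟨k + 1, hk3⟩ : Fin m) = ⟨i + 1, hi⟩ := by
      intro h'
      have := congrArg Fin.val h'
      simp only at this
      omega
    rw [if_neg e1, if_neg e2, if_neg e3, if_neg e4]
  have h1 := card_le_card hsub
  rw [card_erase_of_mem hb] at h1
  have h2 : 0 < (pair_bad μ).card := card_pos.2 ⟨i, hb⟩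
  omega

private theorem pair_std (hCap : S_Cap) (hCol : S_Col) (hExch : S_Exch) (hFin : S_Fin)
    (hKet : S_Ket) (hSym : S_Sym) (hBStd : S_BStd) (d : ℂ) (b : ℕ → ℂ) (R m : ℕ)
    (h : Hts d b R m) (hd : d ≠ 0) (μ₀ : Matching m) (h₀ : IsStd μ₀) :
    ∀ (N : ℕ) (μ : Matching m), (pair_bad μ).card ≤ N →
      BB b R m (ket b R μ₀) (ket b R μ) = d ^ cyc μ₀ μ := by
  classical
  have hev : ∀ k : ℕ, k < m → k % 2 = 0 → k + 1 < m := by
    intro k hk hk2
    have h1 := (h₀ ⟨k, hk⟩).1 hk2
    have h2 := (μ₀.f ⟨k, hk⟩).2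
    rw [h1] at h2
    exact h2
  intro N
  induction N with
  | zero =>
    intro μ hμ
    have hE : pair_bad μ = ∅ := card_eq_zero.1 (Nat.le_zero.1 hμ)
    have h1 : ∀ k (hk : k + 1 < m), k % 2 = 0 → μ.f ⟨k, by omega⟩ = ⟨k + 1, hk⟩ := by
      intro k hk hk2
      by_contra hne
      have : k ∈ pair_bad μ := by
        unfold pair_bad
        rw [mem_filter, mem_range]
        exact ⟨by omega, hk2, hk, hne⟩
      rw [hE] at this
      exact absurd this (notMem_empty k)
    have h2 : μ = μ₀ := by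
      apply pair_ext
      funext x
      apply Fin.ext
      rcases Nat.mod_two_eq_zero_or_one (x : ℕ) with hx | hx
      · have h3 := h1 x (hev x x.2 hx) hx
        have h4 : μ.f x = ⟨(x : ℕ) + 1, hev x x.2 hx⟩ := h3
        rw [h4, (h₀ x).1 hx]
      · have hx1 : (x : ℕ) - 1 + 1 = x := by omega
        have h3 := h1 ((x : ℕ) - 1) (by rw [hx1]; exact x.2) (by omega)
        have h4 : (⟨(x : ℕ) - 1 + 1, by rw [hx1]; exact x.2⟩ : Fin m) = x := Fin.ext hx1
        rw [h4] at h3
        have h5 : μ.f x = ⟨(x : ℕ) - 1, by omega⟩ := by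
          have h7 := congrArg μ.f h3
          rw [μ.invol] at h7
          exact h7.symm
        have h6 := (h₀ x).2 hx
        rw [h5]
        simp only
        omega
    rw [h2]
    exact hBStd hFin d b R m h μ₀ h₀
  | succ N ih =>
    intro μ hμ
    rcases Nat.lt_or_ge N (pair_bad μ).card with hlt | hge
    · obtain ⟨i, hi⟩ : (pair_bad μ).Nonempty := card_pos.1 (by omega)
      have hi' := hi
      unfold pair_bad at hi'
      rw [mem_filter] at hi'
      obtain ⟨-, hi2, him, hine⟩ := hi'
      have hlt2 := pair_step hCap μ i him hi2 hi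
      have h1 := ih (μ.cap i) (by omega)
      have hlp0 : lp μ i = 0 := by
        unfold lp
        rw [if_neg]
        rintro ⟨_, h2⟩
        exact hine h2
      have hf0 : μ₀.f ⟨i, by omega⟩ = ⟨i + 1, him⟩ := Fin.ext ((h₀ ⟨i, by omega⟩).1 hi2)
      have hf1 : μ₀.f ⟨i + 1, him⟩ = ⟨i, by omega⟩ := by
        rw [← hf0, μ₀.invol]
      have hlp1 : lp μ₀ i = 1 := by
        unfold lp
        rw [if_pos ⟨him, hf0⟩]
      have hcap : μ₀.cap i = μ₀ := by
        apply pair_ext
        rw [hCap m μ₀ i him]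
        funext x
        unfold capF
        by_cases e1 : x = ⟨i, by omega⟩
        · rw [if_pos e1, e1, hf0]
        · rw [if_neg e1]
          by_cases e2 : x = ⟨i + 1, him⟩
          · rw [if_pos e2, e2, hf1]
          · rw [if_neg e2]
            have e3 : ¬ μ₀.f x = ⟨i, by omega⟩ := by
              intro h'
              apply e2
              rw [← hf0, ← h', μ₀.invol]
            have e4 : ¬ μ₀.f x = ⟨i + 1, him⟩ := by
              intro h'
              apply e1
              rw [← hf1, ← h', μ₀.invol]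
            rw [if_neg e3, if_neg e4]
      have h2 := pair_K hCap hFin hKet hSym d b R m h i him μ μ₀
      rw [hcap, hlp1, hlp0, pow_one, pow_zero, one_mul, h1] at h2
      have h3 := hExch hCap hCol m μ₀ μ i him
      rw [hcap, hlp1, hlp0, add_zero] at h3
      rw [← h3, pow_succ, mul_comm (d ^ _)] at h2
      exact mul_left_cancel₀ hd h2
    · exact ih μ hge

theorem sPair : S_Pair := by
  intro hCap hCol hExch hReach hFin hKet hSym hBStd d b R m h
  have hd : d ≠ 0 := by
    have h1 := h.rc 0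
    rw [zero_add, zero_add, h.b1, h.b0, mul_one, sub_zero] at h1
    rw [← h1]
    exact h.ne 2 (by norm_num) h.two
  have key : ∀ (N : ℕ) (μ ν : Matching m), len ν ≤ N →
      BB b R m (ket b R ν) (ket b R μ) = d ^ cyc ν μ := by
    intro N
    induction N with
    | zero =>
      intro μ ν hν
      rcases hReach hCap m ν with hs | ⟨i, ν', -, -, -, hlt⟩
      · exact pair_std hCap hCol hExch hFin hKet hSym hBStd d b R m h hd ν hs _ μ le_rfl
      · omega
    | succ N ih =>
      intro μ ν hν
      rcases hReach hCap m ν with hs | ⟨i, ν', hi, hl, hc, hlt⟩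
      · exact pair_std hCap hCol hExch hFin hKet hSym hBStd d b R m h hd ν hs _ μ le_rfl
      · have h1 := ih (μ.cap i) ν' (by omega)
        have h2 := pair_K hCap hFin hKet hSym d b R m h i hi μ ν'
        rw [hc, hl, pow_zero, one_mul, h1, ← pow_add] at h2
        have h3 := hExch hCap hCol m ν' μ i hi
        rw [hc, hl, add_zero] at h3
        rw [h2, h3, add_comm]
  intro μ ν
  exact key _ μ ν le_rfl

end MP_fc1011_gt.MT
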