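import Pool.Agent.Lib.MP_fc1011_gt.MT.Spec

/-!
# Every crossingless matching is reachable from the standard one
-/

set_option autoImplicit false

namespace MP_fc1011_gt.MT

open Finset

private theorem reach_ext {m : ℕ} (μ ν : Matching m) (h : μ.f = ν.f) : μ = ν := by
  cases μ
  cases ν
  cases h
  rfl

private theorem reach_std {m : ℕ} (μ : Matching m)
    (h : ∀ x : Fin m, (μ.f x : ℕ) = x + 1 ∨ (μ.f x : ℕ) + 1 = x) : IsStd μ := by
  have key : ∀ n : ℕ, ∀ x : Fin m, (x : ℕ) = n →
      ((x : ℕ) % 2 = 0 → (μ.f x : ℕ) = x + 1) ∧ ((x : ℕ) % 2 = 1 → (μ.f x : ℕ) + 1 = x) := by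
    intro n
    induction n using Nat.strong_induction_on with
    | _ n ih =>
      intro x hx
      constructor
      · intro h0
        rcases h x with h1 | h1
        · exact h1
        · exfalso
          have h2 := (ih (μ.f x : ℕ) (by omega) (μ.f x) rfl).2 (by omega)
          rw [μ.invol] at h2
          omega
      · intro h0
        rcases h x with h1 | h1
        · exfalso
          have hlt : (x : ℕ) - 1 < m := by
            have := x.2
            omega
          have h2 := (ih ((x : ℕ) - 1) (by omega) ⟨(x : ℕ) - 1, hlt⟩ rfl).1 (by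
            show ((x : ℕ) - 1) % 2 = 0
            omega)
          have h3 : μ.f ⟨(x : ℕ) - 1, hlt⟩ = x := by
            apply Fin.ext
            rw [h2]
            show (x : ℕ) - 1 + 1 = x
            omega
          have h4 := μ.invol ⟨(x : ℕ) - 1, hlt⟩
          rw [h3] at h4
          rw [h4] at h1
          have h5 : (x : ℕ) - 1 = (x : ℕ) + 1 := h1
          omega
        · exact h1
  intro x
  exact key _ x rfl

/-- the arcs inside of an arc -/
private theorem reach_inside {m : ℕ} (μ : Matching m) (a z : Fin m) (h1 : a < z) (h2 : z < μ.f a) :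
    a < μ.f z ∧ μ.f z < μ.f a := by
  have hz1 : μ.f z ≠ a := by
    intro h
    have := μ.invol z
    rw [h] at this
    exact absurd this (ne_of_gt h2)
  have hz2 : μ.f z ≠ μ.f a := by
    intro h
    have h3 := μ.invol z
    rw [h, μ.invol] at h3
    exact absurd h3 (ne_of_lt h1)
  constructor
  · by_contra h
    have h3 : μ.f z < a := lt_of_le_of_ne (not_lt.1 h) hz1
    exact μ.noncrossing (μ.f z) a ⟨h3, by rw [μ.invol]; exact h1, by rw [μ.invol]; exact h2⟩
  · by_contra h
    have h3 : μ.f a < μ.f z := lt_of_le_of_ne (not_lt.1 h) (Ne.symm hz2)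
    exact μ.noncrossing a z ⟨h1, h2, h3⟩

theorem sReach : S_Reach := by
  classical
  intro hCap m μ
  by_cases hall : ∀ x : Fin m, (μ.f x : ℕ) = x + 1 ∨ (μ.f x : ℕ) + 1 = x
  · exact Or.inl (reach_std μ hall)
  right
  -- a non adjacent arc of minimal length
  have hex : ∃ n : ℕ, ∃ x : Fin m, (μ.f x : ℕ) = x + n ∧ 2 ≤ n := by
    push Not at hall
    obtain ⟨x, hx1, hx2⟩ := hall
    have hne : (μ.f x : ℕ) ≠ x := fun h => μ.ne x (Fin.ext h)
    rcases Nat.lt_or_gt_of_ne hne with h | h
    · refine ⟨(x : ℕ) - μ.f x, μ.f x, ?_, by omega⟩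
      rw [μ.invol]
      omega
    · exact ⟨(μ.f x : ℕ) - x, x, by omega, by omega⟩
  obtain ⟨a, hfa, hn2⟩ := Nat.find_spec hex
  have hmin : ∀ z : Fin m, (z : ℕ) + 2 ≤ μ.f z → Nat.find hex ≤ (μ.f z : ℕ) - z := by
    intro z hz
    exact Nat.find_min' hex ⟨z, by omega, by omega⟩
  generalize Nat.find hex = n at hfa hn2 hmin
  set d := μ.f a with hd
  have hfd : μ.f d = a := μ.invol a
  have hdm := d.2
  let b : Fin m := ⟨(a : ℕ) + 1, by omega⟩
  have hb : (b : ℕ) = a + 1 := rfl
  have hfb : (μ.f b : ℕ) = a + 2 := by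
    have h1 := reach_inside μ a b (by rw [Fin.lt_def]; omega) (by rw [← hd, Fin.lt_def]; omega)
    rw [← hd, Fin.lt_def, Fin.lt_def] at h1
    have h2 := hmin b
    have h3 : μ.f b ≠ b := μ.ne b
    have h4 : (μ.f b : ℕ) ≠ b := fun h => h3 (Fin.ext h)
    by_contra hne
    have h5 := h2 (by omega)
    omega
  set c := μ.f b with hc
  have hfc : μ.f c = b := μ.invol b
  have hcd : (a : ℕ) + 2 < d := by
    have h1 := reach_inside μ a b (by rw [Fin.lt_def]; omega) (by rw [← hd, Fin.lt_def]; omega)
    rw [← hd, ← hc, Fin.lt_def, Fin.lt_def] at h1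
    omega
  have nab : a ≠ b := fun h => by have := congrArg Fin.val h; omega
  have nac : a ≠ c := fun h => by have := congrArg Fin.val h; omega
  have nad : a ≠ d := fun h => by have := congrArg Fin.val h; omega
  have nbc : b ≠ c := fun h => by have := congrArg Fin.val h; omega
  have nbd : b ≠ d := fun h => by have := congrArg Fin.val h; omega
  have ncd : c ≠ d := fun h => by have := congrArg Fin.val h; omega
  -- the new matching
  let g : Fin m → Fin m := fun z =>
    if z = a then b else if z = b then a else if z = c then d else if z = d then c else μ.f z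
  have ga : g a = b := by simp [g]
  have gb : g b = a := by simp [g, nab.symm]
  have gc : g c = d := by simp [g, nac.symm, nbc.symm]
  have gd : g d = c := by simp [g, nad.symm, nbd.symm, ncd.symm]
  have go : ∀ z, z ≠ a → z ≠ b → z ≠ c → z ≠ d → g z = μ.f z := by
    intro z h1 h2 h3 h4
    simp [g, h1, h2, h3, h4]
  have fo : ∀ z, z ≠ a → z ≠ b → z ≠ c → z ≠ d →
      μ.f z ≠ a ∧ μ.f z ≠ b ∧ μ.f z ≠ c ∧ μ.f z ≠ d := by
    intro z h1 h2 h3 h4
    refine ⟨fun h => h4 ?_, fun h => h3 ?_, fun h => h2 ?_, fun h => h1 ?_⟩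
    · rw [hd, ← h, μ.invol]
    · rw [hc, ← h, μ.invol]
    · rw [← μ.invol z, h, hfc]
    · rw [← μ.invol z, h, hfd]
  let ν : Matching m :=
    { f := g
      invol := by
        intro z
        by_cases h1 : z = a
        · rw [h1, ga, gb]
        by_cases h2 : z = b
        · rw [h2, gb, ga]
        by_cases h3 : z = c
        · rw [h3, gc, gd]
        by_cases h4 : z = d
        · rw [h4, gd, gc]
        obtain ⟨e1, e2, e3, e4⟩ := fo z h1 h2 h3 h4
        rw [go z h1 h2 h3 h4, go _ e1 e2 e3 e4, μ.invol]
      ne := by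
        intro z
        by_cases h1 : z = a
        · rw [h1, ga]
          exact nab.symm
        by_cases h2 : z = b
        · rw [h2, gb]
          exact nab
        by_cases h3 : z = c
        · rw [h3, gc]
          exact ncd.symm
        by_cases h4 : z = d
        · rw [h4, gd]
          exact ncd
        rw [go z h1 h2 h3 h4]
        exact μ.ne z
      noncrossing := by
        rintro p q ⟨h1, h2, h3⟩
        by_cases p1 : p = a
        · rw [p1, ga, Fin.lt_def] at h2
          rw [p1, Fin.lt_def] at h1
          omega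
        by_cases p2 : p = b
        · rw [p2, gb, Fin.lt_def] at h2
          rw [p2, Fin.lt_def] at h1
          omega
        by_cases p3 : p = c
        · rw [p3, gc] at h2 h3
          rw [p3] at h1
          rw [Fin.lt_def] at h1 h2
          have hi := reach_inside μ a q (by rw [Fin.lt_def]; omega)
            (by rw [← hd, Fin.lt_def]; omega)
          have q1 : q ≠ a := fun h => by have := congrArg Fin.val h; omega
          have q2 : q ≠ b := fun h => by have := congrArg Fin.val h; omega
          have q3 : q ≠ c := fun h => by have := congrArg Fin.val h; omega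
          have q4 : q ≠ d := fun h => by have := congrArg Fin.val h; omega
          rw [go q q1 q2 q3 q4] at h3
          exact absurd h3 (not_lt.2 (le_of_lt hi.2))
        by_cases p4 : p = d
        · rw [p4, gd, Fin.lt_def] at h2
          rw [p4, Fin.lt_def] at h1
          omega
        rw [go p p1 p2 p3 p4] at h2 h3
        by_cases q1 : q = a
        · rw [q1, ga, Fin.lt_def] at h3
          rw [q1, Fin.lt_def] at h2
          omega
        by_cases q2 : q = b
        · rw [q2, gb, Fin.lt_def] at h3
          rw [q2, Fin.lt_def] at h2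
          omega
        by_cases q3 : q = c
        · rw [q3, gc] at h3
          rw [q3] at h1 h2
          have p5 : p < a := by
            rw [Fin.lt_def] at h1 ⊢
            have e1 : (p : ℕ) ≠ a := fun h => p1 (Fin.ext h)
            have e2 : (p : ℕ) ≠ b := fun h => p2 (Fin.ext h)
            omega
          refine μ.noncrossing p a ⟨p5, ?_, ?_⟩
          · rw [Fin.lt_def] at h2 ⊢
            omega
          · rw [← hd]
            exact h3
        by_cases q4 : q = d
        · rw [q4, gd, Fin.lt_def] at h3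
          rw [q4, Fin.lt_def] at h2
          omega
        rw [go q q1 q2 q3 q4] at h3
        exact μ.noncrossing p q ⟨h1, h2, h3⟩ }
  have hνf : ν.f = g := rfl
  have him : (a : ℕ) + 1 + 1 < m := by omega
  have hcb : (⟨(a : ℕ) + 1 + 1, him⟩ : Fin m) = c := Fin.ext hfb.symm
  refine ⟨(a : ℕ) + 1, ν, him, ?_, ?_, ?_⟩
  · unfold lp
    rw [if_neg]
    rintro ⟨hi, h⟩
    have h1 : ν.f b = c := by
      rw [← hcb]
      exact h
    rw [hνf, gb] at h1
    exact nac h1
  · apply reach_ext
    rw [hCap m ν ((a : ℕ) + 1) him, hcb]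
    funext z
    show capF g b c z = μ.f z
    unfold capF
    by_cases h1 : z = b
    · rw [if_pos h1, h1]
    by_cases h2 : z = c
    · rw [if_neg h1, if_pos h2, h2, hfc]
    rw [if_neg h1, if_neg h2]
    by_cases h3 : z = a
    · rw [h3, ga, if_pos rfl, gc]
    by_cases h4 : z = d
    · rw [h4, gd, if_neg nbc.symm, if_pos rfl, gb, hfd]
    obtain ⟨e1, e2, e3, e4⟩ := fo z h3 h1 h2 h4
    rw [go z h3 h1 h2 h4, if_neg e2, if_neg e3]
  · unfold len
    rw [← Finset.sum_add_sum_compl ({a, b, c, d} : Finset (Fin m)),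
      ← Finset.sum_add_sum_compl ({a, b, c, d} : Finset (Fin m)) (fun x => _)]
    have hrest : ∑ x ∈ ({a, b, c, d} : Finset (Fin m))ᶜ, (((ν.f x : ℕ) : ℤ) - (x : ℕ)).natAbs =
        ∑ x ∈ ({a, b, c, d} : Finset (Fin m))ᶜ, (((μ.f x : ℕ) : ℤ) - (x : ℕ)).natAbs := by
      apply Finset.sum_congr rfl
      intro z hz
      simp only [Finset.mem_compl, Finset.mem_insert, Finset.mem_singleton, not_or] at hz
      rw [hνf, go z hz.1 hz.2.1 hz.2.2.1 hz.2.2.2]
    rw [hrest]
    apply Nat.add_lt_add_right
    rw [Finset.sum_insert (by simp [nab, nac, nad]), Finset.sum_insert (by simp [nbc, nbd]),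
      Finset.sum_insert (by simp [ncd]), Finset.sum_singleton,
      Finset.sum_insert (by simp [nab, nac, nad]), Finset.sum_insert (by simp [nbc, nbd]),
      Finset.sum_insert (by simp [ncd]), Finset.sum_singleton, hνf, ga, gb, gc, gd, hfd, ← hc, hfc,
      ← hd]
    omega

end MP_fc1011_gt.MT
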