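import Pool.Agent.Lib.MP_fc1011_gt.MT.Spec

/-!
# MP_fc1011_gt, multi-strand twisting: the state sum
-/

set_option autoImplicit false

namespace MP_fc1011_gt.MT

open LaurentPolynomial Finset

namespace StateAux

variable {m : ℕ}

/-- the condition at a crossing -/
def Step (c : ℕ × Bool) (b : Bool) (u v : Fin m → Bool) : Prop :=
  (∀ x : Fin m, (b = true ∨ ((x : ℕ) ≠ c.1 ∧ (x : ℕ) ≠ c.1 + 1)) → u x = v x) ∧
  ∀ x y : Fin m, b = false → (x : ℕ) = c.1 → (y : ℕ) = c.1 + 1 → u x = u y ∧ v x = v y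

/-- all conditions except for the one of the upper matching -/
def Tail (cs : List (ℕ × Bool)) (ν : Matching m) (s : Fin cs.length → Bool)
    (y : Fin (cs.length + 1) → Fin m → Bool) : Prop :=
  (∀ x, y (Fin.last _) (ν.f x) = y (Fin.last _) x) ∧
    ∀ j : Fin cs.length, Step (cs.get j) (s j) (y j.castSucc) (y j.succ)

/-- colourings of the pieces which are constant on the loops -/
def loopsEquiv (cs : List (ℕ × Bool)) (μ ν : Matching m) (s : Fin cs.length → Bool) :
    (Quot (Joined cs μ ν s) → Bool) ≃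
      {y : Fin (cs.length + 1) → Fin m → Bool // (∀ x, y 0 (μ.f x) = y 0 x) ∧ Tail cs ν s y} where
  toFun g := ⟨fun j x => g (Quot.mk _ (j, x)), by
    refine ⟨fun x => ?_, fun x => ?_, fun j => ⟨fun x hx => ?_, fun x y hs hx hy => ⟨?_, ?_⟩⟩⟩
    · show g (Quot.mk _ (0, μ.f x)) = g (Quot.mk _ (0, x))
      rw [Quot.sound (Joined.top (cs := cs) (μ := μ) (ν := ν) (s := s) x)]
    · show g (Quot.mk _ (Fin.last _, ν.f x)) = g (Quot.mk _ (Fin.last _, x))
      rw [Quot.sound (Joined.bottom (cs := cs) (μ := μ) (ν := ν) (s := s) x)]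
    · show g (Quot.mk _ (j.castSucc, x)) = g (Quot.mk _ (j.succ, x))
      rw [Quot.sound (Joined.through (cs := cs) (μ := μ) (ν := ν) (s := s) j x hx)]
    · show g (Quot.mk _ (j.castSucc, x)) = g (Quot.mk _ (j.castSucc, y))
      rw [Quot.sound (Joined.above (cs := cs) (μ := μ) (ν := ν) (s := s) j x y hs hx hy)]
    · show g (Quot.mk _ (j.succ, x)) = g (Quot.mk _ (j.succ, y))
      rw [Quot.sound (Joined.below (cs := cs) (μ := μ) (ν := ν) (s := s) j x y hs hx hy)]⟩
  invFun y := Quot.lift (fun p => y.1 p.1 p.2) (by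
    rintro _ _ (x | x | ⟨j, x, hx⟩ | ⟨j, x, y', hs, hx, hy⟩ | ⟨j, x, y', hs, hx, hy⟩)
    · exact (y.2.1 x).symm
    · exact (y.2.2.1 x).symm
    · exact (y.2.2.2 j).1 x hx
    · exact ((y.2.2.2 j).2 x y' hs hx hy).1
    · exact ((y.2.2.2 j).2 x y' hs hx hy).2)
  left_inv g := by
    funext q
    induction q using Quot.ind
    rfl
  right_inv y := rfl

open Classical in
theorem two_pow_loops (cs : List (ℕ × Bool)) (μ ν : Matching m) (s : Fin cs.length → Bool) :
    2 ^ loops cs μ ν s = ∑ y : Fin (cs.length + 1) → Fin m → Bool,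
      if ((∀ x, y 0 (μ.f x) = y 0 x) ∧ Tail cs ν s y) then 1 else 0 := by
  have h1 : Nat.card (Quot (Joined cs μ ν s) → Bool) = 2 ^ loops cs μ ν s := by
    rw [Nat.card_fun]
    simp [loops]
  rw [← h1, Nat.card_congr (loopsEquiv cs μ ν s), Nat.card_eq_fintype_card, Fintype.card_subtype,
    Finset.card_filter]

open Classical in
theorem two_pow_loops_cons (c : ℕ × Bool) (cs : List (ℕ × Bool)) (μ ν : Matching m) (b : Bool)
    (s : Fin cs.length → Bool) :
    2 ^ loops (c :: cs) μ ν (Fin.cons b s) = ∑ y : Fin (cs.length + 1) → Fin m → Bool,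
      if Tail cs ν s y then
        (∑ u : Fin m → Bool, if ((∀ x, u (μ.f x) = u x) ∧ Step c b u (y 0)) then 1 else 0)
      else 0 := by
  rw [two_pow_loops]
  refine (Fintype.sum_equiv (Fin.consEquiv (fun _ : Fin (cs.length + 1 + 1) => Fin m → Bool))
    (fun z => if ((∀ x, z.1 (μ.f x) = z.1 x) ∧ Step c b z.1 (z.2 0) ∧ Tail cs ν s z.2) then 1 else 0)
    _ ?_).symm.trans ?_
  · rintro ⟨u, y⟩
    refine if_congr ?_ rfl rfl
    constructor
    · rintro ⟨h1, h2, h3⟩
      refine ⟨h1, h3.1, fun j => ?_⟩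
      induction j using Fin.cases with
      | zero => exact h2
      | succ j => exact h3.2 j
    · rintro ⟨h1, h2⟩
      exact ⟨h1, h2.2 (0 : Fin (cs.length + 1)), h2.1, fun j => h2.2 j.succ⟩
  · rw [Fintype.sum_prod_type_right]
    refine Finset.sum_congr rfl fun y _ => ?_
    by_cases hT : Tail cs ν s y
    · rw [if_pos hT]
      refine Finset.sum_congr rfl fun u _ => if_congr ?_ rfl rfl
      exact ⟨fun h => ⟨h.1, h.2.1⟩, fun h => ⟨h.1, h.2, hT⟩⟩
    · rw [if_neg hT]
      exact Finset.sum_eq_zero fun u _ => if_neg fun h => hT h.2.2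

theorem step_true (c : ℕ × Bool) (u v : Fin m → Bool) : Step c true u v ↔ u = v := by
  constructor
  · intro h
    funext x
    exact h.1 x (Or.inl rfl)
  · rintro rfl
    exact ⟨fun _ _ => rfl, fun _ _ h => absurd h (by simp)⟩

theorem loops_vertical (c : ℕ × Bool) (cs : List (ℕ × Bool)) (μ ν : Matching m)
    (s : Fin cs.length → Bool) : loops (c :: cs) μ ν (Fin.cons true s) = loops cs μ ν s := by
  classical
  apply Nat.pow_right_injective (le_refl 2)
  show 2 ^ loops (c :: cs) μ ν (Fin.cons true s) = 2 ^ loops cs μ ν s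
  rw [two_pow_loops_cons, two_pow_loops]
  refine Finset.sum_congr rfl fun y _ => ?_
  by_cases hT : Tail cs ν s y
  · rw [if_pos hT, Finset.sum_eq_single (y 0)]
    · refine if_congr ?_ rfl rfl
      exact ⟨fun h => ⟨h.1, hT⟩, fun h => ⟨h.1, (step_true c _ _).mpr rfl⟩⟩
    · intro u _ hu
      exact if_neg fun h => hu ((step_true c _ _).mp h.2)
    · intro h
      exact absurd (Finset.mem_univ _) h
  · rw [if_neg hT, if_neg fun h => hT h.2]

theorem step_false (c : ℕ × Bool) (hc : c.1 + 1 < m) (u v : Fin m → Bool) :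
    Step c false u v ↔ (∀ z : Fin m, (z : ℕ) ≠ c.1 → (z : ℕ) ≠ c.1 + 1 → u z = v z) ∧
      u ⟨c.1, by omega⟩ = u ⟨c.1 + 1, hc⟩ ∧ v ⟨c.1, by omega⟩ = v ⟨c.1 + 1, hc⟩ := by
  constructor
  · rintro ⟨h1, h2⟩
    have h3 := h2 ⟨c.1, by omega⟩ ⟨c.1 + 1, hc⟩ rfl rfl rfl
    exact ⟨fun z hz hz' => h1 z (Or.inr ⟨hz, hz'⟩), h3.1, h3.2⟩
  · rintro ⟨h1, h2, h3⟩
    refine ⟨fun z hz => ?_, fun x y _ hx hy => ?_⟩
    · rcases hz with hz | hz
      · exact absurd hz (by simp)
      · exact h1 z hz.1 hz.2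
    · have hx' : x = ⟨c.1, Nat.lt_of_succ_lt hc⟩ := Fin.ext hx
      have hy' : y = ⟨c.1 + 1, hc⟩ := Fin.ext hy
      rw [hx', hy']
      exact ⟨h2, h3⟩

theorem loops_horizontal (hCap : S_Cap) (hCol : S_Col) (c : ℕ × Bool) (hc : c.1 + 1 < m)
    (cs : List (ℕ × Bool)) (μ ν : Matching m) (s : Fin cs.length → Bool) :
    loops (c :: cs) μ ν (Fin.cons false s) = lp μ c.1 + loops cs (μ.cap c.1) ν s := by
  classical
  apply Nat.pow_right_injective (le_refl 2)
  show 2 ^ loops (c :: cs) μ ν (Fin.cons false s) = 2 ^ (lp μ c.1 + loops cs (μ.cap c.1) ν s)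
  rw [two_pow_loops_cons, pow_add, two_pow_loops, Finset.mul_sum]
  refine Finset.sum_congr rfl fun y _ => ?_
  by_cases hT : Tail cs ν s y
  · rw [if_pos hT]
    by_cases hy : y 0 ⟨c.1, by omega⟩ = y 0 ⟨c.1 + 1, hc⟩
    · have h1 := hCol hCap m μ c.1 hc (y 0) hy
      have h2 : (∑ u : Fin m → Bool, if ((∀ x, u (μ.f x) = u x) ∧ Step c false u (y 0)) then 1
          else 0 : ℕ) = if (∀ z, y 0 ((μ.cap c.1).f z) = y 0 z) then 2 ^ lp μ c.1 else 0 := by
        rw [← h1]
        refine Finset.sum_congr rfl fun u _ => if_congr ?_ rfl rfl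
        rw [step_false c hc]
        exact ⟨fun h => ⟨h.2.1, h.2.2.1, h.1⟩, fun h => ⟨h.2.2, h.1, h.2.1, hy⟩⟩
      rw [h2]
      by_cases hz : ∀ z, y 0 ((μ.cap c.1).f z) = y 0 z
      · rw [if_pos hz, if_pos ⟨hz, hT⟩, mul_one]
      · rw [if_neg hz, if_neg fun h => hz h.1, mul_zero]
    · have h1 : ¬ ((∀ x, y 0 ((μ.cap c.1).f x) = y 0 x) ∧ Tail cs ν s y) := by
        rintro ⟨h, -⟩
        apply hy
        have h2 := h ⟨c.1, by omega⟩
        rw [hCap m μ c.1 hc] at h2
        unfold capF at h2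
        rw [if_pos rfl] at h2
        exact h2.symm
      rw [if_neg h1, mul_zero]
      refine Finset.sum_eq_zero fun u _ => if_neg fun h => hy ?_
      exact ((step_false c hc _ _).mp h.2).2.2
  · rw [if_neg hT, if_neg fun h => hT h.2, mul_zero]

theorem loops_pos (hm : 0 < m) (cs : List (ℕ × Bool)) (μ ν : Matching m)
    (s : Fin cs.length → Bool) : 0 < loops cs μ ν s := by
  have h1 : Nonempty (Quot (Joined cs μ ν s)) := ⟨Quot.mk _ (0, ⟨0, hm⟩)⟩
  exact Nat.card_pos

theorem delta_bracket (hm : 0 < m) (cs : List (ℕ × Bool)) (μ ν : Matching m) :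
    delta * bracket cs μ ν = ∑ s : Fin cs.length → Bool, weight cs s * delta ^ loops cs μ ν s := by
  unfold bracket
  rw [Finset.mul_sum]
  refine Finset.sum_congr rfl fun s _ => ?_
  have h1 := loops_pos hm cs μ ν s
  obtain ⟨n, hn⟩ : ∃ n, loops cs μ ν s = n + 1 := ⟨loops cs μ ν s - 1, by omega⟩
  rw [hn, Nat.add_sub_cancel, pow_succ]
  ring

theorem weight_cons (c : ℕ × Bool) (cs : List (ℕ × Bool)) (b : Bool) (s : Fin cs.length → Bool) :
    weight (c :: cs) (Fin.cons b s) = (if b = c.2 then T 1 else T (-1)) * weight cs s := by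
  unfold weight
  exact Fin.prod_univ_succ (n := cs.length) _

end StateAux

open StateAux

theorem sState : S_State := by
  intro hCap hCol m hm cs
  induction cs with
  | nil =>
    intro μ ν _
    rw [delta_bracket hm]
    show (∑ s : Fin 0 → Bool, weight [] s * delta ^ loops [] μ ν s) = delta ^ cyc μ ν
    rw [Fintype.sum_unique]
    have h1 : ∀ s : Fin 0 → Bool, weight [] s = 1 := fun s => Finset.prod_empty
    rw [h1, one_mul]
    exact congrArg (fun s : Fin 0 → Bool => delta ^ loops [] μ ν s)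
      (Subsingleton.elim (α := Fin 0 → Bool) _ _)
  | cons c cs ih =>
    intro μ ν hcs
    have hc : c.1 + 1 < m := hcs c List.mem_cons_self
    have hcs' : ∀ c ∈ cs, c.1 + 1 < m := fun c' h => hcs c' (List.mem_cons_of_mem _ h)
    rw [delta_bracket hm]
    have h1 : (∑ s : Fin (c :: cs).length → Bool, weight (c :: cs) s *
        delta ^ loops (c :: cs) μ ν s) =
        ∑ b : Bool, ∑ s : Fin cs.length → Bool, weight (c :: cs) (Fin.cons b s) *
          delta ^ loops (c :: cs) μ ν (Fin.cons b s) := by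
      refine (Fintype.sum_equiv (Fin.consEquiv (fun _ : Fin (cs.length + 1) => Bool))
        (fun z => weight (c :: cs) (Fin.cons z.1 z.2) *
          delta ^ loops (c :: cs) μ ν (Fin.cons z.1 z.2)) _ (fun z => rfl)).symm.trans ?_
      rw [Fintype.sum_prod_type]
    rw [h1, Fintype.sum_bool]
    have h2 : (∑ s : Fin cs.length → Bool, weight (c :: cs) (Fin.cons true s) *
          delta ^ loops (c :: cs) μ ν (Fin.cons true s)) =
        (if c.2 = true then T 1 else T (-1)) * (delta * bracket cs μ ν) := by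
      rw [delta_bracket hm, Finset.mul_sum]
      refine Finset.sum_congr rfl fun s _ => ?_
      rw [weight_cons, loops_vertical, mul_assoc]
      congr 1
      exact if_congr eq_comm rfl rfl
    have h3 : (∑ s : Fin cs.length → Bool, weight (c :: cs) (Fin.cons false s) *
          delta ^ loops (c :: cs) μ ν (Fin.cons false s)) =
        (if c.2 = true then T (-1) else T 1) *
          (delta ^ lp μ c.1 * (delta * bracket cs (μ.cap c.1) ν)) := by
      rw [delta_bracket hm, Finset.mul_sum, Finset.mul_sum]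
      refine Finset.sum_congr rfl fun s _ => ?_
      rw [weight_cons, loops_horizontal hCap hCol c hc, pow_add]
      have h4 : (if false = c.2 then T 1 else T (-1) : ℤ[T;T⁻¹]) =
          if c.2 = true then T (-1) else T 1 := by
        cases c.2 <;> simp
      rw [h4]
      ring
    rw [h2, h3, ih μ ν hcs', ih (μ.cap c.1) ν hcs']
    rfl

end MP_fc1011_gt.MT
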