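import Pool.Agent.Lib.MP_fc1011_gt.MT.Spec

/-!
# MP_fc1011_gt, multi-strand twisting: the operators `UU` are symmetric (`S_Sym`)
-/

set_option autoImplicit false

namespace MP_fc1011_gt.MT

open LaurentPolynomial Finset

private theorem sym_mem (hF : S_Fin) (R m : ℕ) (a : ℕ → ℕ) : a ∈ Om R m ↔ Pth R m a := by
  have h := (hF R m).1
  unfold Om
  rw [dif_pos h, Set.Finite.mem_toFinset]
  rfl

/-- the product without the factor `i` -/
private noncomputable def symD (b : ℕ → ℂ) (m i : ℕ) (a : ℕ → ℕ) : ℂ :=
  ∏ j ∈ (range m).erase i, b (a (j + 1))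

open Classical in
/-- the kernel -/
private noncomputable def symW (b : ℕ → ℂ) (m i : ℕ) (a a' : ℕ → ℕ) : ℂ :=
  if a i = a (i + 2) ∧ ∀ j, j ≠ i + 1 → a' j = a j then (b (a i) * symD b m i a)⁻¹ else 0

private theorem symW_symm (b : ℕ → ℂ) (m i : ℕ) (a a' : ℕ → ℕ) :
    symW b m i a a' = symW b m i a' a := by
  unfold symW
  by_cases h : a i = a (i + 2) ∧ ∀ j, j ≠ i + 1 → a' j = a j
  · obtain ⟨h1, h2⟩ := h
    have e1 : a' i = a i := h2 i (by omega)
    have e2 : a' (i + 2) = a (i + 2) := h2 (i + 2) (by omega)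
    rw [if_pos ⟨h1, h2⟩, if_pos ⟨by rw [e1, e2, h1], fun j hj => (h2 j hj).symm⟩, e1]
    have e3 : symD b m i a = symD b m i a' := by
      unfold symD
      refine Finset.prod_congr rfl fun j hj => ?_
      have hji : j ≠ i := Finset.ne_of_mem_erase hj
      rw [h2 (j + 1) (by omega)]
    rw [e3]
  · rw [if_neg h, if_neg]
    rintro ⟨h1, h2⟩
    apply h
    have e1 : a i = a' i := h2 i (by omega)
    have e2 : a (i + 2) = a' (i + 2) := h2 (i + 2) (by omega)
    exact ⟨by rw [e1, e2, h1], fun j hj => (h2 j hj).symm⟩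

/-- `UU` in terms of the kernel -/
private theorem sym_UU (hF : S_Fin) {d : ℂ} {b : ℕ → ℂ} {R m i : ℕ} (hH : Hts d b R m)
    (hi : i + 1 < m) (ψ : (ℕ → ℕ) → ℂ) (hψ : Supp R m ψ) (a : ℕ → ℕ) (ha : Pth R m a) :
    UU b R m i ψ a / ∏ j ∈ range m, b (a (j + 1)) = ∑ a' ∈ Om R m, symW b m i a a' * ψ a' := by
  classical
  by_cases hx : a i = a (i + 2)
  · have hne : b (a (i + 1)) ≠ 0 := hH.ne _ (ha.2.2.2 (i + 1)).1 (ha.2.2.2 (i + 1)).2
    have hU : UU b R m i ψ a = b (a (i + 1)) / b (a i) *
        (ψ (Function.update a (i + 1) (a i + 1)) + ψ (Function.update a (i + 1) (a i - 1))) := by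
      unfold UU
      rw [if_pos ⟨ha, hx⟩]
    have hP : ∏ j ∈ range m, b (a (j + 1)) = b (a (i + 1)) * symD b m i a :=
      (Finset.mul_prod_erase (range m) (fun j => b (a (j + 1)))
        (Finset.mem_range.2 (by omega : i < m))).symm
    have hs : ∑ a' ∈ Om R m, symW b m i a a' * ψ a' = (b (a i) * symD b m i a)⁻¹ *
        ∑ a' ∈ (Om R m).filter (fun a' => ∀ j, j ≠ i + 1 → a' j = a j), ψ a' := by
      rw [Finset.mul_sum, Finset.sum_filter]
      refine Finset.sum_congr rfl fun a' _ => ?_
      unfold symW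
      by_cases h : ∀ j, j ≠ i + 1 → a' j = a j
      · rw [if_pos ⟨hx, h⟩, if_pos h]
      · rw [if_neg (fun h' => h h'.2), if_neg h, zero_mul]
    have hne2 : Function.update a (i + 1) (a i + 1) ≠ Function.update a (i + 1) (a i - 1) := by
      intro h
      have h1 := congrFun h (i + 1)
      rw [Function.update_self, Function.update_self] at h1
      omega
    have hT : ∑ a' ∈ (Om R m).filter (fun a' => ∀ j, j ≠ i + 1 → a' j = a j), ψ a' =
        ψ (Function.update a (i + 1) (a i + 1)) + ψ (Function.update a (i + 1) (a i - 1)) := by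
      rw [← Finset.sum_pair hne2]
      refine Finset.sum_subset ?_ ?_
      · intro a' ha'
        rw [Finset.mem_filter, sym_mem hF] at ha'
        obtain ⟨hp, hR⟩ := ha'
        have e1 : a' i = a i := hR i (by omega)
        rw [Finset.mem_insert, Finset.mem_singleton]
        rcases hp.2.2.1 i (by omega) with h | h
        · left
          funext j
          by_cases hj : j = i + 1
          · subst hj
            rw [Function.update_self, h, e1]
          · rw [Function.update_of_ne hj, hR j hj]
        · right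
          funext j
          by_cases hj : j = i + 1
          · subst hj
            rw [Function.update_self]
            omega
          · rw [Function.update_of_ne hj, hR j hj]
      · intro a' ha' hn
        apply hψ
        intro hp
        apply hn
        rw [Finset.mem_filter, sym_mem hF]
        refine ⟨hp, fun j hj => ?_⟩
        rw [Finset.mem_insert, Finset.mem_singleton] at ha'
        rcases ha' with h | h
        · rw [h, Function.update_of_ne hj]
        · rw [h, Function.update_of_ne hj]
    rw [hU, hP, hs, hT, mul_inv]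
    by_cases hD : symD b m i a = 0
    · rw [hD]
      simp
    · by_cases hb : b (a i) = 0
      · rw [hb]
        simp
      · field_simp
  · have hU : UU b R m i ψ a = 0 := by
      unfold UU
      rw [if_neg (fun h => hx h.2)]
    rw [hU, zero_div]
    symm
    refine Finset.sum_eq_zero fun a' _ => ?_
    unfold symW
    rw [if_neg (fun h => hx h.1), zero_mul]

theorem sSym : S_Sym := by
  intro hF d b R m i hH hi φ ψ hφ hψ
  unfold BB
  have h1 : ∀ a ∈ Om R m, φ a * UU b R m i ψ a / ∏ j ∈ range m, b (a (j + 1)) =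
      ∑ a' ∈ Om R m, symW b m i a a' * φ a * ψ a' := by
    intro a ha
    rw [mul_div_assoc, sym_UU hF hH hi ψ hψ a ((sym_mem hF R m a).1 ha), Finset.mul_sum]
    refine Finset.sum_congr rfl fun a' _ => ?_
    ring
  have h2 : ∀ a ∈ Om R m, UU b R m i φ a * ψ a / ∏ j ∈ range m, b (a (j + 1)) =
      ∑ a' ∈ Om R m, symW b m i a' a * φ a' * ψ a := by
    intro a ha
    rw [mul_comm, mul_div_assoc, sym_UU hF hH hi φ hφ a ((sym_mem hF R m a).1 ha), Finset.mul_sum]
    refine Finset.sum_congr rfl fun a' _ => ?_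
    rw [symW_symm b m i a' a]
    ring
  rw [Finset.sum_congr rfl h1, Finset.sum_congr rfl h2, Finset.sum_comm]

end MP_fc1011_gt.MT
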