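import Pool.Agent.Lib.MP_fc1011_gt.MT.Spec

set_option autoImplicit false

namespace MP_fc1011_gt.MT

open Finset

private theorem triggen_sin (x : ℝ) (hx : |x| ≤ Real.pi / 2) :
    2 / Real.pi * |x| ≤ |Real.sin x| := by
  rcases le_total 0 x with h | h
  · rw [abs_of_nonneg h] at hx ⊢
    exact (Real.mul_le_sin h hx).trans (le_abs_self _)
  · rw [abs_of_nonpos h] at hx ⊢
    have h1 := Real.mul_le_sin (neg_nonneg.2 h) hx
    rw [Real.sin_neg] at h1
    exact h1.trans (neg_le_abs _)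

/-- the sine at a rational multiple of `π` -/
private theorem triggen_rat (N D : ℤ) (hD : 0 < D) (h : ¬ D ∣ N) :
    2 / (D : ℝ) ≤ |Real.sin (Real.pi * ((N : ℝ) / D))| := by
  have hD' : (0 : ℝ) < D := by exact_mod_cast hD
  obtain ⟨q, hq⟩ : ∃ q : ℤ, q = round ((N : ℝ) / D) := ⟨_, rfl⟩
  have h1 : |(N : ℝ) / D - q| ≤ 1 / 2 := by
    rw [hq]
    exact abs_sub_round _
  have h2 : |Real.sin (Real.pi * ((N : ℝ) / D))| = |Real.sin (Real.pi * ((N : ℝ) / D - q))| := by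
    have h3 : Real.pi * ((N : ℝ) / D - q) = Real.pi * ((N : ℝ) / D) - q * Real.pi := by ring
    rw [h3, Real.sin_sub_int_mul_pi, abs_mul, abs_zpow, abs_neg, abs_one, one_zpow, one_mul]
  have hpi := Real.pi_pos
  have h4 : |Real.pi * ((N : ℝ) / D - q)| = Real.pi * |(N : ℝ) / D - q| := by
    rw [abs_mul, abs_of_pos hpi]
  have h5 := triggen_sin (Real.pi * ((N : ℝ) / D - q)) (by
    rw [h4]
    nlinarith)
  rw [h4] at h5
  have h6 : 2 / Real.pi * (Real.pi * |(N : ℝ) / D - q|) = 2 * |(N : ℝ) / D - q| := by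
    field_simp
  rw [h6] at h5
  rw [h2]
  refine le_trans ?_ h5
  have h7 : (N : ℝ) / D - q = ((N - q * D : ℤ) : ℝ) / D := by
    push_cast
    field_simp
  have h8 : N - q * D ≠ 0 := by
    intro h9
    exact h ⟨q, by linarith⟩
  have h9 : (1 : ℝ) ≤ |((N - q * D : ℤ) : ℝ)| := by
    have := Int.one_le_abs h8
    exact_mod_cast this
  rw [h7, abs_div, abs_of_pos hD', ← mul_div_assoc]
  apply div_le_div_of_nonneg_right _ hD'.le
  linarith

private theorem triggen_mul (φ : ℝ) (n : ℕ) : |Real.sin (n * φ)| ≤ n * |Real.sin φ| := by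
  induction n with
  | zero => simp
  | succ n ih =>
    have h1 : ((n + 1 : ℕ) : ℝ) * φ = n * φ + φ := by
      push_cast
      ring
    rw [h1, Real.sin_add]
    have h2 : |Real.sin (n * φ) * Real.cos φ| ≤ |Real.sin (n * φ)| := by
      rw [abs_mul]
      exact mul_le_of_le_one_right (abs_nonneg _) (Real.abs_cos_le_one _)
    have h3 : |Real.cos (n * φ) * Real.sin φ| ≤ |Real.sin φ| := by
      rw [abs_mul]
      exact mul_le_of_le_one_left (abs_nonneg _) (Real.abs_cos_le_one _)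
    have h4 := abs_add_le (Real.sin (n * φ) * Real.cos φ) (Real.cos (n * φ) * Real.sin φ)
    push_cast
    linarith

theorem sTrigGen : S_TrigGen := by
  intro R M m j hR hmR hM hjM
  have hpi := Real.pi_pos
  have hR1 : (0 : ℝ) < ((R + 1 : ℕ) : ℝ) := by positivity
  have hM1 : (0 : ℝ) < (M : ℝ) := by exact_mod_cast hM
  obtain ⟨x, hx⟩ : ∃ x : ℝ, x = ((j : ℝ) + 1 / ((R + 1 : ℕ) : ℝ)) / M := ⟨_, rfl⟩
  have hx0 : 0 < x := by
    rw [hx]
    positivity
  have hx1 : x < 1 := by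
    rw [hx, div_lt_one hM1]
    have h1 : (j : ℝ) + 1 ≤ M := by exact_mod_cast hjM
    have h2 : 1 / ((R + 1 : ℕ) : ℝ) < 1 := by
      rw [div_lt_one hR1]
      have : 1 < R + 1 := by omega
      exact_mod_cast this
    linarith
  obtain ⟨φ, hφ⟩ : ∃ φ : ℝ, φ = Real.pi * x := ⟨_, rfl⟩
  have hφ0 : 0 < φ := by
    rw [hφ]
    positivity
  have hφ1 : φ < Real.pi := by
    rw [hφ]
    nlinarith
  have hsin : 0 < Real.sin φ := Real.sin_pos_of_pos_of_lt_pi hφ0 hφ1
  have hsin1 : Real.sin φ ≤ 1 := Real.sin_le_one φ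
  obtain ⟨A, hA⟩ : ∃ A : ℂ, A = Complex.exp (Complex.I * ((-φ / 2 : ℝ) : ℂ)) := ⟨_, rfl⟩
  have hA2 : A ^ 2 = Complex.exp (-(φ : ℂ) * Complex.I) := by
    rw [hA, ← Complex.exp_nat_mul]
    congr 1
    push_cast
    ring
  have hA2' : (A ^ 2)⁻¹ = Complex.exp ((φ : ℂ) * Complex.I) := by
    rw [hA2, ← Complex.exp_neg]
    congr 1
    ring
  have hA2c : A ^ 2 = Complex.cos φ - Complex.sin φ * Complex.I := by
    rw [hA2, Complex.exp_mul_I, Complex.cos_neg, Complex.sin_neg]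
    ring
  have hd : -A ^ 2 - (A ^ 2)⁻¹ = -2 * Complex.cos φ := by
    rw [hA2', Complex.exp_mul_I, hA2c]
    ring
  obtain ⟨b, hb⟩ : ∃ b : ℕ → ℂ, ∀ n, b n =
      (-1) ^ (n + 1) * ((Real.sin (n * φ) / Real.sin φ : ℝ) : ℂ) := ⟨_, fun n => rfl⟩
  have hbn : ∀ n, ‖b n‖ = |Real.sin (n * φ)| / Real.sin φ := by
    intro n
    rw [hb, norm_mul, norm_pow, norm_neg, norm_one, one_pow, one_mul, Complex.norm_real,
      Real.norm_eq_abs, abs_div, abs_of_pos hsin]
  have hlow : ∀ n, 1 ≤ n → n ≤ R → 2 / ((R + 1 : ℕ) * M : ℝ) ≤ ‖b n‖ := by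
    intro n hn1 hnR
    have h1 : (n : ℝ) * φ = Real.pi * (((n * (j * (R + 1) + 1) : ℤ) : ℝ) /
        (((R + 1) * M : ℤ) : ℝ)) := by
      rw [hφ, hx]
      push_cast
      push_cast at hR1
      field_simp
    have h2 : ¬ (((R : ℤ) + 1) * M) ∣ (n * (j * (R + 1) + 1) : ℤ) := by
      intro h3
      have h4 : ((R : ℤ) + 1) ∣ (n * (j * (R + 1) + 1) : ℤ) := Dvd.dvd.trans (Dvd.intro _ rfl) h3
      have h5 : ((R : ℤ) + 1) ∣ (n : ℤ) := by
        have h6 : (n : ℤ) = (n * (j * (R + 1) + 1) : ℤ) - ((R : ℤ) + 1) * (n * j) := by ring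
        rw [h6]
        exact Int.dvd_sub h4 (Dvd.intro _ rfl)
      have h6 := Int.le_of_dvd (by exact_mod_cast hn1) h5
      have h7 : (n : ℤ) ≤ R := by exact_mod_cast hnR
      omega
    have h3 := triggen_rat (n * (j * (R + 1) + 1) : ℤ) (((R : ℤ) + 1) * M) (by positivity) h2
    rw [← h1] at h3
    rw [hbn]
    have h4 : (2 : ℝ) / ((R + 1 : ℕ) * M : ℝ) = 2 / ((((R : ℤ) + 1) * M : ℤ) : ℝ) := by
      push_cast
      rfl
    rw [h4]
    refine h3.trans ?_
    rw [le_div_iff₀ hsin]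
    exact mul_le_of_le_one_right (abs_nonneg _) hsin1
  refine ⟨A, b, ?_, ?_, ?_, ⟨?_, ?_, ?_, ?_, Or.inr hmR, hR⟩, ?_, hlow⟩
  · have h1 : (A ^ 4)⁻¹ = Complex.exp (2 * ((φ : ℂ) * Complex.I)) := by
      have h2 : A ^ 4 = A ^ 2 * A ^ 2 := by ring
      rw [h2, mul_inv, hA2', ← Complex.exp_add]
      congr 1
      ring
    rw [h1, ← Complex.exp_add]
    congr 1
    have h2 : ((R + 1 : ℕ) : ℂ) ≠ 0 := by
      exact_mod_cast (Nat.succ_ne_zero R)
    have h3 : (M : ℂ) ≠ 0 := by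
      have : M ≠ 0 := by omega
      exact_mod_cast this
    rw [hφ, hx]
    push_cast
    push_cast at h2
    field_simp
    ring
  · rw [hA, Complex.norm_exp_I_mul_ofReal]
  · intro h4
    have h5 : (A ^ 2 - 1) * (A ^ 2 + 1) = 0 := by
      have : (A ^ 2 - 1) * (A ^ 2 + 1) = A ^ 4 - 1 := by ring
      rw [this, h4, sub_self]
    have h6 : (A ^ 2).im = -Real.sin φ := by
      rw [hA2c, ← Complex.ofReal_cos, ← Complex.ofReal_sin, Complex.sub_im, Complex.ofReal_im,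
        Complex.mul_I_im, Complex.ofReal_re, zero_sub]
    rcases mul_eq_zero.1 h5 with h7 | h7
    · have h8 : A ^ 2 = 1 := sub_eq_zero.1 h7
      rw [h8, Complex.one_im] at h6
      linarith
    · have h8 : A ^ 2 = -1 := eq_neg_of_add_eq_zero_left h7
      rw [h8] at h6
      simp at h6
      linarith
  · rw [hb]
    simp
  · rw [hb]
    have h1 : Real.sin φ ≠ 0 := hsin.ne'
    have h2 : Real.sin (((1 : ℕ) : ℝ) * φ) / Real.sin φ = 1 := by
      rw [Nat.cast_one, one_mul, div_self h1]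
    rw [h2]
    simp
  · intro n
    rw [hd, hb, hb, hb, ← Complex.ofReal_cos]
    have h1 : Real.sin φ ≠ 0 := hsin.ne'
    have h2 : Real.sin (((n + 2 : ℕ) : ℝ) * φ) =
        2 * Real.cos φ * Real.sin (((n + 1 : ℕ) : ℝ) * φ) - Real.sin ((n : ℝ) * φ) := by
      have e1 : ((n + 2 : ℕ) : ℝ) * φ = ((n + 1 : ℕ) : ℝ) * φ + φ := by
        push_cast
        ring
      have e2 : (n : ℝ) * φ = ((n + 1 : ℕ) : ℝ) * φ - φ := by
        push_cast
        ring
      rw [e1, e2, Real.sin_add, Real.sin_sub]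
      ring
    rw [h2]
    push_cast
    ring
  · intro n hn1 hnR h0
    have h1 := hlow n hn1 hnR
    rw [h0, norm_zero] at h1
    have h2 : 0 < 2 / ((R + 1 : ℕ) * M : ℝ) := by positivity
    linarith
  · intro n
    rw [hbn, div_le_iff₀ hsin]
    have h1 := triggen_mul φ n
    rw [abs_of_pos hsin] at h1
    exact h1

end MP_fc1011_gt.MT
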