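import Pool.Agent.Lib.MP_fc1011_gt.MT.Spec

/-!
# The norm of the operator of a twist region
-/

set_option autoImplicit false

namespace MP_fc1011_gt.MT

theorem tw_lin (b : ℕ → ℂ) (R m i : ℕ) (ψ φ : (ℕ → ℕ) → ℂ) (x y : ℂ) (a : ℕ → ℕ) :
    UU b R m i (fun c => x * ψ c + y * φ c) a = x * UU b R m i ψ a + y * UU b R m i φ a := by
  by_cases h : Pth R m a ∧ a i = a (i + 2)
  · rw [UU, if_pos h, UU, if_pos h, UU, if_pos h]; ring
  · rw [UU, if_neg h, UU, if_neg h, UU, if_neg h]; ring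

/-- the coefficient -/
noncomputable def twC (x y d : ℂ) : ℕ → ℂ
  | 0 => 0
  | n + 1 => x ^ n * y + twC x y d n * (x + y * d)

theorem tw_rho (hU2 : S_U2) {A A' d : ℂ} {b : ℕ → ℂ} {R m i : ℕ} (hb : Hts d b R m)
    (hi : i + 1 < m) (s : Bool) (N : ℕ) : ∀ (ψ : (ℕ → ℕ) → ℂ) (a : ℕ → ℕ),
    rho A A' b R m (List.replicate N (i, s)) ψ a =
      (if s = true then A else A') ^ N * ψ a +
        twC (if s = true then A else A') (if s = true then A' else A) d N * UU b R m i ψ a := by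
  induction N with
  | zero => intro ψ a; simp [rho, twC]
  | succ N ih =>
    intro ψ a
    have h1 : rho A A' b R m (List.replicate (N + 1) (i, s)) ψ =
        rho A A' b R m (List.replicate N (i, s)) (sg A A' b R m (i, s) ψ) := rfl
    rw [h1, ih]
    have h2 : UU b R m i (sg A A' b R m (i, s) ψ) a =
        (if s = true then A else A') * UU b R m i ψ a +
          (if s = true then A' else A) * (d * UU b R m i ψ a) := by
      rw [← hU2 d b R m i hb hi ψ a, ← tw_lin]
      rfl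
    rw [h2]
    have h3 : sg A A' b R m (i, s) ψ a = (if s = true then A else A') * ψ a +
        (if s = true then A' else A) * UU b R m i ψ a := rfl
    rw [h3, twC]
    ring

theorem tw_c {x y : ℂ} (h : x * y = 1) (N : ℕ) :
    (-x ^ 2 - y ^ 2) * twC x y (-x ^ 2 - y ^ 2) N = (-y ^ 3) ^ N - x ^ N := by
  induction N with
  | zero => simp [twC]
  | succ N ih =>
    have h1 : x + y * (-x ^ 2 - y ^ 2) = -y ^ 3 := by linear_combination (-x) * h
    rw [twC, mul_add, ← mul_assoc, ← mul_assoc, ih, h1]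
    have h2 : (-x ^ 2 - y ^ 2) * x ^ N * y = x ^ N * (-x - y ^ 3) := by
      linear_combination (-x * x ^ N) * h
    rw [h2]
    ring

theorem sTw : S_Tw := by
  intro hU2 A b R m ε hA hb hε hε1 hlow hup i n hi ψ C hψ hC a
  have hA0 : A ≠ 0 := by
    intro h; rw [h, norm_zero] at hA; exact zero_ne_one hA
  have hC0 : 0 ≤ C := (norm_nonneg _).trans (hC a)
  have hR2 : (2 : ℝ) ≤ R := by exact_mod_cast hb.two
  set d : ℂ := -A ^ 2 - (A ^ 2)⁻¹ with hd
  have hd2 : b 2 = d := by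
    have := hb.rc 0
    rw [hb.b1, hb.b0] at this
    simpa using this
  have hdε : ε ≤ ‖d‖ := by rw [← hd2]; exact hlow 2 (by norm_num) hb.two
  have hU : ‖UU b R m i ψ a‖ ≤ R / ε * (2 * C) := by
    by_cases h : Pth R m a ∧ a i = a (i + 2)
    · rw [UU, if_pos h, norm_mul, norm_div]
      have h1 : ‖b (a (i + 1))‖ ≤ R := (hup _).trans (by exact_mod_cast (h.1.2.2.2 (i + 1)).2)
      have h2 : ε ≤ ‖b (a i)‖ := hlow _ (h.1.2.2.2 i).1 (h.1.2.2.2 i).2
      refine mul_le_mul (div_le_div₀ (by positivity) h1 hε h2) ?_ (norm_nonneg _) (by positivity)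
      refine (norm_add_le _ _).trans ?_
      linarith [hC (Function.update a (i + 1) (a i + 1)), hC (Function.update a (i + 1) (a i - 1))]
    · rw [UU, if_neg h, norm_zero]; positivity
  have key : ∀ (x y : ℂ), x * y = 1 → ‖x‖ = 1 → ‖y‖ = 1 → -x ^ 2 - y ^ 2 = d → ∀ N : ℕ,
      ‖x ^ N * ψ a + twC x y d N * UU b R m i ψ a‖ ≤ 5 * R / ε ^ 2 * C := by
    intro x y hxy hx hy hdd N
    have h1 := tw_c hxy N
    rw [hdd] at h1
    have h2 : ‖d‖ * ‖twC x y d N‖ ≤ 2 := by
      rw [← norm_mul, h1]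
      refine (norm_sub_le _ _).trans ?_
      rw [norm_pow, norm_neg, norm_pow, norm_pow, hx, hy, one_pow, one_pow]
      norm_num
    have h3 : ‖twC x y d N‖ ≤ 2 / ε := by
      rw [le_div_iff₀ hε]
      calc ‖twC x y d N‖ * ε ≤ ‖twC x y d N‖ * ‖d‖ :=
            mul_le_mul_of_nonneg_left hdε (norm_nonneg _)
        _ = ‖d‖ * ‖twC x y d N‖ := mul_comm _ _
        _ ≤ 2 := h2
    have h4 : (1 : ℝ) ≤ R / ε ^ 2 := by
      rw [le_div_iff₀ (by positivity)]
      nlinarith
    calc ‖x ^ N * ψ a + twC x y d N * UU b R m i ψ a‖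
        ≤ ‖x ^ N * ψ a‖ + ‖twC x y d N * UU b R m i ψ a‖ := norm_add_le _ _
      _ ≤ C + 2 / ε * (R / ε * (2 * C)) := by
          refine add_le_add ?_ ?_
          · rw [norm_mul, norm_pow, hx, one_pow, one_mul]; exact hC a
          · rw [norm_mul]
            exact mul_le_mul h3 hU (norm_nonneg _) (by positivity)
      _ = C + 4 * (R / ε ^ 2) * C := by field_simp; ring
      _ ≤ (R / ε ^ 2) * C + 4 * (R / ε ^ 2) * C := by
          nlinarith [mul_le_mul_of_nonneg_right h4 hC0]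
      _ = 5 * R / ε ^ 2 * C := by ring
  have hcr : Letter.crossings (.twist i n) = List.replicate n.natAbs (i, decide (0 < n)) := rfl
  rw [hcr, tw_rho hU2 hb hi]
  have hAi : ‖A⁻¹‖ = 1 := by rw [norm_inv, hA, inv_one]
  cases decide (0 < n)
  · simp only [Bool.false_eq_true, if_false]
    exact key A⁻¹ A (inv_mul_cancel₀ hA0) hAi hA (by rw [hd, inv_pow]; ring) _
  · simp only [if_true]
    exact key A A⁻¹ (mul_inv_cancel₀ hA0) hA hAi (by rw [hd, inv_pow]) _

end MP_fc1011_gt.MT
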