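import Pool.Agent.Lib.MP_fc1011_gt.MT.Spec

/-!
# `U ^ 2 = d U`
-/

set_option autoImplicit false

namespace MP_fc1011_gt.MT

theorem u2_le {R m : ℕ} {a : ℕ → ℕ} (ha : Pth R m a) : ∀ i, i ≤ m → a i ≤ i + 1 := by
  intro i
  induction i with
  | zero => intro _; rw [ha.1]
  | succ i ih =>
    intro hi
    have h1 := ih (by omega)
    have h2 := ha.2.2.1 i (by omega)
    omega

theorem u2_top {d : ℂ} {b : ℕ → ℂ} {R m i : ℕ} (hb : Hts d b R m) (hi : i + 1 < m) {a : ℕ → ℕ}
    (ha : Pth R m a) (h : R < a i + 1) : b (a i + 1) = 0 := by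
  have h1 := (ha.2.2.2 i).2
  have h2 := u2_le ha i (by omega)
  have h3 : a i = R := by omega
  rcases hb.top with h4 | h4
  · rw [h3]; exact h4
  · omega

theorem u2_up {R m i : ℕ} (hi : i + 1 < m) {a : ℕ → ℕ} (ha : Pth R m a) (hx : a i = a (i + 2))
    {u : ℕ} (hu : u = a i + 1 ∨ u + 1 = a i) (h1 : 1 ≤ u) (h2 : u ≤ R) :
    Pth R m (Function.update a (i + 1) u) := by
  refine ⟨?_, ?_, ?_, ?_⟩
  · rw [Function.update_of_ne (by omega)]; exact ha.1
  · intro k hk
    rw [Function.update_of_ne (by omega)]; exact ha.2.1 k hk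
  · intro k hk
    by_cases h3 : k = i
    · subst h3
      rw [Function.update_self, Function.update_of_ne (by omega)]
      omega
    · by_cases h4 : k = i + 1
      · subst h4
        rw [Function.update_self, Function.update_of_ne (by omega)]
        have h5 : a (i + 1 + 1) = a i := hx.symm
        rw [h5]; omega
      · rw [Function.update_of_ne (by omega), Function.update_of_ne (by omega)]
        exact ha.2.2.1 k hk
  · intro k
    by_cases h3 : k = i + 1
    · subst h3; rw [Function.update_self]; exact ⟨h1, h2⟩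
    · rw [Function.update_of_ne h3]; exact ha.2.2.2 k

theorem sU2 : S_U2 := by
  intro d b R m i hb hi ψ a
  by_cases ha : Pth R m a ∧ a i = a (i + 2)
  swap
  · rw [UU, if_neg ha, UU, if_neg ha, mul_zero]
  obtain ⟨ha, hx⟩ := ha
  obtain ⟨x, hxx⟩ : ∃ x, a i = x := ⟨_, rfl⟩
  have hx1 : 1 ≤ x := hxx ▸ (ha.2.2.2 i).1
  have hxR : x ≤ R := hxx ▸ (ha.2.2.2 i).2
  have hbx : b x ≠ 0 := hb.ne x hx1 hxR
  have hU : ∀ u, Pth R m (Function.update a (i + 1) u) →
      UU b R m i ψ (Function.update a (i + 1) u) = b u / b x *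
        (ψ (Function.update a (i + 1) (x + 1)) + ψ (Function.update a (i + 1) (x - 1))) := by
    intro u hu
    have h1 : Function.update a (i + 1) u i = x := by
      rw [Function.update_of_ne (by omega), hxx]
    have h2 : Function.update a (i + 1) u (i + 2) = x := by
      rw [Function.update_of_ne (by omega), ← hx, hxx]
    rw [UU, if_pos ⟨hu, by rw [h1, h2]⟩, h1, Function.update_self, Function.update_idem,
      Function.update_idem]
  have hup : UU b R m i ψ (Function.update a (i + 1) (x + 1)) = b (x + 1) / b x *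
        (ψ (Function.update a (i + 1) (x + 1)) + ψ (Function.update a (i + 1) (x - 1))) := by
    by_cases h : x + 1 ≤ R
    · exact hU _ (u2_up hi ha hx (Or.inl (by rw [hxx])) (by omega) h)
    · have hnp : ¬ Pth R m (Function.update a (i + 1) (x + 1)) := by
        intro h1
        have h2 := (h1.2.2.2 (i + 1)).2
        rw [Function.update_self] at h2
        exact h h2
      have hb0 : b (x + 1) = 0 := by
        rw [← hxx]; exact u2_top hb hi ha (by rw [hxx]; omega)
      rw [UU, if_neg (fun h => hnp h.1), hb0]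
      ring
  have hdn : UU b R m i ψ (Function.update a (i + 1) (x - 1)) = b (x - 1) / b x *
        (ψ (Function.update a (i + 1) (x + 1)) + ψ (Function.update a (i + 1) (x - 1))) := by
    by_cases h : 1 ≤ x - 1
    · exact hU _ (u2_up hi ha hx (Or.inr (by rw [hxx]; omega)) h (by omega))
    · have hnp : ¬ Pth R m (Function.update a (i + 1) (x - 1)) := by
        intro h1
        have h2 := (h1.2.2.2 (i + 1)).1
        rw [Function.update_self] at h2
        exact h h2
      have hb0 : b (x - 1) = 0 := by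
        have h0 : x - 1 = 0 := by omega
        rw [h0]; exact hb.b0
      rw [UU, if_neg (fun h => hnp h.1), hb0]
      ring
  obtain ⟨n, hn⟩ : ∃ n, x = n + 1 := ⟨x - 1, by omega⟩
  have hrec := hb.rc n
  have e1 : b (x + 1) + b (x - 1) = d * b x := by
    rw [hn]
    have e2 : n + 1 + 1 = n + 2 := rfl
    have e3 : n + 1 - 1 = n := rfl
    rw [e2, e3, hrec]; ring
  rw [UU, if_pos ⟨ha, hx⟩, hxx, hup, hdn, UU, if_pos ⟨ha, hx⟩, hxx]
  have e4 : b (x + 1) / b x *
        (ψ (Function.update a (i + 1) (x + 1)) + ψ (Function.update a (i + 1) (x - 1))) +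
      b (x - 1) / b x *
        (ψ (Function.update a (i + 1) (x + 1)) + ψ (Function.update a (i + 1) (x - 1))) =
      d * (ψ (Function.update a (i + 1) (x + 1)) + ψ (Function.update a (i + 1) (x - 1))) := by
    rw [← add_mul, ← add_div, e1, mul_div_assoc, div_self hbx, mul_one]
  rw [e4]
  ring

end MP_fc1011_gt.MT
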