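import Pool.Agent.Lib.MP_fc1011_gt.MT.Spec

/-!
# MP_fc1011_gt, multi-strand twisting: the unitary bound
-/

set_option autoImplicit false

namespace MP_fc1011_gt.MT

open LaurentPolynomial Finset
open scoped ComplexConjugate

private theorem uni_mem (hFin : S_Fin) {R m : ℕ} {a : ℕ → ℕ} : a ∈ Om R m ↔ Pth R m a := by
  unfold Om
  rw [dif_pos (hFin R m).1, Set.Finite.mem_toFinset]
  exact Iff.rfl

private theorem uni_par {R m : ℕ} {a : ℕ → ℕ} (ha : Pth R m a) :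
    ∀ i ≤ m, a i % 2 = (i + 1) % 2 := by
  intro i
  induction i with
  | zero => intro _; rw [ha.1]
  | succ i ih =>
    intro hi
    have h1 := ih (by omega)
    rcases ha.2.2.1 i (by omega) with h | h <;> omega

private theorem uni_real {b : ℕ → ℂ} {R : ℕ}
    (hb : ∀ n, 1 ≤ n → n ≤ R → b n = (-1) ^ (n + 1) * (‖b n‖ : ℂ)) {n : ℕ} (h1 : 1 ≤ n)
    (h2 : n ≤ R) : conj (b n) = b n := by
  rw [hb n h1 h2, map_mul, map_pow, map_neg, map_one, Complex.conj_ofReal]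

/-- the weight of a path, real -/
private noncomputable def uniW (b : ℕ → ℂ) (m : ℕ) (a : ℕ → ℕ) : ℝ :=
  ∏ j ∈ range m, ‖b (a (j + 1))‖

/-- the sign -/
private noncomputable def uniE (m : ℕ) : ℂ := ∏ j ∈ range m, (-1 : ℂ) ^ (j + 1)

private theorem uniE_norm (m : ℕ) : ‖uniE m‖ = 1 := by
  unfold uniE
  rw [norm_prod]
  refine Finset.prod_eq_one fun j _ => ?_
  rw [norm_pow, norm_neg, norm_one, one_pow]

private theorem uniE_ne (m : ℕ) : uniE m ≠ 0 := by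
  rw [← norm_ne_zero_iff, uniE_norm]
  exact one_ne_zero

private theorem uni_prod {b : ℕ → ℂ} {R m : ℕ}
    (hb : ∀ n, 1 ≤ n → n ≤ R → b n = (-1) ^ (n + 1) * (‖b n‖ : ℂ)) {a : ℕ → ℕ}
    (ha : Pth R m a) : ∏ j ∈ range m, b (a (j + 1)) = uniE m * (uniW b m a : ℂ) := by
  unfold uniE uniW
  rw [Complex.ofReal_prod, ← Finset.prod_mul_distrib]
  refine Finset.prod_congr rfl fun j hj => ?_
  have hj' : j < m := Finset.mem_range.1 hj
  have h1 := ha.2.2.2 (j + 1)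
  have h2 := uni_par ha (j + 1) (by omega)
  have h3 : (-1 : ℂ) ^ (a (j + 1) + 1) = (-1) ^ (j + 1) := by
    rw [neg_one_pow_eq_pow_mod_two, neg_one_pow_eq_pow_mod_two (n := j + 1)]
    congr 1
    omega
  rw [← h3]
  exact hb _ h1.1 h1.2

private theorem uniW_pos {d : ℂ} {b : ℕ → ℂ} {R m : ℕ} (hH : Hts d b R m) {a : ℕ → ℕ}
    (ha : Pth R m a) : 0 < uniW b m a := by
  refine Finset.prod_pos fun j _ => ?_
  rw [norm_pos_iff]
  exact hH.ne _ (ha.2.2.2 _).1 (ha.2.2.2 _).2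

/-- the positive definite form -/
private noncomputable def uniH (b : ℕ → ℂ) (R m : ℕ) (ψ : (ℕ → ℕ) → ℂ) : ℝ :=
  ∑ a ∈ Om R m, ‖ψ a‖ ^ 2 / uniW b m a

private theorem uniH_eq (hFin : S_Fin) {d : ℂ} {b : ℕ → ℂ} {R m : ℕ} (hH : Hts d b R m)
    (hb : ∀ n, 1 ≤ n → n ≤ R → b n = (-1) ^ (n + 1) * (‖b n‖ : ℂ)) (ψ : (ℕ → ℕ) → ℂ) :
    (uniH b R m ψ : ℂ) = uniE m * BB b R m (fun a => conj (ψ a)) ψ := by
  unfold uniH BB
  rw [Complex.ofReal_sum, Finset.mul_sum]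
  refine Finset.sum_congr rfl fun a ha => ?_
  have ha' := (uni_mem hFin).1 ha
  rw [uni_prod hb ha', Complex.conj_mul', Complex.ofReal_div, Complex.ofReal_pow]
  have h1 : (uniW b m a : ℂ) ≠ 0 := Complex.ofReal_ne_zero.2 (uniW_pos hH ha').ne'
  have h2 := uniE_ne m
  field_simp

private theorem uni_cs (hFin : S_Fin) {d : ℂ} {b : ℕ → ℂ} {R m : ℕ} (hH : Hts d b R m)
    (hb : ∀ n, 1 ≤ n → n ≤ R → b n = (-1) ^ (n + 1) * (‖b n‖ : ℂ)) (φ ψ : (ℕ → ℕ) → ℂ) :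
    ‖BB b R m φ ψ‖ ^ 2 ≤ uniH b R m φ * uniH b R m ψ := by
  have h1 : ‖BB b R m φ ψ‖ ≤ ∑ a ∈ Om R m, ‖φ a‖ * ‖ψ a‖ / uniW b m a := by
    refine (norm_sum_le _ _).trans (le_of_eq (Finset.sum_congr rfl fun a ha => ?_))
    have ha' := (uni_mem hFin).1 ha
    rw [uni_prod hb ha', norm_div, norm_mul, norm_mul, uniE_norm, one_mul, Complex.norm_real,
      Real.norm_of_nonneg (uniW_pos hH ha').le]
  have h2 : (∑ a ∈ Om R m, ‖φ a‖ * ‖ψ a‖ / uniW b m a) ^ 2 ≤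
      uniH b R m φ * uniH b R m ψ := by
    refine Finset.sum_sq_le_sum_mul_sum_of_sq_le_mul _ (fun a ha => ?_) (fun a ha => ?_)
      (fun a ha => le_of_eq ?_)
    · exact div_nonneg (sq_nonneg _) (uniW_pos hH ((uni_mem hFin).1 ha)).le
    · exact div_nonneg (sq_nonneg _) (uniW_pos hH ((uni_mem hFin).1 ha)).le
    · ring
  exact (pow_le_pow_left₀ (norm_nonneg _) h1 2).trans h2

private theorem uni_lin (b : ℕ → ℂ) (R m : ℕ) (x y z t : ℂ) (φ φ' ψ ψ' : (ℕ → ℕ) → ℂ) :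
    BB b R m (fun a => x * φ a + y * φ' a) (fun a => z * ψ a + t * ψ' a) =
      x * z * BB b R m φ ψ + x * t * BB b R m φ ψ' + y * z * BB b R m φ' ψ +
        y * t * BB b R m φ' ψ' := by
  unfold BB
  rw [Finset.mul_sum, Finset.mul_sum, Finset.mul_sum, Finset.mul_sum, ← Finset.sum_add_distrib,
    ← Finset.sum_add_distrib, ← Finset.sum_add_distrib]
  refine Finset.sum_congr rfl fun a _ => ?_
  ring

private theorem uni_suppU (b : ℕ → ℂ) (R m i : ℕ) (ψ : (ℕ → ℕ) → ℂ) :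
    Supp R m (UU b R m i ψ) := by
  intro a ha
  unfold UU
  rw [if_neg (fun h => ha h.1)]

private theorem uni_conjU {b : ℕ → ℂ} {R m : ℕ}
    (hb : ∀ n, 1 ≤ n → n ≤ R → b n = (-1) ^ (n + 1) * (‖b n‖ : ℂ)) (i : ℕ)
    (ψ : (ℕ → ℕ) → ℂ) (a : ℕ → ℕ) :
    conj (UU b R m i ψ a) = UU b R m i (fun a => conj (ψ a)) a := by
  unfold UU
  split_ifs with h
  · rw [map_mul, map_add, map_div₀, uni_real hb (h.1.2.2.2 _).1 (h.1.2.2.2 _).2,
      uni_real hb (h.1.2.2.2 _).1 (h.1.2.2.2 _).2]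
  · exact map_zero _

/-- one crossing, general -/
private theorem uni_step (hFin : S_Fin) (hSym : S_Sym) (hU2 : S_U2) {B : ℂ} {b : ℕ → ℂ}
    {R m : ℕ} (hB : ‖B‖ = 1) (hH : Hts (-B ^ 2 - (B ^ 2)⁻¹) b R m)
    (hb : ∀ n, 1 ≤ n → n ≤ R → b n = (-1) ^ (n + 1) * (‖b n‖ : ℂ)) {i : ℕ} (hi : i + 1 < m)
    {ψ : (ℕ → ℕ) → ℂ} (hψ : Supp R m ψ) :
    uniH b R m (fun a => B * ψ a + B⁻¹ * UU b R m i ψ a) = uniH b R m ψ := by
  have hB0 : B ≠ 0 := by
    rw [← norm_ne_zero_iff, hB]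
    exact one_ne_zero
  have hc : conj B = B⁻¹ := by
    have h1 := Complex.conj_mul' B
    rw [hB, Complex.ofReal_one, one_pow] at h1
    exact eq_inv_of_mul_eq_one_left h1
  have hc' : conj (B⁻¹) = B := by rw [map_inv₀, hc, inv_inv]
  have hψ' : Supp R m (fun a => conj (ψ a)) := by
    intro a ha
    show conj (ψ a) = 0
    rw [hψ a ha, map_zero]
  have key : BB b R m (fun a => conj (B * ψ a + B⁻¹ * UU b R m i ψ a))
      (fun a => B * ψ a + B⁻¹ * UU b R m i ψ a) = BB b R m (fun a => conj (ψ a)) ψ := by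
    have e1 : (fun a => conj (B * ψ a + B⁻¹ * UU b R m i ψ a)) =
        fun a => B⁻¹ * conj (ψ a) + B * UU b R m i (fun a => conj (ψ a)) a := by
      funext a
      rw [map_add, map_mul, map_mul, hc, hc', uni_conjU hb]
    rw [e1, uni_lin b R m B⁻¹ B B B⁻¹ (fun a => conj (ψ a))
      (UU b R m i (fun a => conj (ψ a))) ψ (UU b R m i ψ)]
    have s1 := hSym hFin _ b R m i hH hi (fun a => conj (ψ a)) ψ hψ' hψ
    have s2 := hSym hFin _ b R m i hH hi (fun a => conj (ψ a)) (UU b R m i ψ) hψ'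
      (uni_suppU b R m i ψ)
    have s3 : BB b R m (fun a => conj (ψ a)) (UU b R m i (UU b R m i ψ)) =
        (-B ^ 2 - (B ^ 2)⁻¹) * BB b R m (fun a => conj (ψ a)) (UU b R m i ψ) := by
      unfold BB
      rw [Finset.mul_sum]
      refine Finset.sum_congr rfl fun a _ => ?_
      rw [hU2 _ b R m i hH hi ψ a]
      ring
    rw [← s1, ← s2, s3]
    field_simp
    ring
  have h1 := uniH_eq hFin hH hb (fun a => B * ψ a + B⁻¹ * UU b R m i ψ a)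
  rw [key, ← uniH_eq hFin hH hb ψ] at h1
  exact Complex.ofReal_injective h1

private theorem uni_sg (hFin : S_Fin) (hSym : S_Sym) (hU2 : S_U2) {A : ℂ} {b : ℕ → ℂ}
    {R m : ℕ} (hA : ‖A‖ = 1) (hH : Hts (-A ^ 2 - (A ^ 2)⁻¹) b R m)
    (hb : ∀ n, 1 ≤ n → n ≤ R → b n = (-1) ^ (n + 1) * (‖b n‖ : ℂ)) {c : ℕ × Bool}
    (hc : c.1 + 1 < m) {ψ : (ℕ → ℕ) → ℂ} (hψ : Supp R m ψ) :
    uniH b R m (sg A A⁻¹ b R m c ψ) = uniH b R m ψ := by
  by_cases h : c.2 = true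
  · have e1 : sg A A⁻¹ b R m c ψ = fun a => A * ψ a + A⁻¹ * UU b R m c.1 ψ a := by
      funext a
      unfold sg
      rw [if_pos h, if_pos h]
    rw [e1]
    exact uni_step hFin hSym hU2 hA hH hb hc hψ
  · have e1 : sg A A⁻¹ b R m c ψ = fun a => A⁻¹ * ψ a + (A⁻¹)⁻¹ * UU b R m c.1 ψ a := by
      funext a
      unfold sg
      rw [if_neg h, if_neg h, inv_inv]
    rw [e1]
    refine uni_step hFin hSym hU2 (by rw [norm_inv, hA, inv_one]) ?_ hb hc hψ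
    have e2 : -A⁻¹ ^ 2 - (A⁻¹ ^ 2)⁻¹ = -A ^ 2 - (A ^ 2)⁻¹ := by
      rw [inv_pow, inv_inv]
      ring
    rw [e2]
    exact hH

private theorem uni_suppsg {A A' : ℂ} {b : ℕ → ℂ} {R m : ℕ} {c : ℕ × Bool}
    {ψ : (ℕ → ℕ) → ℂ} (hψ : Supp R m ψ) : Supp R m (sg A A' b R m c ψ) := by
  intro a ha
  unfold sg
  rw [hψ a ha, uni_suppU b R m c.1 ψ a ha, mul_zero, mul_zero, add_zero]

private theorem uni_rho (hFin : S_Fin) (hSym : S_Sym) (hU2 : S_U2) {A : ℂ} {b : ℕ → ℂ}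
    {R m : ℕ} (hA : ‖A‖ = 1) (hH : Hts (-A ^ 2 - (A ^ 2)⁻¹) b R m)
    (hb : ∀ n, 1 ≤ n → n ≤ R → b n = (-1) ^ (n + 1) * (‖b n‖ : ℂ)) :
    ∀ (cs : List (ℕ × Bool)), (∀ c ∈ cs, c.1 + 1 < m) → ∀ ψ : (ℕ → ℕ) → ℂ, Supp R m ψ →
      uniH b R m (rho A A⁻¹ b R m cs ψ) = uniH b R m ψ := by
  intro cs
  induction cs with
  | nil => intro _ ψ _; rfl
  | cons c cs ih =>
    intro hcs ψ hψ
    have h1 : rho A A⁻¹ b R m (c :: cs) ψ = rho A A⁻¹ b R m cs (sg A A⁻¹ b R m c ψ) := rfl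
    rw [h1, ih (fun c' hc' => hcs c' (List.mem_cons_of_mem c hc')) _ (uni_suppsg hψ)]
    exact uni_sg hFin hSym hU2 hA hH hb (hcs c List.mem_cons_self) hψ

private theorem uni_suppket (b : ℕ → ℂ) (R : ℕ) {m : ℕ} (μ : Matching m) :
    Supp R m (ket b R μ) := by
  intro a ha
  unfold ket
  rw [if_neg (fun h => ha h.1)]

private theorem uni_conjket {b : ℕ → ℂ} {R m : ℕ}
    (hb : ∀ n, 1 ≤ n → n ≤ R → b n = (-1) ^ (n + 1) * (‖b n‖ : ℂ)) (μ : Matching m) :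
    (fun a => conj (ket b R μ a)) = ket b R μ := by
  funext a
  unfold ket
  split_ifs with h
  · rw [map_prod]
    refine Finset.prod_congr rfl fun x _ => ?_
    split_ifs
    · exact uni_real hb (h.1.2.2.2 _).1 (h.1.2.2.2 _).2
    · exact map_one _
  · exact map_zero _

private theorem uni_cyc {m : ℕ} (μ ν : Matching m) : cyc μ ν ≤ m := by
  unfold cyc loops
  have h1 := Nat.card_le_card_of_surjective
    (Quot.mk (Joined [] μ ν (fun j => j.elim0))) Quot.mk_surjective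
  refine h1.trans (le_of_eq ?_)
  simp

private theorem uni_ket (hFin : S_Fin)
    (hPair : ∀ (d : ℂ) (b : ℕ → ℂ) (R m : ℕ), Hts d b R m →
      ∀ μ ν : Matching m, BB b R m (ket b R ν) (ket b R μ) = d ^ cyc ν μ)
    {d : ℂ} {b : ℕ → ℂ} {R m : ℕ} (hH : Hts d b R m) (hd : ‖d‖ ≤ 2)
    (hb : ∀ n, 1 ≤ n → n ≤ R → b n = (-1) ^ (n + 1) * (‖b n‖ : ℂ)) (μ : Matching m) :
    uniH b R m (ket b R μ) ≤ 2 ^ m := by
  have h1 := uniH_eq hFin hH hb (ket b R μ)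
  rw [uni_conjket hb μ, hPair d b R m hH μ μ] at h1
  have h2 := congrArg norm h1
  rw [Complex.norm_real, norm_mul, uniE_norm, one_mul, norm_pow] at h2
  refine (le_abs_self _).trans ?_
  rw [← Real.norm_eq_abs, h2]
  calc ‖d‖ ^ cyc μ μ ≤ 2 ^ cyc μ μ := pow_le_pow_left₀ (norm_nonneg _) hd _
    _ ≤ 2 ^ m := pow_le_pow_right₀ (by norm_num) (uni_cyc μ μ)

theorem sUni : S_Uni := by
  intro hFin hSym hU2 hPair hEval A b R m hA hH hd hb cs hcs μ ν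
  rw [hEval A A⁻¹ _ b R m hH cs hcs μ ν]
  have h1 := uni_cs hFin hH hb (ket b R ν) (rho A A⁻¹ b R m cs (ket b R μ))
  rw [uni_rho hFin hSym hU2 hA hH hb cs hcs (ket b R μ) (uni_suppket b R μ)] at h1
  have h2 := uni_ket hFin hPair hH hd hb μ
  have h3 := uni_ket hFin hPair hH hd hb ν
  have h4 : 0 ≤ uniH b R m (ket b R μ) := by
    refine Finset.sum_nonneg fun a ha => ?_
    exact div_nonneg (sq_nonneg _) (uniW_pos hH ((uni_mem hFin).1 ha)).le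
  have h5 : (0 : ℝ) ≤ 2 ^ m := by positivity
  refine le_of_sq_le_sq (h1.trans ?_) h5
  rw [sq]
  exact mul_le_mul h3 h2 h4 h5

end MP_fc1011_gt.MT
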