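import Pool.Agent.Lib.MP_fc1011_gt.MT.Asm
import Pool.Agent.Lib.MP_fc1011_gt.MT.Cap
import Pool.Agent.Lib.MP_fc1011_gt.MT.Col
import Pool.Agent.Lib.MP_fc1011_gt.MT.State
import Pool.Agent.Lib.MP_fc1011_gt.MT.Exch
import Pool.Agent.Lib.MP_fc1011_gt.MT.Reach
import Pool.Agent.Lib.MP_fc1011_gt.MT.Fin
import Pool.Agent.Lib.MP_fc1011_gt.MT.U2
import Pool.Agent.Lib.MP_fc1011_gt.MT.Ket
import Pool.Agent.Lib.MP_fc1011_gt.MT.Sym
import Pool.Agent.Lib.MP_fc1011_gt.MT.BStd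
import Pool.Agent.Lib.MP_fc1011_gt.MT.Pair
import Pool.Agent.Lib.MP_fc1011_gt.MT.Eval
import Pool.Agent.Lib.MP_fc1011_gt.MT.Around
import Pool.Agent.Lib.MP_fc1011_gt.MT.Full
import Pool.Agent.Lib.MP_fc1011_gt.MT.Tw
import Pool.Agent.Lib.MP_fc1011_gt.MT.Gen
import Pool.Agent.Lib.MP_fc1011_gt.MT.Uni
import Pool.Agent.Lib.MP_fc1011_gt.MT.Interp
import Pool.Agent.Lib.MP_fc1011_gt.MT.Extra
import Pool.Agent.Lib.MP_fc1011_gt.MT.TrigGen
import Pool.Agent.Lib.MP_fc1011_gt.MT.TrigUni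
import Pool.Agent.Lib.MP_fc1011_gt.MT.Bridge

/-!
# `log |V(-1)| / log (span V) ≤ 13 (N + m)`
-/

set_option autoImplicit false

namespace MP_fc1011_gt.MT

open LaurentPolynomial

theorem quotient_le (m : ℕ) (hm : 0 < m) (D : Diagram m) (V : ℤ[T;T⁻¹]) (hV : D.IsJones V)
    (hs : 2 ≤ span V) : quotient V ≤ 13 * (D.twists + m) :=
  asm sCap sCol sState sExch sReach sFin sU2 sKet sSym sBStd sPair sEval sAround sFull sTw sGen
    sUni sInterp sExtra sTrigGen sTrigUni sBridge m hm D V hV hs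

end MP_fc1011_gt.MT
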