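import Pool.Agent.Lib.MP_fc1011_gt.MT.Defs
import Pool.Agent.Lib.MP_fc1011_gt.Quotient

/-!
# MP_fc1011_gt, multi-strand twisting: the statements of the modules

Every `S_X` is proved in its own file `MT/X.lean` as `theorem sX : S_X`; the docstring contains the
proof.  Statements used in a proof are hypotheses (`S_A → …`) or can be imported.

Idea: the path (height) model of the Temperley-Lieb algebra.  A path is a function `a : ℕ → ℕ` with
`a 0 = 1`, steps `±1` up to the place `m`, and `a i = 1` for `i ≥ m`; the value `a i` sits between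
the strands `i - 1` and `i`.  The full twist of the first `k` strands is a diagonal operator.
-/

set_option autoImplicit false

namespace MP_fc1011_gt.MT

open LaurentPolynomial Finset

/-! ## Part 1: matchings -/

/-- The matching after a cap and a cup at the points `i` and `j = i + 1`. -/
def capF {m : ℕ} (f : Fin m → Fin m) (i j : Fin m) (x : Fin m) : Fin m :=
  if x = i then j else if x = j then i else if f x = i then f j else if f x = j then f i else f x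

open Classical in
/-- The matching after a cap and a cup at the points `i` and `i + 1` (see `S_Cap`). -/
noncomputable def Matching.cap {m : ℕ} (μ : Matching m) (i : ℕ) : Matching m :=
  if h : ∃ (hi : i + 1 < m) (ν : Matching m), ν.f = capF μ.f ⟨i, by omega⟩ ⟨i + 1, hi⟩ then
    h.choose_spec.choose
  else μ

/-- (60 lines) **Cap.**  Proof.  `capF` is an involution without fixed points: cases.  Not crossing:
use the property of `μ` in the form: `x < y < μ x` implies `x < μ y < μ x` (if `μ y < x` then the pair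
`(μ y, x)` is crossing: `μ y < x < y = μ (μ y) < μ x`).  Let `j = μ i`, `l = μ (i+1)`,
`j ≠ i + 1` (otherwise `capF μ.f = μ.f`).  The arcs of the new matching are `{i, i+1}`, `{j, l}` and the
other arcs of `μ`.  `{i, i+1}` crosses nothing.  If the arc `{x, μ x}` crosses `{j, l}` then exactly one of
`x, μ x` is between `j` and `l`; both are on the same side of (the arc) `{j, i}` and on the same side of
`{i+1, l}`, a contradiction.  (All cases by `omega` from the relevant instances of the property.) -/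
def S_Cap : Prop := ∀ (m : ℕ) (μ : Matching m) (i : ℕ) (hi : i + 1 < m),
  (μ.cap i).f = capF μ.f ⟨i, by omega⟩ ⟨i + 1, hi⟩

open Classical in
/-- `1` if the points `i` and `i + 1` are joined by `μ`, and `0` otherwise. -/
noncomputable def lp {m : ℕ} (μ : Matching m) (i : ℕ) : ℕ :=
  if ∃ hi : i + 1 < m, μ.f ⟨i, by omega⟩ = ⟨i + 1, hi⟩ then 1 else 0

/-- The number of loops of two matchings. -/
noncomputable def cyc {m : ℕ} (μ ν : Matching m) : ℕ := loops [] μ ν (fun j => j.elim0)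

/-- The sum over the states, computed crossing by crossing (it is `delta * bracket`). -/
noncomputable def EE {S : Type} [CommRing S] (A A' d : S) {m : ℕ} :
    List (ℕ × Bool) → Matching m → Matching m → S
  | [], μ, ν => d ^ cyc μ ν
  | c :: cs, μ, ν => (if c.2 = true then A else A') * EE A A' d cs μ ν +
      (if c.2 = true then A' else A) * (d ^ lp μ c.1 * EE A A' d cs (μ.cap c.1) ν)

/-- (60 lines; uses `S_Cap`) **Colourings and cap.**  For a colouring `y` with `y i = y (i+1)`: the number of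
colourings `x` with `x = y` outside of `i, i+1`, `x i = x (i+1)`, which are constant on the arcs of `μ` is
`2 ^ lp μ i` if `y` is constant on the arcs of `cap μ i`, and `0` otherwise.

Proof.  `x` is determined by the common value `x i`.  If `μ i = i + 1`, both values are possible, `cap μ i` has
the same arcs as `μ`.  Otherwise `x i = x (μ i) = y (μ i)`, `x (i+1) = y (μ (i+1))`, so there is one `x` if
`y (μ i) = y (μ (i+1))` and `y` is constant on the other arcs, and none otherwise. -/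
def S_Col : Prop := S_Cap → ∀ (m : ℕ) (μ : Matching m) (i : ℕ) (hi : i + 1 < m) (y : Fin m → Bool),
  y ⟨i, by omega⟩ = y ⟨i + 1, hi⟩ →
  (∑ x : Fin m → Bool, if ((∀ z : Fin m, (z : ℕ) ≠ i → (z : ℕ) ≠ i + 1 → x z = y z) ∧
      x ⟨i, by omega⟩ = x ⟨i + 1, hi⟩ ∧ ∀ z, x (μ.f z) = x z) then 1 else 0 : ℕ) =
    if (∀ z, y ((μ.cap i).f z) = y z) then 2 ^ lp μ i else 0

/-- (150 lines; uses `S_Cap`, `S_Col`) **State sum.**

Proof.  `2 ^ loops cs μ ν s` is the number of colourings `y : Fin (L+1) → Fin m → Bool` (`L = cs.length`) which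
are constant on joined pieces (`Quot`, `Nat.card` of the functions on a quotient; compare `two_pow_loops` in
`MP_fc1011_gt/Loops.lean`): `y 0` constant on the arcs of `μ`, `y L` on the arcs of `ν`, and for every `j` the
step condition between `y j` and `y (j+1)`.  Summing over `y 0` first (`Fin.consEquiv`): if the first crossing
is smoothed vertically, `y 0 = y 1`, so `loops (c :: cs) μ ν (cons true s) = loops cs μ ν s`; if horizontally, by
`S_Col` `loops (c :: cs) μ ν (cons false s) = lp μ c.1 + loops cs (μ.cap c.1) ν s`.  As `m > 0`, `loops > 0`, so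
`delta * delta ^ (loops - 1) = delta ^ loops`.  Induction on `cs`. -/
def S_State : Prop := S_Cap → S_Col → ∀ (m : ℕ), 0 < m → ∀ (cs : List (ℕ × Bool)) (μ ν : Matching m),
  (∀ c ∈ cs, c.1 + 1 < m) → delta * bracket cs μ ν = EE (T 1) (T (-1)) delta cs μ ν

/-- (60 lines; uses `S_Cap`, `S_Col`) **Exchange.**

Proof.  `2 ^ cyc μ ν` is the number of colourings `x : Fin m → Bool` constant on the arcs of `μ` and of `ν`.  By
`S_Col`, `2 ^ (lp μ i + cyc (cap μ i) ν)` is the number of pairs `(x, y)`, `x` constant on the arcs of `μ`,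
`y` constant on the arcs of `ν`, `x i = x (i+1)`, `y i = y (i+1)`, `x = y` outside of `i, i+1`.  By symmetry this is
also `2 ^ (lp ν i + cyc μ (cap ν i))`. -/
def S_Exch : Prop := S_Cap → S_Col → ∀ (m : ℕ) (μ ν : Matching m) (i : ℕ), i + 1 < m →
  cyc (μ.cap i) ν + lp μ i = cyc μ (ν.cap i) + lp ν i

/-- The total length of the arcs (twice). -/
def len {m : ℕ} (μ : Matching m) : ℕ := ∑ x, (((μ.f x : ℕ) : ℤ) - (x : ℕ)).natAbs

/-- All arcs join the points `2 j` and `2 j + 1`. -/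
def IsStd {m : ℕ} (μ : Matching m) : Prop :=
  ∀ x : Fin m, ((x : ℕ) % 2 = 0 → (μ.f x : ℕ) = x + 1) ∧ ((x : ℕ) % 2 = 1 → (μ.f x : ℕ) + 1 = x)

/-- (120 lines; uses `S_Cap`) **Reachability.**

Proof.  If all arcs are adjacent (`μ x = x ± 1`) then `IsStd μ` (strong induction on `x`).  Otherwise take a non adjacent
arc `x < μ x = y`, `y ≥ x + 2`, with `y - x` minimal.  Then the arcs inside of `(x, y)` are adjacent, so
`μ (x+1) = x + 2` (it is inside of `(x, y)`, adjacent, and not `x`), and `x + 2 < y`.  Let `i = x + 1` and let `ν` be the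
matching with the arcs `{x, x+1}`, `{x+2, y}` and the other arcs of `μ` (not crossing, as the arcs of `μ` do not cross
`{x, y}` and `{x+1, x+2}`).  Then `capF ν.f i (i+1) = μ.f`, `ν i ≠ i + 1`, and the total length is smaller. -/
def S_Reach : Prop := S_Cap → ∀ (m : ℕ) (μ : Matching m), IsStd μ ∨
  ∃ (i : ℕ) (ν : Matching m), i + 1 < m ∧ lp ν i = 0 ∧ ν.cap i = μ ∧ len ν < len μ

/-! ## Part 2: the path model -/

/-- The weights `b n = (-1)^(n+1) [n]`. -/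
structure Hts (d : ℂ) (b : ℕ → ℂ) (R m : ℕ) : Prop where
  b0 : b 0 = 0
  b1 : b 1 = 1
  rc : ∀ n, b (n + 2) = d * b (n + 1) - b n
  ne : ∀ n, 1 ≤ n → n ≤ R → b n ≠ 0
  top : b (R + 1) = 0 ∨ m + 2 ≤ R
  two : 2 ≤ R

/-- Paths. -/
def Pth (R m : ℕ) (a : ℕ → ℕ) : Prop :=
  a 0 = 1 ∧ (∀ i, m ≤ i → a i = 1) ∧ (∀ i, i < m → (a (i + 1) = a i + 1 ∨ a (i + 1) + 1 = a i)) ∧
    ∀ i, 1 ≤ a i ∧ a i ≤ R

/-- Functions which vanish outside of the paths. -/
def Supp (R m : ℕ) (ψ : (ℕ → ℕ) → ℂ) : Prop := ∀ a, ¬ Pth R m a → ψ a = 0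

open Classical in
/-- The operator of a cap and a cup at the strands `i`, `i + 1` (it changes the value `a (i + 1)`). -/
noncomputable def UU (b : ℕ → ℂ) (R m i : ℕ) (ψ : (ℕ → ℕ) → ℂ) (a : ℕ → ℕ) : ℂ :=
  if Pth R m a ∧ a i = a (i + 2) then
    b (a (i + 1)) / b (a i) *
      (ψ (Function.update a (i + 1) (a i + 1)) + ψ (Function.update a (i + 1) (a i - 1)))
  else 0

/-- The operator of a crossing. -/
noncomputable def sg (A A' : ℂ) (b : ℕ → ℂ) (R m : ℕ) (c : ℕ × Bool) (ψ : (ℕ → ℕ) → ℂ)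
    (a : ℕ → ℕ) : ℂ :=
  (if c.2 = true then A else A') * ψ a + (if c.2 = true then A' else A) * UU b R m c.1 ψ a

/-- The operator of a list of crossings (the first crossing is applied first). -/
noncomputable def rho (A A' : ℂ) (b : ℕ → ℂ) (R m : ℕ) (cs : List (ℕ × Bool))
    (ψ : (ℕ → ℕ) → ℂ) : (ℕ → ℕ) → ℂ :=
  cs.foldl (fun φ c => sg A A' b R m c φ) ψ

/-- The heights on both sides of an arc agree. -/
def Compat {m : ℕ} (μ : Matching m) (a : ℕ → ℕ) : Prop :=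
  ∀ x : Fin m, a x = a ((μ.f x : ℕ) + 1) ∧ a ((x : ℕ) + 1) = a (μ.f x : ℕ)

open Classical in
/-- The vector of a matching: the product over the left ends `x` of the arcs of `b` (height inside). -/
noncomputable def ket (b : ℕ → ℂ) (R : ℕ) {m : ℕ} (μ : Matching m) (a : ℕ → ℕ) : ℂ :=
  if Pth R m a ∧ Compat μ a then ∏ x : Fin m, (if x < μ.f x then b (a ((x : ℕ) + 1)) else 1) else 0

/-- (50 lines) **Finiteness** of the set of paths, and at most `2 ^ m` elements.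

Proof.  A path is determined by `i ↦ (a (i+1) = a i + 1)`, `i < m`: injection into `Fin m → Bool`
(`Set.Finite.of_injOn`, `Set.ncard_le_ncard_of_injOn`; two paths with the same steps agree by induction on `i ≤ m`,
and for `i ≥ m`). -/
def S_Fin : Prop := ∀ R m : ℕ, {a | Pth R m a}.Finite ∧ {a | Pth R m a}.ncard ≤ 2 ^ m

open Classical in
/-- The finite set of paths. -/
noncomputable def Om (R m : ℕ) : Finset (ℕ → ℕ) :=
  if h : {a | Pth R m a}.Finite then h.toFinset else ∅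

/-- The bilinear form. -/
noncomputable def BB (b : ℕ → ℂ) (R m : ℕ) (φ ψ : (ℕ → ℕ) → ℂ) : ℂ :=
  ∑ a ∈ Om R m, φ a * ψ a / ∏ j ∈ range m, b (a (j + 1))

/-- (40 lines) **`U ^ 2 = d U`.**

Proof.  Let `a` be a path, `a i = a (i+2) = x ≥ 1`, `u = a (i+1)`, `S` the sum of `ψ` over the two updates of `a` (it
depends only on the other values: `Function.update_idem`).  `UU i (UU i ψ) a = b u / b x * (b (x+1) / b x * S + b (x-1) / b x * S)`, also if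
the update is not a path: then the value of `UU i ψ` is `0`, and the update to `x + 1` is not a path only if `x + 1 > R`
(all other conditions are inherited; note `i + 2 ≤ m`), so `x = R`, and `m + 2 ≤ R` is impossible as `x ≤ i + 1 ≤ m`
(induction), so `b (x + 1) = 0`; the update to `x - 1` is not a path only if `x = 1`, and `b 0 = 0`.  Finally
`b (x+1) + b (x-1) = d b x`. -/
def S_U2 : Prop := ∀ (d : ℂ) (b : ℕ → ℂ) (R m i : ℕ), Hts d b R m → i + 1 < m →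
  ∀ ψ : (ℕ → ℕ) → ℂ, ∀ a, UU b R m i (UU b R m i ψ) a = d * UU b R m i ψ a

/-- (150 lines; uses `S_Cap`) **The action on the vectors of matchings.**

Proof.  Let `j = μ i`, `l = μ (i+1)`, `μ' = cap μ i`.  Both sides vanish if `a` is not a path or `a i ≠ a (i+2)` (`{i, i+1}` is an arc
of `μ'`).  So let `a` be a path, `x = a i = a (i+2)`, and `a_u = update a (i+1) u`.

Case `j = i + 1` (`lp = 1`, `μ' = μ` as functions): `Compat` of `a_u` does not depend on `u` (the value at `i+1` occurs only in the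
conditions of the arc `{i, i+1}`, which hold), so `ket μ a_u = b u * g` for `a_u` a path, `g` independent of `u`; for `a_u` not a path
`b u = 0` (as in `S_U2`), and `b (a (i+1)) / b x * g * (b (x+1) + b (x-1)) = d * b (a (i+1)) * g = d * ket μ a`.

Case `j ≠ i + 1`: `Compat μ a_u` means `u = a j`, `u = a (l+1)`, `x = a (j+1)`, `x = a l` (the places `j, j+1, l, l+1` are different from
`i + 1`), and the conditions of the other arcs.  So it holds for some `u` iff `Compat μ' a`, and then `u = a j = x ± 1` is unique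
(`a (j+1) = x` and `a` is a path), and `a_u` is a path.  The weights: with `W = b` (inside of `{j,i}`) `* b` (inside of `{i+1,l}`), `W' = b`
(inside of `{j, l}`), it remains to prove `W = b x * W'`:
`j < i`, `l > i+1`: `W = b (a (j+1)) * b (a (i+2))`, `W' = b (a (j+1))`, `a (j+1) = x`.
`j > i`: then `i + 1 < l < j` (not crossing), `W = b u * b (a (i+2))`, `W' = b (a (l+1)) = b u`.
`j < i`, `l < i`: then `l < j` (not crossing), `W = b (a (j+1)) * b (a (l+1)) = b x * b u`, `W' = b (a (l+1)) = b u`. -/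
def S_Ket : Prop := S_Cap → ∀ (d : ℂ) (b : ℕ → ℂ) (R m i : ℕ), Hts d b R m → i + 1 < m →
  ∀ (μ : Matching m) (a : ℕ → ℕ),
    UU b R m i (ket b R μ) a = d ^ lp μ i * ket b R (μ.cap i) a

/-- (80 lines; uses `S_Fin`) **Symmetry.**

Proof.  `BB φ (UU i ψ) = ∑ over the pairs (a, u)`, `a` a path, `a i = a (i+2)`, `u ∈ {a i + 1, a i - 1}`, of
`φ a * ψ (update a (i+1) u) / (b (a i) * ∏_{j ≠ i} b (a (j+1)))`; only pairs for which the update is a path matter (`Supp`).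
The map `(a, u) ↦ (update a (i+1) u, a (i+1))` is an involution of the set of pairs with both paths, and exchanges the
roles of `φ` and `ψ` (`Finset.sum_nbij'`). -/
def S_Sym : Prop := S_Fin → ∀ (d : ℂ) (b : ℕ → ℂ) (R m i : ℕ), Hts d b R m → i + 1 < m →
  ∀ φ ψ : (ℕ → ℕ) → ℂ, Supp R m φ → Supp R m ψ → BB b R m φ (UU b R m i ψ) = BB b R m (UU b R m i φ) ψ

/-- (100 lines; uses `S_Fin`) **The standard matching.**

Proof.  `m` is even (`μ` has no fixed point).  A path compatible with `μ` has `a (2j) = a (2j+2)` for all `2 j < m` so `a (2j) = 1`,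
`a (2j+1) = 2` (`a (2j+1) ≥ 1`, a step from `1`).  So `ket μ` is supported on this path, with the value `(b 2) ^ (m/2) = d ^ (m/2)`,
and the denominator is also `d ^ (m/2)`.  So `BB = d ^ (m/2)`.  `cyc μ μ = m / 2`: the classes of `Joined [] μ μ` are the arcs. -/
def S_BStd : Prop := S_Fin → ∀ (d : ℂ) (b : ℕ → ℂ) (R m : ℕ), Hts d b R m →
  ∀ μ : Matching m, IsStd μ → BB b R m (ket b R μ) (ket b R μ) = d ^ cyc μ μ

/-- (100 lines; uses all statements before) **The form on the vectors of matchings.**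

Proof.  `d = b 2 ≠ 0`.  (1) `ν = μ₀` with `IsStd μ₀` (all such matchings are equal).  Claim: `BB (ket μ₀) (ket μ) = d ^ cyc μ₀ μ`.
Induction on the number of even `i` with `i + 1 < m`, `μ i ≠ i + 1`.  If it is `0` then `IsStd μ`, `S_BStd`.  Otherwise take such an `i`:
`lp μ₀ i = 1`, `cap μ₀ i = μ₀`, `d * BB (ket μ₀) (ket μ) = BB (U (ket μ₀)) (ket μ) = BB (ket μ₀) (U (ket μ)) = d ^ lp μ i * BB (ket μ₀) (ket (cap μ i))`
(`S_Ket`, `S_Sym`) and `S_Exch`: `cyc μ₀ μ + 1 = cyc μ₀ (cap μ i) + lp μ i`; and `cap μ i` has one more pair `{i, i+1}` and keeps the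
other ones.  (2) General `ν`: strong induction on `len ν` for all `μ`.  By `S_Reach` `ν = cap ν' i`, `lp ν' i = 0`, so
`BB (ket ν) (ket μ) = BB (U (ket ν')) (ket μ) = BB (ket ν') (U (ket μ)) = d ^ lp μ i * BB (ket ν') (ket (cap μ i)) = d ^ (lp μ i + cyc ν' (cap μ i)) = d ^ cyc ν μ`
(`S_Exch`). -/
def S_Pair : Prop := S_Cap → S_Col → S_Exch → S_Reach → S_Fin → S_Ket → S_Sym → S_BStd →
  ∀ (d : ℂ) (b : ℕ → ℂ) (R m : ℕ), Hts d b R m →
  ∀ μ ν : Matching m, BB b R m (ket b R ν) (ket b R μ) = d ^ cyc ν μ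

/-- (60 lines) **Evaluation.**

Proof.  `cyc μ ν = cyc ν μ` (the relations `Joined [] μ ν` and `Joined [] ν μ` generate the same classes).  Induction on `cs` for all `μ`
(`rho (c :: cs) ψ = rho cs (sg c ψ)`, `rho cs` is linear, `BB` is linear in the second argument, `S_Ket`). -/
def S_Eval : Prop := S_Cap → S_Ket → (∀ (d : ℂ) (b : ℕ → ℂ) (R m : ℕ), Hts d b R m →
  ∀ μ ν : Matching m, BB b R m (ket b R ν) (ket b R μ) = d ^ cyc ν μ) →
  ∀ (A A' d : ℂ) (b : ℕ → ℂ) (R m : ℕ), Hts d b R m → ∀ (cs : List (ℕ × Bool)),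
    (∀ c ∈ cs, c.1 + 1 < m) → ∀ μ ν : Matching m,
    EE A A' d cs μ ν = BB b R m (ket b R ν) (rho A A' b R m cs (ket b R μ))

/-- (130 lines) **A strand which goes around the first ones is diagonal.**

Proof.  Induction on `j`; `around j = j :: (around (j-1)) ++ [j]` (`j ≥ 1`), `around 0 = [0, 0]`; with `Λ_{-1} = 1` (and `a 1 = 2`, `a 0 = 1`,
`A ^ (4 - 1 - 3) = 1`) the case `j = 0` is the same computation.  `Λ_j = σ_j Λ_{j-1} σ_j`, `σ ψ = A ψ + A⁻¹ U ψ`, `Λ_{j-1}` is multiplication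
by `κ = A ^ (u^2 - x^2 - 3)`, `x = a j`, `u = a (j+1)`, `y = a (j+2)`.
Case `x ≠ y`: `U` vanishes at `a`, so `Λ_j ψ a = A^2 κ ψ a`, and `y^2 - u^2 = u^2 - x^2 + 2`.
Case `x = y`: let `ψ_±` be the values at the updates of `a` by `x ± 1`, `κ_± = A ^ (±2x - 2)`, `b_± = b (x ± 1)`,
`(σψ)_± = A ψ_± + A⁻¹ b_± / b_x * (ψ_+ + ψ_-)`.  For a neighbour which is not a path `ψ = 0` and `b = 0` (see `S_U2`), so the formula
remains true.  The identity needed: `A⁻² (κ_+ b_+ + κ_- b_-) / b_x = - (κ_+ + κ_-)`, i.e. with `(A^2 - A⁻²) b n = (-1)^(n+1) (A^(2n) - A^(-2n))`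
(induction on `n`): `A^(2x-2) (A^(2x+2) - A^(-2x-2)) + A^(-2x-2) (A^(2x-2) - A^(2-2x)) = (A^(2x) - A^(-2x)) (A^(2x) + A^(-2x))`.  Then
`Λ_j ψ (u = +) = (A^2 κ_+ + b_+ / b_x * (κ_+ - κ_-)) ψ_+ = A^(-2x-4) ψ_+`, and similarly `A^(2x-4) ψ_-`. -/
def S_Around : Prop := ∀ (A : ℂ) (b : ℕ → ℂ) (R m j : ℕ), A ≠ 0 → A ^ 4 ≠ 1 →
  Hts (-A ^ 2 - (A ^ 2)⁻¹) b R m → j + 1 < m → ∀ ψ : (ℕ → ℕ) → ℂ, Supp R m ψ → ∀ a, Pth R m a →
    rho A A⁻¹ b R m ((around j).map fun i => (i, true)) ψ a =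
      A ^ ((a (j + 2) : ℤ) ^ 2 - (a (j + 1) : ℤ) ^ 2 - 3) * ψ a

/-- (60 lines; uses `S_Around`) **Full twists are diagonal, with entries of modulus one.**

Proof.  `rho` of a concatenation is the composition; `Supp` is preserved by `sg`, `rho`.  `(fullTwist k).map (·, true)` is the product
of the `around j`, `j + 2 ≤ k ≤ m`, so `rho` multiplies `ψ a` by a number `θ a` of modulus one (`‖A‖ = 1`) on paths.  Powers: `θ a ^ |n|`.
Negative sign: `rho A A⁻¹` of `(l.map (·, false))` is `rho A⁻¹ A` of `(l.map (·, true))`, use `A⁻¹` in place of `A`. -/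
def S_Full : Prop := S_Around → ∀ (A : ℂ) (b : ℕ → ℂ) (R m : ℕ), ‖A‖ = 1 → A ^ 4 ≠ 1 →
  Hts (-A ^ 2 - (A ^ 2)⁻¹) b R m → ∀ (k : ℕ) (n : ℤ), k ≤ m → ∃ θ : (ℕ → ℕ) → ℂ,
    (∀ a, ‖θ a‖ = 1) ∧ ∀ ψ : (ℕ → ℕ) → ℂ, Supp R m ψ → ∀ a,
      rho A A⁻¹ b R m (Letter.crossings (.full k n)) ψ a = θ a * ψ a

/-- (80 lines; uses `S_U2`) **The norm of a twist region.**

Proof.  With `A₁ = A` or `A⁻¹` (the sign), `N = |n|`: `rho ψ = A₁^N ψ + c_N U ψ` with `c_0 = 0`, `c_{N+1} = (A₁ + A₁⁻¹ d) c_N + A₁⁻¹ A₁^N = -A₁⁻³ c_N + A₁^(N-1)`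
(`S_U2`), so `d c_N = (-A₁⁻³)^N - A₁^N` and `‖c_N‖ ≤ 2 / ‖d‖ ≤ 2 / ε` (`d = b 2`).  `‖U ψ a‖ ≤ (R / ε) * 2 C`.  So
`‖rho ψ a‖ ≤ (1 + 4 R / ε^2) C ≤ 5 R / ε^2 * C`. -/
def S_Tw : Prop := S_U2 → ∀ (A : ℂ) (b : ℕ → ℂ) (R m : ℕ) (ε : ℝ), ‖A‖ = 1 →
  Hts (-A ^ 2 - (A ^ 2)⁻¹) b R m → 0 < ε → ε ≤ 1 → (∀ n, 1 ≤ n → n ≤ R → ε ≤ ‖b n‖) →
  (∀ n, ‖b n‖ ≤ n) → ∀ (i : ℕ) (n : ℤ), i + 1 < m → ∀ (ψ : (ℕ → ℕ) → ℂ) (C : ℝ), Supp R m ψ →
    (∀ a, ‖ψ a‖ ≤ C) → ∀ a, ‖rho A A⁻¹ b R m (Letter.crossings (.twist i n)) ψ a‖ ≤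
      5 * R / ε ^ 2 * C

/-- (80 lines) **The generic bound.**

Proof.  `EE = BB (ket bot) (rho (ket top))` (`S_Eval`'s conclusion); `‖ket top a‖ ≤ R ^ m` (`‖b n‖ ≤ n ≤ R` on paths, `R ≥ 1`), by `S_Full` and `S_Tw`
and induction on the word `‖rho (ket top) a‖ ≤ R ^ m (5 R / ε ^ 2) ^ twists`; in `BB` there are at most `2 ^ m` summands (`S_Fin`), each is at most
`R ^ m * (…) / ε ^ m`.  (Use that `rho` of `flatMap` is the composition over the letters and preserves `Supp`.) -/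
def S_Gen : Prop := S_Fin → S_Full → S_Tw → S_Around → S_U2 →
  (∀ (A A' d : ℂ) (b : ℕ → ℂ) (R m : ℕ), Hts d b R m → ∀ (cs : List (ℕ × Bool)),
    (∀ c ∈ cs, c.1 + 1 < m) → ∀ μ ν : Matching m,
    EE A A' d cs μ ν = BB b R m (ket b R ν) (rho A A' b R m cs (ket b R μ))) →
  ∀ (A : ℂ) (b : ℕ → ℂ) (R m : ℕ) (ε : ℝ), ‖A‖ = 1 → A ^ 4 ≠ 1 →
  Hts (-A ^ 2 - (A ^ 2)⁻¹) b R m → 0 < ε → ε ≤ 1 → (∀ n, 1 ≤ n → n ≤ R → ε ≤ ‖b n‖) →
  (∀ n, ‖b n‖ ≤ n) → ∀ D : Diagram m,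
    ‖EE A A⁻¹ (-A ^ 2 - (A ^ 2)⁻¹) D.crossings D.top D.bot‖ ≤
      (2 * R ^ 2 / ε) ^ m * (5 * R / ε ^ 2) ^ D.twists

/-- (150 lines) **The unitary bound.**

Proof.  `EE = BB (ket ν) (rho (ket μ))`.  `b` is real.  On a path `a j ≡ j + 1 mod 2`, so `∏_{j<m} b (a (j+1)) = η ∏_{j<m} ‖b (a (j+1))‖` with
a sign `η` which does not depend on the path.  So `H ψ := ∑_{a ∈ Om} ‖ψ a‖^2 / ∏ ‖b (a (j+1))‖ = η * BB (conj ψ) ψ`.  For a crossing
`BB (conj (sg ψ)) (sg ψ) = BB (conj ψ) ψ`: with `A₁ = A` or `A⁻¹`, `conj A₁ = A₁⁻¹`, `conj (sg ψ) = A₁⁻¹ conj ψ + A₁ U (conj ψ)` (`b` real), by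
`S_Sym`, `S_U2` the form is `BB (conj ψ) ψ + (A₁⁻² + A₁² + d) BB (conj ψ) (U ψ)`.  So `H (rho ψ) = H ψ`; `H (ket μ) = |BB (ket μ) (ket μ)| = |d ^ cyc μ μ| ≤ 2 ^ m`
(`cyc ≤ m`, `‖d‖ ≤ 2`; `S_Pair`'s conclusion), and by Cauchy-Schwarz `‖BB φ ψ‖^2 ≤ H φ * H ψ`. -/
def S_Uni : Prop := S_Fin → S_Sym → S_U2 →
  (∀ (d : ℂ) (b : ℕ → ℂ) (R m : ℕ), Hts d b R m →
    ∀ μ ν : Matching m, BB b R m (ket b R ν) (ket b R μ) = d ^ cyc ν μ) →
  (∀ (A A' d : ℂ) (b : ℕ → ℂ) (R m : ℕ), Hts d b R m → ∀ (cs : List (ℕ × Bool)),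
    (∀ c ∈ cs, c.1 + 1 < m) → ∀ μ ν : Matching m,
    EE A A' d cs μ ν = BB b R m (ket b R ν) (rho A A' b R m cs (ket b R μ))) →
  ∀ (A : ℂ) (b : ℕ → ℂ) (R m : ℕ), ‖A‖ = 1 → Hts (-A ^ 2 - (A ^ 2)⁻¹) b R m →
  ‖-A ^ 2 - (A ^ 2)⁻¹‖ ≤ 2 → (∀ n, 1 ≤ n → n ≤ R → b n = (-1) ^ (n + 1) * (‖b n‖ : ℂ)) →
  ∀ (cs : List (ℕ × Bool)), (∀ c ∈ cs, c.1 + 1 < m) → ∀ μ ν : Matching m,
    ‖EE A A⁻¹ (-A ^ 2 - (A ^ 2)⁻¹) cs μ ν‖ ≤ 2 ^ m

/-! ## Part 3: analysis -/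

/-- (60 lines) **Interpolation.**

Proof.  Let `M = s + 1`, `ω = exp (2πi/M)`, `c k ζ^k = (1/M) ∑_{j<M} p (ζ ω^j) ω^(-jk)` for `k < M` (geometric sums: `∑_j ω^(j(l-k)) = 0` for
`0 < |l - k| < M`).  So `‖c k‖ ≤ B`. -/
def S_Interp : Prop := ∀ (s : ℕ) (c : ℕ → ℂ) (ζ : ℂ) (B : ℝ), ‖ζ‖ = 1 →
  (∀ j : ℕ, j < s + 1 → ‖∑ k ∈ range (s + 1),
    c k * (ζ * Complex.exp (2 * Real.pi * Complex.I * (j / (s + 1 : ℕ)))) ^ k‖ ≤ B) →
  ∑ k ∈ range (s + 1), ‖c k‖ ≤ (s + 1) * B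

/-- (100 lines) **Extrapolation.**

Proof.  Lagrange interpolation (`Lagrange`, degree `≤ s`) at the `s + 1` points `z r = exp (2πi/r)`, `r = 3, …, s + 3`:
`p (-1) = ∑_r p (z r) ∏_{q ≠ r} (-1 - z q) / (z r - z q)`, `|-1 - z q| ≤ 2`, and for `q ≠ r` in `[3, s+3]`
`|z r - z q| = 2 |sin (π (1/r - 1/q))| ≥ 4 |1/r - 1/q| ≥ 4 / (r q) ≥ 4 / (s+3)^2` (`|sin x| ≥ 2|x|/π` for `|x| ≤ π/2`), so every factor is at most
`(s+3)^2 / 2 ≤ 4 s^2` (`s ≥ 2`). -/
def S_Extra : Prop := ∀ (s : ℕ) (c : ℕ → ℂ) (B : ℝ), 2 ≤ s →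
  (∀ r : ℕ, 3 ≤ r → ‖∑ k ∈ range (s + 1), c k * Complex.exp (2 * Real.pi * Complex.I / r) ^ k‖ ≤ B) →
  ‖∑ k ∈ range (s + 1), c k * (-1) ^ k‖ ≤ (s + 1) * (4 * s ^ 2) ^ s * B

/-- (100 lines) **The weights at the generic points.**

Proof.  Let `φ = π (j + 1/(R+1)) / M ∈ (0, π)`, `A = exp (-iφ/2)`.  `b` is defined by the recursion; `sin φ * b n = (-1)^(n+1) sin (nφ)`
(induction; `d = -2 cos φ`).  `‖b n‖ ≤ n` (`|sin (nφ)| ≤ n sin φ`, induction) and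
`|sin (nφ)| ≥ 2 dist (n (j + 1/(R+1)) / M, ℤ) ≥ 2 / ((R+1) M)`: `n (j + 1/(R+1)) / M - q = (n j - q M + n/(R+1)) / M`, and
`|k + n/(R+1)| ≥ 1/(R+1)` for integers `k` and `1 ≤ n ≤ R`.  `A^4 = exp (-2iφ) ≠ 1`. -/
def S_TrigGen : Prop := ∀ (R M m j : ℕ), 2 ≤ R → m + 2 ≤ R → 1 ≤ M → j < M → ∃ (A : ℂ) (b : ℕ → ℂ),
  (A ^ 4)⁻¹ = Complex.exp (2 * Real.pi * Complex.I * (1 / ((R + 1 : ℕ) * M))) *
    Complex.exp (2 * Real.pi * Complex.I * (j / M)) ∧ ‖A‖ = 1 ∧ A ^ 4 ≠ 1 ∧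
  Hts (-A ^ 2 - (A ^ 2)⁻¹) b R m ∧ (∀ n, ‖b n‖ ≤ n) ∧
  ∀ n, 1 ≤ n → n ≤ R → 2 / ((R + 1 : ℕ) * M : ℝ) ≤ ‖b n‖

/-- (60 lines) **The weights at the roots of unity.**

Proof.  `φ = π/r`, `A = exp (-iφ/2)`, `b n = (-1)^(n+1) sin (nφ) / sin φ`, positive quotient for `1 ≤ n ≤ r - 1`, `b r = 0`; `R = r - 1`.
`d = -2 cos φ`, `1 ≤ |d| ≤ 2` as `φ ≤ π/3`. -/
def S_TrigUni : Prop := ∀ (r m : ℕ), 3 ≤ r → ∃ (A : ℂ) (b : ℕ → ℂ),
  (A ^ 4)⁻¹ = Complex.exp (2 * Real.pi * Complex.I / r) ∧ ‖A‖ = 1 ∧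
  Hts (-A ^ 2 - (A ^ 2)⁻¹) b (r - 1) m ∧
  1 ≤ ‖-A ^ 2 - (A ^ 2)⁻¹‖ ∧ ‖-A ^ 2 - (A ^ 2)⁻¹‖ ≤ 2 ∧
  ∀ n, 1 ≤ n → n ≤ r - 1 → b n = (-1) ^ (n + 1) * (‖b n‖ : ℂ)

/-- (100 lines) **From the Laurent polynomial to the complex numbers.**

Proof.  `V = ∑_{k ≤ s} c k T^(lo + k)` (`exists_window` in `MP_fc1011_gt/L1.lean`), `atNegOne V = ± ∑ c k (-1)^k`.  For `A ≠ 0` let `e_A = eval₂ (Int.castRingHom ℂ) A`
(`LaurentPolynomial.eval₂`, unit `A`).  `e_A (toA V) = e_{A⁻⁴} V = (A⁻⁴)^lo ∑ c k (A⁻⁴)^k`, so by `IsJones` and `‖A‖ = 1`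
`‖∑ c k ((A^4)⁻¹)^k‖ = ‖e_A (bracket)‖`, and `e_A delta * e_A bracket = e_A (EE …) = EE A A⁻¹ d …` (`S_State`'s conclusion; ring homomorphisms
commute with `EE`). -/
def S_Bridge : Prop := (∀ (m : ℕ), 0 < m → ∀ (cs : List (ℕ × Bool)) (μ ν : Matching m),
    (∀ c ∈ cs, c.1 + 1 < m) → delta * bracket cs μ ν = EE (T 1) (T (-1)) delta cs μ ν) →
  ∀ (m : ℕ), 0 < m → ∀ (D : Diagram m) (V : ℤ[T;T⁻¹]), D.IsJones V → ∃ c : ℕ → ℤ,
    (atNegOne V).natAbs = (∑ k ∈ range (span V + 1), c k * (-1) ^ k).natAbs ∧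
    ∀ A : ℂ, ‖A‖ = 1 → ‖-A ^ 2 - (A ^ 2)⁻¹‖ * ‖∑ k ∈ range (span V + 1), (c k : ℂ) * ((A ^ 4)⁻¹) ^ k‖ =
      ‖EE A A⁻¹ (-A ^ 2 - (A ^ 2)⁻¹) D.crossings D.top D.bot‖

end MP_fc1011_gt.MT
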