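import Pool.Agent.Lib.MP_fc1011_gt.MT.Spec

/-! Quantum integers at roots of unity. -/

namespace MP_fc1011_gt.MT

open Finset

theorem sTrigUni : S_TrigUni := by
  intro r m hr
  have hpi := Real.pi_pos
  have hr0 : (0 : ℝ) < r := by
    have : 0 < r := by omega
    exact_mod_cast this
  have hr3 : (3 : ℝ) ≤ r := by exact_mod_cast hr
  obtain ⟨φ, hφ⟩ : ∃ φ : ℝ, φ = Real.pi / r := ⟨_, rfl⟩
  have hφ0 : 0 < φ := by
    rw [hφ]
    positivity
  have hφ3 : φ ≤ Real.pi / 3 := by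
    rw [hφ]
    exact div_le_div_of_nonneg_left hpi.le (by norm_num) hr3
  have hφ1 : φ < Real.pi := by linarith
  have hsin : 0 < Real.sin φ := Real.sin_pos_of_pos_of_lt_pi hφ0 hφ1
  have hcos : 1 / 2 ≤ Real.cos φ := by
    rw [← Real.cos_pi_div_three]
    exact Real.cos_le_cos_of_nonneg_of_le_pi hφ0.le (by linarith) hφ3
  obtain ⟨A, hA⟩ : ∃ A : ℂ, A = Complex.exp (Complex.I * ((-φ / 2 : ℝ) : ℂ)) := ⟨_, rfl⟩
  have hA2 : A ^ 2 = Complex.exp (-(φ : ℂ) * Complex.I) := by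
    rw [hA, ← Complex.exp_nat_mul]
    congr 1
    push_cast
    ring
  have hA2' : (A ^ 2)⁻¹ = Complex.exp ((φ : ℂ) * Complex.I) := by
    rw [hA2, ← Complex.exp_neg]
    congr 1
    ring
  have hA2c : A ^ 2 = Complex.cos φ - Complex.sin φ * Complex.I := by
    rw [hA2, Complex.exp_mul_I, Complex.cos_neg, Complex.sin_neg]
    ring
  have hd : -A ^ 2 - (A ^ 2)⁻¹ = -2 * Complex.cos φ := by
    rw [hA2', Complex.exp_mul_I, hA2c]
    ring
  have hdn : ‖-A ^ 2 - (A ^ 2)⁻¹‖ = 2 * Real.cos φ := by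
    rw [hd, ← Complex.ofReal_cos, norm_mul, norm_neg, Complex.norm_two, Complex.norm_real,
      Real.norm_eq_abs, abs_of_nonneg (by linarith)]
  obtain ⟨b, hb⟩ : ∃ b : ℕ → ℂ, ∀ n, b n =
      (-1) ^ (n + 1) * ((Real.sin (n * φ) / Real.sin φ : ℝ) : ℂ) := ⟨_, fun n => rfl⟩
  have hpos : ∀ n : ℕ, 1 ≤ n → n ≤ r - 1 → 0 < Real.sin (n * φ) / Real.sin φ := by
    intro n hn1 hnr
    apply div_pos _ hsin
    have h1 : (0 : ℝ) < n := by exact_mod_cast hn1
    have h2 : (n : ℝ) < r := by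
      have : n < r := by omega
      exact_mod_cast this
    apply Real.sin_pos_of_pos_of_lt_pi (mul_pos h1 hφ0)
    rw [hφ, ← mul_div_assoc, div_lt_iff₀ hr0]
    nlinarith
  have hbn : ∀ n : ℕ, 1 ≤ n → n ≤ r - 1 → ‖b n‖ = Real.sin (n * φ) / Real.sin φ := by
    intro n hn1 hnr
    rw [hb, norm_mul, norm_pow, norm_neg, norm_one, one_pow, one_mul, Complex.norm_real,
      Real.norm_eq_abs, abs_of_pos (hpos n hn1 hnr)]
  refine ⟨A, b, ?_, ?_, ⟨?_, ?_, ?_, ?_, Or.inl ?_, by omega⟩, ?_, ?_, ?_⟩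
  · have h1 : (A ^ 4)⁻¹ = Complex.exp (2 * ((φ : ℂ) * Complex.I)) := by
      have h2 : A ^ 4 = A ^ 2 * A ^ 2 := by ring
      rw [h2, mul_inv, hA2', ← Complex.exp_add]
      congr 1
      ring
    rw [h1]
    congr 1
    rw [hφ]
    push_cast
    ring
  · rw [hA, Complex.norm_exp_I_mul_ofReal]
  · rw [hb]
    simp
  · rw [hb]
    have h1 : Real.sin φ ≠ 0 := hsin.ne'
    have h2 : Real.sin (((1 : ℕ) : ℝ) * φ) / Real.sin φ = 1 := by
      rw [Nat.cast_one, one_mul, div_self h1]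
    rw [h2]
    simp
  · intro n
    rw [hd, hb, hb, hb, ← Complex.ofReal_cos]
    have h1 : Real.sin φ ≠ 0 := hsin.ne'
    have h2 : Real.sin (((n + 2 : ℕ) : ℝ) * φ) =
        2 * Real.cos φ * Real.sin (((n + 1 : ℕ) : ℝ) * φ) - Real.sin ((n : ℝ) * φ) := by
      have e1 : ((n + 2 : ℕ) : ℝ) * φ = ((n + 1 : ℕ) : ℝ) * φ + φ := by
        push_cast
        ring
      have e2 : (n : ℝ) * φ = ((n + 1 : ℕ) : ℝ) * φ - φ := by
        push_cast
        ring
      rw [e1, e2, Real.sin_add, Real.sin_sub]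
      ring
    rw [h2]
    push_cast
    ring
  · intro n hn1 hnr h0
    have h1 := hbn n hn1 hnr
    rw [h0, norm_zero] at h1
    have h2 := hpos n hn1 hnr
    linarith
  · have h1 : r - 1 + 1 = r := by omega
    rw [hb, h1]
    have h2 : Real.sin ((r : ℝ) * φ) = 0 := by
      rw [hφ, mul_div_cancel₀ _ hr0.ne', Real.sin_pi]
    rw [h2]
    simp
  · rw [hdn]
    linarith
  · rw [hdn]
    have := Real.cos_le_one φ
    linarith
  · intro n hn1 hnr
    rw [hbn n hn1 hnr, hb]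

end MP_fc1011_gt.MT
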